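import Pool.Agent.H87.NC.Core

/-! # Products of dual functions and convergence in larger groups -/

set_option autoImplicit false
set_option linter.unusedSectionVars false

open MeasureTheory Filter Topology Set
open scoped ENNReal NNReal ComplexConjugate

namespace Pool.Agent.H87.NC

/-- the averages of all functions -/
noncomputable def av0 {X Γ J : Type} [Fintype J] (ρ : Γ → X → X) (w : J → ℤ → Γ) (F : J → X → ℂ)
    (N : ℕ) (x : X) : ℂ :=
  cc N * ∑ n ∈ iv N, pr ρ w F n x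

/-- almost everywhere convergence for all systems -/
def Cv {Γ J : Type} [Group Γ] [Fintype J] (w : J → ℤ → Γ) : Prop :=
  ∀ (X : Type) [MeasurableSpace X] (μ : Measure X) [IsProbabilityMeasure μ] (ρ : Γ → X → X),
    IsAct μ ρ → ∀ F : J → X → ℂ, (∀ j, B1 (F j)) →
      ∀ᵐ x ∂μ, ∃ l, Tendsto (fun N => av0 ρ w F N x) atTop (𝓝 l)

/-- Uniform metastability. -/
theorem unif {Γ J : Type} [Group Γ] [Countable Γ] [Fintype J] (w : J → ℤ → Γ) (h : Cv w) :
    ∀ ε : ℝ, 0 < ε → ∀ Φ : ℕ → ℕ, ∃ K : ℕ, ∀ (X : Type) [MeasurableSpace X] (μ : Measure X)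
      [IsProbabilityMeasure μ] (ρ : Γ → X → X), IsAct μ ρ → ∀ F : J → X → ℂ, (∀ j, B1 (F j)) →
      ∃ N, (1 ≤ N ∧ N ≤ K) ∧ μ {x | ∃ t ∈ Finset.Icc N (Φ N), ε < dist (av0 ρ w F t x)
        (av0 ρ w F N x)} ≤ ENNReal.ofReal ε := by
  intro ε hε Φ
  obtain ⟨K, hK⟩ := Ms.meta_uniform (Γ := Γ) (𝕜 := ℂ) atTop cc iv w (fun N R => Finset.Icc N R)
    (fun N => N) (by
      intro U hU
      obtain ⟨n, hn⟩ := mem_atTop_sets.1 hU
      filter_upwards [eventually_ge_atTop n] with N hN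
      exact ⟨hn N hN, fun R t ht => hn t (hN.trans (Finset.mem_Icc.1 ht).1)⟩) (by
      intro ν hν
      have h1 := h _ (ν : Measure (Ms.Conf Γ J ℂ)) Ms.sh ⟨Ms.sh_one, Ms.sh_mul, hν⟩
        (fun j ω => ((ω 1 j : Metric.closedBall (0 : ℂ) 1) : ℂ)) (by
          intro j
          refine ⟨measurable_subtype_coe.comp ((measurable_pi_apply j).comp (measurable_pi_apply 1)),
            fun ω => ?_⟩
          have h2 := (ω 1 j).2
          rw [mem_closedBall_zero_iff] at h2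
          exact h2)
      exact h1) ε hε Φ
  refine ⟨K, ?_⟩
  intro X _ μ _ ρ hρ F hF
  obtain ⟨N, h1, h2, h3⟩ := hK X μ ρ hρ.mul hρ.mp F (fun j => (hF j).1) (fun j => (hF j).2)
  exact ⟨N, ⟨h1, h2⟩, h3⟩

theorem shift_sum (q : ℤ → ℂ) (hq : ∀ k, ‖q k‖ ≤ 1) (M : ℕ) (m : ℕ) :
    ‖(∑ k ∈ iv M, q k) - ∑ k ∈ iv M, q (k + m)‖ ≤ 2 * m := by
  have step : ∀ m : ℤ, ‖(∑ k ∈ iv M, q (k + m)) - ∑ k ∈ iv M, q (k + (m + 1))‖ ≤ 2 := by
    intro m
    have e1 : ∑ k ∈ iv M, q (k + m) = q (-(M : ℤ) + m) + ∑ k ∈ Finset.Ioc (-(M : ℤ)) M, q (k + m) := by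
      rw [show iv M = Finset.Icc (-(M : ℤ)) M from rfl, ← Finset.Ioc_insert_left (by omega : -(M : ℤ) ≤ M), Finset.sum_insert (by simp)]
    have e2 : ∑ k ∈ iv M, q (k + (m + 1)) = q (M + (m + 1)) +
        ∑ k ∈ Finset.Ico (-(M : ℤ)) M, q (k + (m + 1)) := by
      rw [show iv M = Finset.Icc (-(M : ℤ)) M from rfl, ← Finset.Ico_insert_right (by omega : -(M : ℤ) ≤ M), Finset.sum_insert (by simp)]
    have e3 : ∑ k ∈ Finset.Ico (-(M : ℤ)) M, q (k + (m + 1)) = ∑ k ∈ Finset.Ioc (-(M : ℤ)) M, q (k + m) := by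
      refine Finset.sum_nbij' (fun k => k + 1) (fun k => k - 1) ?_ ?_ ?_ ?_ ?_
      · intro k hk
        rw [Finset.mem_Ico] at hk
        rw [Finset.mem_Ioc]
        omega
      · intro k hk
        rw [Finset.mem_Ioc] at hk
        rw [Finset.mem_Ico]
        omega
      · intro k _
        ring
      · intro k _
        ring
      · intro k _
        congr 1
        ring
    rw [e1, e2, e3]
    have e4 : ∀ A B C : ℂ, (A + B) - (C + B) = A - C := fun A B C => by ring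
    rw [e4]
    refine (norm_sub_le _ _).trans ?_
    have h1 := hq (-(M : ℤ) + m)
    have h2 := hq (M + (m + 1))
    linarith
  induction m with
  | zero => simp
  | succ m ih =>
    have h1 := step m
    have h2 := norm_add_le ((∑ k ∈ iv M, q k) - ∑ k ∈ iv M, q (k + m))
      ((∑ k ∈ iv M, q (k + m)) - ∑ k ∈ iv M, q (k + (m + 1)))
    rw [sub_add_sub_cancel] at h2
    push_cast
    linarith

theorem shift_sum' (q : ℤ → ℂ) (hq : ∀ k, ‖q k‖ ≤ 1) (M : ℕ) (m : ℤ) :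
    ‖(∑ k ∈ iv M, q k) - ∑ k ∈ iv M, q (k + m)‖ ≤ 2 * |(m : ℝ)| := by
  rcases Int.eq_nat_or_neg m with ⟨n, rfl | rfl⟩
  · have h1 := shift_sum q hq M n
    simpa using h1
  · have h1 := shift_sum (fun k => q (-k)) (fun k => hq _) M n
    have e1 : ∀ p : ℤ → ℂ, ∑ k ∈ iv M, p (-k) = ∑ k ∈ iv M, p k := by
      intro p
      refine Finset.sum_nbij' (fun k => -k) (fun k => -k) ?_ ?_ ?_ ?_ ?_
      · intro k hk
        rw [Finset.mem_Icc] at hk ⊢
        omega
      · intro k hk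
        rw [Finset.mem_Icc] at hk ⊢
        omega
      · intro k _
        ring
      · intro k _
        ring
      · intro k _
        rfl
    have e2 : ∑ k ∈ iv M, q (-(k + n)) = ∑ k ∈ iv M, q (k + -(n : ℤ)) := by
      rw [← e1 (fun k => q (k + -(n : ℤ)))]
      refine Finset.sum_congr rfl fun k _ => ?_
      congr 1
      ring
    rw [e1 q, e2] at h1
    simpa using h1

theorem prod_diff {r : ℕ} (α β : Fin r → ℂ) (hα : ∀ l, ‖α l‖ ≤ 1) (hβ : ∀ l, ‖β l‖ ≤ 1) :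
    ‖∏ l, α l - ∏ l, β l‖ ≤ ∑ l, ‖α l - β l‖ := by
  have key : ∀ s : Finset (Fin r), ‖∏ l ∈ s, α l - ∏ l ∈ s, β l‖ ≤ ∑ l ∈ s, ‖α l - β l‖ := by
    classical
    intro s
    induction s using Finset.induction_on with
    | empty => simp
    | insert i s hi ih =>
      rw [Finset.prod_insert hi, Finset.prod_insert hi, Finset.sum_insert hi]
      have e : α i * ∏ l ∈ s, α l - β i * ∏ l ∈ s, β l =
          (α i - β i) * ∏ l ∈ s, α l + β i * (∏ l ∈ s, α l - ∏ l ∈ s, β l) := by ring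
      rw [e]
      refine (norm_add_le _ _).trans ?_
      rw [norm_mul, norm_mul]
      have h1 : ‖∏ l ∈ s, α l‖ ≤ 1 := by
        rw [norm_prod]
        exact Finset.prod_le_one (fun _ _ => norm_nonneg _) fun l _ => hα l
      have h2 : ‖α i - β i‖ * ‖∏ l ∈ s, α l‖ ≤ ‖α i - β i‖ * 1 :=
        mul_le_mul_of_nonneg_left h1 (norm_nonneg _)
      have h3 : ‖β i‖ * ‖∏ l ∈ s, α l - ∏ l ∈ s, β l‖ ≤ 1 * ‖∏ l ∈ s, α l - ∏ l ∈ s, β l‖ :=
        mul_le_mul_of_nonneg_right (hβ i) (norm_nonneg _)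
      linarith
  exact key Finset.univ

section

variable {X Γ Γ' J : Type} [Group Γ] [Group Γ'] [Fintype J] {r : ℕ}

/-- The larger group and its evaluations. -/
structure Drv (a : ℤ → Γ) (v : J → ℤ → Γ) (r : ℕ) (θ : (Fin r → ℤ) → Γ' →* Γ)
    (w : J ⊕ (Fin r × Option J) → ℤ → Γ') : Prop where
  const : ∀ k j n, θ k (w (Sum.inl j) n) = v j n
  dist : ∀ k l n, θ k (w (Sum.inr (l, none)) n) = (a (k l + n))⁻¹ * a n
  rest : ∀ k l j n, θ k (w (Sum.inr (l, some j)) n) = v j (k l + n) * ((a (k l + n))⁻¹ * a n)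

/-- the functions -/
def FF (f : J → X → ℂ) (q : Fin r → Option J → X → ℂ) : J ⊕ (Fin r × Option J) → X → ℂ :=
  Sum.elim f (fun p => q p.1 p.2)

/-- the box -/
noncomputable def bx {r : ℕ} (M : Fin r → ℕ) : Finset (Fin r → ℤ) := Fintype.piFinset fun l => iv (M l)

theorem bx_card (M : Fin r → ℕ) : ((bx M).card : ℂ)⁻¹ = ∏ l, cc (M l) := by
  unfold bx cc
  rw [Fintype.card_piFinset, Nat.cast_prod, ← Finset.prod_inv_distrib]
  refine Finset.prod_congr rfl fun l _ => ?_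
  rw [card_iv]

theorem bx_pos (M : Fin r → ℕ) : 0 < (bx M).card := by
  unfold bx
  rw [Fintype.card_piFinset]
  refine Finset.prod_pos fun l _ => ?_
  rw [card_iv]
  omega

variable {ρ : Γ → X → X} {a : ℤ → Γ} {v : J → ℤ → Γ} {f : J → X → ℂ} {θ : (Fin r → ℤ) → Γ' →* Γ}
  {w : J ⊕ (Fin r × Option J) → ℤ → Γ'}

theorem pr_box (hm : ∀ g h, ρ (g * h) = ρ g ∘ ρ h) (hd : Drv a v r θ w)
    (q : Fin r → Option J → X → ℂ) (k : Fin r → ℤ) (n : ℤ) (x : X) :
    pr (fun γ => ρ (θ k γ)) w (FF f q) n x = pr ρ v f n x *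
      ∏ l, ds ρ a v (q l none) (fun j => q l (some j)) (k l + n) (ρ (a n) x) := by
  unfold pr FF
  rw [Fintype.prod_sum_type]
  congr 1
  · refine Finset.prod_congr rfl fun j _ => ?_
    simp only [Sum.elim_inl, hd.const]
  · rw [Fintype.prod_prod_type]
    refine Finset.prod_congr rfl fun l _ => ?_
    rw [Fintype.prod_option]
    unfold ds pr
    simp only [Sum.elim_inr, hd.dist, hd.rest, hm, Function.comp_apply]

theorem avg_box (hm : ∀ g h, ρ (g * h) = ρ g ∘ ρ h) (hd : Drv a v r θ w)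
    (q : Fin r → Option J → X → ℂ) (M : Fin r → ℕ) (n : ℕ) (x : X) :
    ((bx M).card : ℂ)⁻¹ * ∑ k ∈ bx M, av0 (fun γ => ρ (θ k γ)) w (FF f q) n x =
      cc n * ∑ m ∈ iv n, (∏ l, (cc (M l) * ∑ k ∈ iv (M l),
        ds ρ a v (q l none) (fun j => q l (some j)) (k + m) (ρ (a m) x))) * pr ρ v f m x := by
  unfold av0
  rw [← Finset.mul_sum, mul_left_comm, Finset.sum_comm, Finset.mul_sum]
  congr 1
  refine Finset.sum_congr rfl fun m _ => ?_
  rw [Finset.prod_mul_distrib, ← bx_card, Finset.prod_univ_sum, mul_assoc, Finset.sum_mul]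
  congr 1
  unfold bx
  refine Finset.sum_congr rfl fun k _ => ?_
  rw [pr_box hm hd q k m x, mul_comm]

variable [MeasurableSpace X] {μ : Measure X}

theorem err_box (hρ : IsAct μ ρ) (hf : ∀ j, B1 (f j)) (hd : Drv a v r θ w)
    {q : Fin r → Option J → X → ℂ} (hq : ∀ l o, B1 (q l o)) (M0 L0 : ℕ) (M : Fin r → ℕ)
    (hM : ∀ l, M0 ≤ M l) (n : ℕ) (hn : n ≤ L0) (x : X) :
    ‖am ρ a v f (fun y => ∏ l, dl ρ a v (q l none) (fun j => q l (some j)) (M l) y) n x -
      ((bx M).card : ℂ)⁻¹ * ∑ k ∈ bx M, av0 (fun γ => ρ (θ k γ)) w (FF f q) n x‖ ≤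
      r * (2 * L0 / (2 * M0 + 1)) := by
  rw [avg_box hρ.mul hd q M n x]
  unfold am
  rw [← mul_sub, ← Finset.sum_sub_distrib]
  apply cc_sum
  intro m hm
  rw [← sub_mul, norm_mul]
  have hds : ∀ l k y, ‖ds ρ a v (q l none) (fun j => q l (some j)) k y‖ ≤ 1 := fun l k y =>
    (ds_B1 (a := a) (v := v) hρ (fun j => hq l (some j)) (hq l none) k).2 y
  have hm' : |(m : ℝ)| ≤ L0 := by
    rw [Finset.mem_Icc] at hm
    have h1 : |m| ≤ (L0 : ℤ) := by
      rw [abs_le]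
      omega
    exact_mod_cast h1
  have h1 : ∀ l, ‖dl ρ a v (q l none) (fun j => q l (some j)) (M l) (ρ (a m) x) -
      cc (M l) * ∑ k ∈ iv (M l), ds ρ a v (q l none) (fun j => q l (some j)) (k + m) (ρ (a m) x)‖ ≤
      2 * L0 / (2 * M0 + 1) := by
    intro l
    unfold dl
    rw [← mul_sub, norm_mul, cc_norm]
    have h2 := shift_sum' (fun k => ds ρ a v (q l none) (fun j => q l (some j)) k (ρ (a m) x))
      (fun k => hds l k _) (M l) m
    have h3 : (0 : ℝ) < 2 * M0 + 1 := by positivity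
    have h4 : (2 * (M0 : ℝ) + 1) ≤ ((2 * M l + 1 : ℕ) : ℝ) := by
      have := hM l
      exact_mod_cast (by omega : 2 * M0 + 1 ≤ 2 * M l + 1)
    rw [div_eq_inv_mul]
    apply mul_le_mul _ _ (norm_nonneg _) (by positivity)
    · exact inv_anti₀ h3 h4
    · exact h2.trans (by linarith)
  have h2 := prod_diff (fun l => dl ρ a v (q l none) (fun j => q l (some j)) (M l) (ρ (a m) x))
    (fun l => cc (M l) * ∑ k ∈ iv (M l), ds ρ a v (q l none) (fun j => q l (some j)) (k + m)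
      (ρ (a m) x)) (fun l => (dl_B1 hρ (fun j => hq l (some j)) (hq l none) _).2 _)
    (fun l => cc_sum _ fun k _ => hds l _ _)
  have h3 : ∑ l : Fin r, ‖dl ρ a v (q l none) (fun j => q l (some j)) (M l) (ρ (a m) x) -
      cc (M l) * ∑ k ∈ iv (M l), ds ρ a v (q l none) (fun j => q l (some j)) (k + m) (ρ (a m) x)‖ ≤
      r * (2 * L0 / (2 * M0 + 1)) := by
    refine (Finset.sum_le_card_nsmul _ _ _ fun l _ => h1 l).trans ?_
    rw [Finset.card_univ, Fintype.card_fin, nsmul_eq_mul]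
  have h4 := (pr_B1 (v := v) hρ hf m).2 x
  exact (mul_le_mul (h2.trans h3) h4 (norm_nonneg _) (by positivity)).trans (le_of_eq (mul_one _))

end

end Pool.Agent.H87.NC
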