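import Pool.Agent.H87.NC.Box

/-! # The tests for products of dual functions -/

set_option autoImplicit false
set_option linter.unusedSectionVars false

open MeasureTheory Filter Topology Set
open scoped ENNReal NNReal ComplexConjugate

namespace Pool.Agent.H87.NC

section

variable {X Γ Γ' J : Type} [Group Γ] [Group Γ'] [Fintype J] {r : ℕ}
  {ρ : Γ → X → X} {a : ℤ → Γ} {v : J → ℤ → Γ} {f : J → X → ℂ} {θ : (Fin r → ℤ) → Γ' →* Γ}
  {w : J ⊕ (Fin r × Option J) → ℤ → Γ'} [MeasurableSpace X] {μ : Measure X} [IsProbabilityMeasure μ]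

/-- The system over the box. -/
theorem box_meas (hρ : IsAct μ ρ) (P : Finset (Fin r → ℤ)) (hP : 0 < P.card)
    (θ : (Fin r → ℤ) → Γ' →* Γ) :
    ∃ κ : Measure ((Fin r → ℤ) × X), IsProbabilityMeasure κ ∧
      IsAct κ (fun (γ : Γ') (p : (Fin r → ℤ) × X) => (p.1, ρ (θ p.1 γ) p.2)) ∧
      ∀ E, MeasurableSet E → κ E = (P.card : ℝ≥0∞)⁻¹ * ∑ k ∈ P, μ (Prod.mk k ⁻¹' E) := by
  obtain ⟨κ, hκ⟩ : ∃ κ : Measure ((Fin r → ℤ) × X), κ = (P.card : ℝ≥0∞)⁻¹ •
    ∑ k ∈ P, μ.map (Prod.mk k) := ⟨_, rfl⟩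
  have happ : ∀ E, MeasurableSet E → κ E = (P.card : ℝ≥0∞)⁻¹ * ∑ k ∈ P, μ (Prod.mk k ⁻¹' E) := by
    intro E hE
    rw [hκ, Measure.smul_apply, Measure.finsetSum_apply, smul_eq_mul]
    congr 1
    refine Finset.sum_congr rfl fun k _ => ?_
    rw [Measure.map_apply measurable_prodMk_left hE]
  refine ⟨κ, ⟨?_⟩, ⟨?_, ?_, ?_⟩, happ⟩
  · rw [happ _ MeasurableSet.univ]
    simp only [preimage_univ, measure_univ, Finset.sum_const, nsmul_eq_mul, mul_one]
    apply ENNReal.inv_mul_cancel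
    · exact_mod_cast hP.ne'
    · exact ENNReal.natCast_ne_top _
  · funext p
    simp [hρ.one]
  · intro g h
    funext p
    simp [hρ.mul]
  · intro g
    have hmeas : Measurable (fun p : (Fin r → ℤ) × X => (p.1, ρ (θ p.1 g) p.2)) := by
      apply measurable_fst.prodMk
      apply measurable_from_prod_countable_right
      intro k
      exact hρ.meas (θ k g)
    refine ⟨hmeas, ?_⟩
    apply Measure.ext
    intro E hE
    rw [Measure.map_apply hmeas hE, happ _ (hmeas hE), happ _ hE]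
    congr 1
    refine Finset.sum_congr rfl fun k _ => ?_
    exact (hρ.mp (θ k g)).measure_preimage (measurable_prodMk_left hE).nullMeasurableSet

theorem box [Countable Γ'] (hρ : IsAct μ ρ) (hf : ∀ j, B1 (f j)) (hd : Drv a v r θ w) (hcv : Cv w)
    (η : ℝ) (hη : 0 < η) (Φ : ℕ → ℕ) : ∃ K M0 : ℕ, ∀ (q : Fin r → Option J → X → ℂ),
      (∀ l o, B1 (q l o)) → ∀ M : Fin r → ℕ, (∀ l, M0 ≤ M l) →
      ∃ N, (1 ≤ N ∧ N ≤ K) ∧ Tst μ ρ a v f N (Φ N) η
        (fun x => ∏ l, dl ρ a v (q l none) (fun j => q l (some j)) (M l) x) := by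
  obtain ⟨K, hK⟩ := unif w hcv (η / 5) (by linarith) Φ
  obtain ⟨L0, hL0⟩ : ∃ L0 : ℕ, ∀ N ≤ K, N ≤ L0 ∧ Φ N ≤ L0 := by
    refine ⟨K + ∑ N ∈ Finset.range (K + 1), Φ N, fun N hN => ⟨by omega, ?_⟩⟩
    have h1 := Finset.single_le_sum (f := Φ) (fun _ _ => Nat.zero_le _)
      (Finset.mem_range.2 (by omega : N < K + 1))
    omega
  obtain ⟨M0, hM0⟩ := exists_nat_gt (r * (2 * L0) * 5 / η)
  have hδ : (r : ℝ) * (2 * L0 / (2 * M0 + 1)) ≤ η / 5 := by
    rw [← mul_div_assoc, div_le_div_iff₀ (by positivity) (by norm_num)]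
    rw [div_lt_iff₀ hη] at hM0
    have h1 : (0 : ℝ) ≤ M0 := Nat.cast_nonneg _
    nlinarith
  refine ⟨K, M0, ?_⟩
  intro q hq M hM
  obtain ⟨κ, hκ1, hκ2, hκ3⟩ := box_meas (μ := μ) hρ (bx M) (bx_pos M) θ
  have hFF : ∀ j, B1 (FF f q j) := by
    intro j
    rcases j with j | ⟨l, o⟩
    · exact hf j
    · exact hq l o
  obtain ⟨N, hN, hbad⟩ := hK ((Fin r → ℤ) × X) κ _ hκ2 (fun j p => FF f q j p.2)
    (fun j => (hFF j).comp measurable_snd)
  refine ⟨N, hN, ?_⟩
  obtain ⟨E, hE⟩ : ∃ E : (Fin r → ℤ) → Set X, E = fun k => {x | ∃ t ∈ Finset.Icc N (Φ N),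
    η / 5 < dist (av0 (fun γ => ρ (θ k γ)) w (FF f q) t x) (av0 (fun γ => ρ (θ k γ)) w (FF f q) N x)} :=
    ⟨_, rfl⟩
  have hbbB : ∀ k n, B1 (av0 (fun γ => ρ (θ k γ)) w (FF f q) n) := by
    intro k n
    unfold av0 pr
    exact cc_B1 n fun m => B1.prod _ fun j _ => (hFF j).comp (hρ.meas _)
  have hEm : ∀ k, MeasurableSet (E k) := by
    intro k
    have h1 : E k = ⋃ t ∈ Finset.Icc N (Φ N), {x | η / 5 < dist (av0 (fun γ => ρ (θ k γ)) w (FF f q) t x)
        (av0 (fun γ => ρ (θ k γ)) w (FF f q) N x)} := by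
      rw [hE]
      ext x
      simp
    rw [h1]
    refine Finset.measurableSet_biUnion _ fun t _ => ?_
    exact measurableSet_lt measurable_const ((hbbB k t).1.dist (hbbB k N).1)
  -- the measure of the bad set
  have hsum : ((bx M).card : ℝ)⁻¹ * ∑ k ∈ bx M, μ.real (E k) ≤ η / 5 := by
    obtain ⟨E', hE'⟩ : ∃ E' : Set ((Fin r → ℤ) × X), E' = {p | p.2 ∈ E p.1} := ⟨_, rfl⟩
    have hE'm : MeasurableSet E' := by
      have h1 : E' = ⋃ k : Fin r → ℤ, ({k} : Set (Fin r → ℤ)) ×ˢ E k := by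
        rw [hE']
        ext p
        simp
      rw [h1]
      exact MeasurableSet.iUnion fun k => (measurableSet_singleton k).prod (hEm k)
    have h1 : κ E' ≤ ENNReal.ofReal (η / 5) := by
      refine le_trans (le_of_eq ?_) hbad
      congr 1
      rw [hE', hE]
      rfl
    rw [hκ3 _ hE'm] at h1
    have h2 : ∀ k, Prod.mk k ⁻¹' E' = E k := by
      intro k
      rw [hE']
      rfl
    simp only [h2] at h1
    have h3 := ENNReal.toReal_mono ENNReal.ofReal_ne_top h1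
    rw [ENNReal.toReal_mul, ENNReal.toReal_inv, ENNReal.toReal_natCast,
      ENNReal.toReal_sum (fun k _ => measure_ne_top μ _), ENNReal.toReal_ofReal (by linarith)] at h3
    exact h3
  intro σ hσ1 hσ2
  have hδ2 : ∀ n ≤ L0, ∀ x, ‖am ρ a v f (fun y => ∏ l, dl ρ a v (q l none) (fun j => q l (some j))
      (M l) y) n x - ((bx M).card : ℂ)⁻¹ * ∑ k ∈ bx M, av0 (fun γ => ρ (θ k γ)) w (FF f q) n x‖ ≤
      η / 5 := fun n hn x => (err_box hρ hf hd hq M0 L0 M hM n hn x).trans hδ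
  have hcard : (0 : ℝ) < (bx M).card := by exact_mod_cast bx_pos M
  have hdom : ∀ n ∈ Finset.Icc N (Φ N), ∀ x,
      ‖am ρ a v f (fun y => ∏ l, dl ρ a v (q l none) (fun j => q l (some j)) (M l) y) n x -
        am ρ a v f (fun y => ∏ l, dl ρ a v (q l none) (fun j => q l (some j)) (M l) y) N x‖ ≤
      3 * (η / 5) + 2 * (((bx M).card : ℝ)⁻¹ * ∑ k ∈ bx M, (E k).indicator (fun _ => (1 : ℝ)) x) := by
    intro n hn x
    have hn1 := (Finset.mem_Icc.1 hn).2
    have h1 := hδ2 n (hn1.trans (hL0 N hN.2).2) x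
    have h2 := hδ2 N (hL0 N hN.2).1 x
    have h3 : ‖((bx M).card : ℂ)⁻¹ * ∑ k ∈ bx M, av0 (fun γ => ρ (θ k γ)) w (FF f q) n x -
        ((bx M).card : ℂ)⁻¹ * ∑ k ∈ bx M, av0 (fun γ => ρ (θ k γ)) w (FF f q) N x‖ ≤
        η / 5 + 2 * (((bx M).card : ℝ)⁻¹ * ∑ k ∈ bx M, (E k).indicator (fun _ => (1 : ℝ)) x) := by
      rw [← mul_sub, ← Finset.sum_sub_distrib, norm_mul, norm_inv, Complex.norm_natCast]
      have h4 : ‖∑ k ∈ bx M, (av0 (fun γ => ρ (θ k γ)) w (FF f q) n x -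
          av0 (fun γ => ρ (θ k γ)) w (FF f q) N x)‖ ≤
          ∑ k ∈ bx M, (η / 5 + 2 * (E k).indicator (fun _ => (1 : ℝ)) x) := by
        refine (norm_sum_le _ _).trans (Finset.sum_le_sum fun k _ => ?_)
        by_cases hx : x ∈ E k
        · rw [indicator_of_mem hx]
          have h5 := norm_sub_le (av0 (fun γ => ρ (θ k γ)) w (FF f q) n x)
            (av0 (fun γ => ρ (θ k γ)) w (FF f q) N x)
          have h6 := (hbbB k n).2 x
          have h7 := (hbbB k N).2 x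
          linarith
        · rw [indicator_of_notMem hx]
          rw [hE] at hx
          have h5 : ¬ (η / 5 < dist (av0 (fun γ => ρ (θ k γ)) w (FF f q) n x)
            (av0 (fun γ => ρ (θ k γ)) w (FF f q) N x)) := fun h => hx ⟨n, hn, h⟩
          rw [dist_eq_norm] at h5
          linarith
      rw [Finset.sum_add_distrib, Finset.sum_const, nsmul_eq_mul, ← Finset.mul_sum] at h4
      have h5 := mul_le_mul_of_nonneg_left h4 (inv_nonneg.2 hcard.le)
      refine h5.trans (le_of_eq ?_)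
      field_simp
    have h4 := norm_sub_le_norm_sub_add_norm_sub
      (am ρ a v f (fun y => ∏ l, dl ρ a v (q l none) (fun j => q l (some j)) (M l) y) n x)
      (((bx M).card : ℂ)⁻¹ * ∑ k ∈ bx M, av0 (fun γ => ρ (θ k γ)) w (FF f q) n x)
      (am ρ a v f (fun y => ∏ l, dl ρ a v (q l none) (fun j => q l (some j)) (M l) y) N x)
    have h5 := norm_sub_le_norm_sub_add_norm_sub
      (((bx M).card : ℂ)⁻¹ * ∑ k ∈ bx M, av0 (fun γ => ρ (θ k γ)) w (FF f q) n x)
      (((bx M).card : ℂ)⁻¹ * ∑ k ∈ bx M, av0 (fun γ => ρ (θ k γ)) w (FF f q) N x)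
      (am ρ a v f (fun y => ∏ l, dl ρ a v (q l none) (fun j => q l (some j)) (M l) y) N x)
    rw [norm_sub_rev (((bx M).card : ℂ)⁻¹ * ∑ k ∈ bx M, av0 (fun γ => ρ (θ k γ)) w (FF f q) N x)] at h5
    linarith
  have hint : Integrable (fun x => 3 * (η / 5) + 2 * (((bx M).card : ℝ)⁻¹ *
      ∑ k ∈ bx M, (E k).indicator (fun _ => (1 : ℝ)) x)) μ := by
    refine (integrable_const _).add (Integrable.const_mul (Integrable.const_mul ?_ _) _)
    exact integrable_finsetSum _ fun k _ => (integrable_const (1 : ℝ)).indicator (hEm k)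
  refine (norm_integral_le_of_norm_le hint (ae_of_all _ fun x => ?_)).trans ?_
  · refine (norm_sum_le _ _).trans ?_
    have h1 : ∀ n ∈ Finset.Icc N (Φ N), ‖σ n x * (am ρ a v f (fun y => ∏ l, dl ρ a v (q l none)
        (fun j => q l (some j)) (M l) y) n x - am ρ a v f (fun y => ∏ l, dl ρ a v (q l none)
        (fun j => q l (some j)) (M l) y) N x)‖ ≤ ‖σ n x‖ * (3 * (η / 5) + 2 * (((bx M).card : ℝ)⁻¹ *
        ∑ k ∈ bx M, (E k).indicator (fun _ => (1 : ℝ)) x)) := by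
      intro n hn
      rw [norm_mul]
      exact mul_le_mul_of_nonneg_left (hdom n hn x) (norm_nonneg _)
    refine (Finset.sum_le_sum h1).trans ?_
    rw [← Finset.sum_mul]
    have h2 : 0 ≤ 3 * (η / 5) + 2 * (((bx M).card : ℝ)⁻¹ *
        ∑ k ∈ bx M, (E k).indicator (fun _ => (1 : ℝ)) x) := by
      have h3 : 0 ≤ ∑ k ∈ bx M, (E k).indicator (fun _ => (1 : ℝ)) x :=
        Finset.sum_nonneg fun k _ => indicator_nonneg (fun _ _ => zero_le_one) _
      positivity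
    calc _ ≤ 1 * (3 * (η / 5) + 2 * (((bx M).card : ℝ)⁻¹ *
        ∑ k ∈ bx M, (E k).indicator (fun _ => (1 : ℝ)) x)) := mul_le_mul_of_nonneg_right (hσ2 x) h2
      _ = _ := one_mul _
  · have h1 : ∫ x, ∑ k ∈ bx M, (E k).indicator (fun _ => (1 : ℝ)) x ∂μ = ∑ k ∈ bx M, μ.real (E k) := by
      rw [integral_finsetSum _ (fun k _ => (integrable_const (1 : ℝ)).indicator (hEm k))]
      refine Finset.sum_congr rfl fun k _ => ?_
      rw [integral_indicator_const _ (hEm k), smul_eq_mul, mul_one]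
    rw [integral_add (integrable_const _) (Integrable.const_mul (Integrable.const_mul
      (integrable_finsetSum _ fun k _ => (integrable_const (1 : ℝ)).indicator (hEm k)) _) _)]
    rw [integral_const_mul (2 : ℝ), integral_const_mul (((bx M).card : ℝ)⁻¹), h1, integral_const,
      probReal_univ, one_smul]
    linarith

end

end Pool.Agent.H87.NC
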