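import Mathlib

/-! # Projections on the closure of an algebra of bounded functions -/

set_option autoImplicit false
set_option linter.unusedSectionVars false

open MeasureTheory Filter Topology Set
open scoped ENNReal NNReal

namespace Pool.Agent.H87.NC

/-- truncation -/
noncomputable def cl (t : ℝ) : ℝ := max (-1) (min 1 t)

theorem cl_lip : LipschitzWith 1 cl := (LipschitzWith.id.const_min 1).const_max (-1)

theorem cl_zero : cl 0 = 0 := by
  unfold cl
  norm_num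

theorem cl_le (t : ℝ) : |cl t| ≤ 1 := by
  unfold cl
  rw [abs_le]
  exact ⟨le_max_left _ _, max_le (by norm_num) (min_le_left _ _)⟩

theorem cl_of_le {t : ℝ} (h : |t| ≤ 1) : cl t = t := by
  unfold cl
  rw [abs_le] at h
  rw [min_eq_right h.2, max_eq_right h.1]

theorem cl_dist {s t : ℝ} (h : |s| ≤ 1) : |s - cl t| ≤ |s - t| := by
  have h1 := cl_lip.dist_le_mul s t
  rw [cl_of_le h] at h1
  simpa [Real.dist_eq] using h1

section

variable {X : Type} [MeasurableSpace X]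

theorem clip (μ : Measure X) [IsProbabilityMeasure μ] (B : Subalgebra ℝ (X → ℝ))
    (hB : ∀ b ∈ B, Measurable b ∧ ∃ C : ℝ, ∀ x, |b x| ≤ C) (u : X → ℝ) (hu : Measurable u)
    (hu1 : ∀ x, |u x| ≤ 1) :
    ∃ g : X → ℝ, Measurable g ∧ (∀ x, |g x| ≤ 1) ∧ (∀ b ∈ B, ∫ x, (u x - g x) * b x ∂μ = 0) ∧
      ∀ ε : ℝ, 0 < ε → ∃ b ∈ B, ∫ x, |g x - b x| ∂μ ≤ ε := by
  have hmem : ∀ b : X → ℝ, Measurable b → (∃ C : ℝ, ∀ x, |b x| ≤ C) → MemLp b 2 μ := by
    rintro b h1 ⟨C, hC⟩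
    exact MemLp.of_bound h1.aestronglyMeasurable C (ae_of_all _ hC)
  obtain ⟨K0, hK0⟩ : ∃ K0 : Submodule ℝ (Lp ℝ 2 μ), ∀ φ, φ ∈ K0 ↔ ∃ b ∈ B, (φ : X → ℝ) =ᵐ[μ] b := by
    refine ⟨{
      carrier := {φ | ∃ b ∈ B, (φ : X → ℝ) =ᵐ[μ] b}
      add_mem' := ?_
      zero_mem' := ?_
      smul_mem' := ?_ }, fun φ => Iff.rfl⟩
    · rintro φ ψ ⟨b, hb, h1⟩ ⟨c, hc, h2⟩
      refine ⟨b + c, B.add_mem hb hc, ?_⟩
      filter_upwards [h1, h2, Lp.coeFn_add φ ψ] with x h3 h4 h5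
      rw [h5, Pi.add_apply, Pi.add_apply, h3, h4]
    · exact ⟨0, B.zero_mem, Lp.coeFn_zero _ _ _⟩
    · rintro c φ ⟨b, hb, h1⟩
      refine ⟨c • b, B.smul_mem hb c, ?_⟩
      filter_upwards [h1, Lp.coeFn_smul c φ] with x h3 h4
      rw [h4, Pi.smul_apply, Pi.smul_apply, h3]
  obtain ⟨K, hK⟩ : ∃ K : Submodule ℝ (Lp ℝ 2 μ), K = K0.topologicalClosure := ⟨_, rfl⟩
  have hKc : IsClosed (K : Set (Lp ℝ 2 μ)) := by
    rw [hK]
    exact K0.isClosed_topologicalClosure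
  have hKcl : (K : Set (Lp ℝ 2 μ)) = closure (K0 : Set (Lp ℝ 2 μ)) := by
    rw [hK]
    rfl
  have hcomp : CompleteSpace K := hKc.completeSpace_coe
  have huL := hmem u hu ⟨1, hu1⟩
  obtain ⟨U, hU⟩ : ∃ U : Lp ℝ 2 μ, U = huL.toLp u := ⟨_, rfl⟩
  obtain ⟨p, hp⟩ : ∃ p : Lp ℝ 2 μ, p = K.starProjection U := ⟨_, rfl⟩
  have hpK : p ∈ K := by
    rw [hp]
    exact K.starProjection_apply_mem U
  have hpo : ∀ q ∈ K, inner ℝ (U - p) q = 0 := by
    intro q hq
    have h1 := K.sub_starProjection_mem_orthogonal U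
    rw [← hp] at h1
    rw [real_inner_comm]
    exact h1 q hq
  -- truncation preserves the closure
  obtain ⟨τ, hτ⟩ : ∃ τ : Lp ℝ 2 μ → Lp ℝ 2 μ, τ = fun φ => cl_lip.compLp cl_zero φ := ⟨_, rfl⟩
  have hτc : Continuous τ := by
    rw [hτ]
    exact cl_lip.continuous_compLp cl_zero
  have hτe : ∀ φ, (τ φ : X → ℝ) =ᵐ[μ] fun x => cl (φ x) := by
    intro φ
    rw [hτ]
    exact cl_lip.coeFn_compLp cl_zero φ
  have hτ0 : MapsTo τ (K0 : Set (Lp ℝ 2 μ)) (K : Set (Lp ℝ 2 μ)) := by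
    intro φ hφ
    obtain ⟨b, hb, hφb⟩ := (hK0 φ).1 hφ
    obtain ⟨C, hC⟩ := (hB b hb).2
    rw [hKcl, Metric.mem_closure_iff]
    intro δ hδ
    obtain ⟨P, hP⟩ := exists_polynomial_near_of_continuousOn (-C) C cl
      cl_lip.continuous.continuousOn (δ / 2) (by linarith)
    have hPb : Polynomial.aeval b P ∈ B := by
      have h1 := (Polynomial.aeval (⟨b, hb⟩ : B) P).2
      rw [← Subalgebra.aeval_coe] at h1
      exact h1
    have hPe : ∀ x, (Polynomial.aeval b P) x = P.eval (b x) := by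
      intro x
      have h1 := Polynomial.aeval_algHom_apply (Pi.evalAlgHom ℝ (fun _ : X => ℝ) x) b P
      rw [Polynomial.coe_aeval_eq_eval] at h1
      exact h1.symm
    have hPL := hmem _ (hB _ hPb).1 (hB _ hPb).2
    refine ⟨hPL.toLp _, (hK0 _).2 ⟨_, hPb, hPL.coeFn_toLp⟩, ?_⟩
    rw [dist_eq_norm]
    have h1 := Lp.norm_le_of_ae_bound (f := τ φ - hPL.toLp _) (C := δ / 2) (by linarith) (by
      filter_upwards [Lp.coeFn_sub (τ φ) (hPL.toLp _), hτe φ, hφb, hPL.coeFn_toLp] with x h1 h2 h3 h4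
      rw [h1, Pi.sub_apply, h2, h3, h4, hPe, Real.norm_eq_abs, abs_sub_comm]
      have h5 := abs_le.1 (hC x)
      exact (hP (b x) h5).le)
    have h2 : measureUnivNNReal μ = 1 := by simp [measureUnivNNReal]
    rw [h2] at h1
    have h3 : ‖τ φ - hPL.toLp _‖ ≤ δ / 2 := by simpa using h1
    linarith
  have hτK : ∀ φ ∈ K, τ φ ∈ K := by
    intro φ hφ
    have h1 : φ ∈ closure (K0 : Set (Lp ℝ 2 μ)) := by
      rw [← hKcl]
      exact hφ
    have h2 := map_mem_closure hτc h1 hτ0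
    rw [hKc.closure_eq] at h2
    exact h2
  have hUe : (U : X → ℝ) =ᵐ[μ] u := by
    rw [hU]
    exact huL.coeFn_toLp
  have hle : ‖U - τ p‖ ≤ ‖U - p‖ := by
    apply Lp.norm_le_norm_of_ae_le
    filter_upwards [Lp.coeFn_sub U (τ p), Lp.coeFn_sub U p, hτe p, hUe] with x h1 h2 h3 h4
    rw [h1, h2, Pi.sub_apply, Pi.sub_apply, h3, h4, Real.norm_eq_abs, Real.norm_eq_abs]
    exact cl_dist (hu1 x)
  have heq : τ p = p := by
    have h1 : U - τ p = (U - p) + (p - τ p) := by abel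
    have h2 := norm_add_sq_real (U - p) (p - τ p)
    rw [hpo _ (K.sub_mem hpK (hτK p hpK)), ← h1] at h2
    have h3 : ‖U - τ p‖ ^ 2 ≤ ‖U - p‖ ^ 2 := pow_le_pow_left₀ (norm_nonneg _) hle 2
    have h4 : ‖p - τ p‖ ^ 2 ≤ 0 := by linarith
    have h5 : ‖p - τ p‖ = 0 := by
      have h6 := sq_nonneg ‖p - τ p‖
      exact pow_eq_zero_iff (two_ne_zero) |>.1 (le_antisymm h4 h6)
    rw [norm_eq_zero, sub_eq_zero] at h5
    exact h5.symm
  have hpm : Measurable (p : X → ℝ) := (Lp.stronglyMeasurable p).measurable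
  have hge : (fun x => cl (p x)) =ᵐ[μ] (p : X → ℝ) := by
    have h1 := hτe p
    rw [heq] at h1
    exact h1.symm
  refine ⟨fun x => cl (p x), cl_lip.continuous.measurable.comp hpm, fun x => cl_le _, ?_, ?_⟩
  · intro b hb
    have hbL := hmem b (hB b hb).1 (hB b hb).2
    have h1 := hpo (hbL.toLp b) (by
      rw [← SetLike.mem_coe, hKcl]
      exact subset_closure ((hK0 _).2 ⟨b, hb, hbL.coeFn_toLp⟩))
    rw [L2.inner_def] at h1
    rw [← h1]
    apply integral_congr_ae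
    filter_upwards [hge, hUe, hbL.coeFn_toLp, Lp.coeFn_sub U p] with x h2 h3 h4 h5
    rw [h5, Pi.sub_apply, h3, h4, h2, RCLike.inner_apply, conj_trivial, mul_comm]
  · intro ε hε
    have h1 : p ∈ closure (K0 : Set (Lp ℝ 2 μ)) := by
      rw [← hKcl]
      exact hpK
    obtain ⟨φ, hφ, hd⟩ := Metric.mem_closure_iff.1 h1 ε hε
    obtain ⟨b, hb, hφb⟩ := (hK0 φ).1 hφ
    refine ⟨b, hb, ?_⟩
    have h2 : ∫ x, |cl (p x) - b x| ∂μ = ∫ x, ‖(p - φ) x‖ ∂μ := by
      apply integral_congr_ae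
      filter_upwards [hge, hφb, Lp.coeFn_sub p φ] with x h3 h4 h5
      rw [h5, Pi.sub_apply, h4, h3, Real.norm_eq_abs]
    rw [h2]
    have h3 := eLpNorm_le_eLpNorm_of_exponent_le (by norm_num : (1 : ℝ≥0∞) ≤ 2)
      (Lp.aestronglyMeasurable (p - φ))
    have h4 : ∫ x, ‖(p - φ) x‖ ∂μ = (eLpNorm (p - φ) 1 μ).toReal := by
      rw [eLpNorm_one_eq_lintegral_enorm, integral_norm_eq_lintegral_enorm
        (Lp.aestronglyMeasurable (p - φ))]
    rw [h4]
    rw [dist_eq_norm, Lp.norm_def] at hd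
    exact (ENNReal.toReal_mono (Lp.eLpNorm_ne_top _) h3).trans hd.le

/-- The approximants can be taken bounded by two. -/
theorem clip2 (μ : Measure X) [IsProbabilityMeasure μ] (B : Subalgebra ℝ (X → ℝ))
    (hB : ∀ b ∈ B, Measurable b ∧ ∃ C : ℝ, ∀ x, |b x| ≤ C) (u : X → ℝ) (hu : Measurable u)
    (hu1 : ∀ x, |u x| ≤ 1) :
    ∃ g : X → ℝ, Measurable g ∧ (∀ x, |g x| ≤ 1) ∧ (∀ b ∈ B, ∫ x, (u x - g x) * b x ∂μ = 0) ∧
      ∀ ε : ℝ, 0 < ε → ∃ b ∈ B, (∀ x, |b x| ≤ 2) ∧ ∫ x, |g x - b x| ∂μ ≤ ε := by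
  obtain ⟨g, hg, hg1, hgo, hga⟩ := clip μ B hB u hu hu1
  refine ⟨g, hg, hg1, hgo, fun ε hε => ?_⟩
  obtain ⟨b, hb, hbi⟩ := hga (ε / 2) (by linarith)
  obtain ⟨hbm, C, hC⟩ := hB b hb
  obtain ⟨P, hP⟩ := exists_polynomial_near_of_continuousOn (-C) C cl
    cl_lip.continuous.continuousOn (min 1 (ε / 2)) (by positivity)
  have hPb : Polynomial.aeval b P ∈ B := by
    have h1 := (Polynomial.aeval (⟨b, hb⟩ : B) P).2
    rw [← Subalgebra.aeval_coe] at h1
    exact h1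
  have hPe : ∀ x, (Polynomial.aeval b P) x = P.eval (b x) := by
    intro x
    have h1 := Polynomial.aeval_algHom_apply (Pi.evalAlgHom ℝ (fun _ : X => ℝ) x) b P
    rw [Polynomial.coe_aeval_eq_eval] at h1
    exact h1.symm
  have hnear : ∀ x, |(Polynomial.aeval b P) x - cl (b x)| < min 1 (ε / 2) := by
    intro x
    rw [hPe]
    exact hP (b x) (abs_le.1 (hC x))
  refine ⟨_, hPb, fun x => ?_, ?_⟩
  · have h1 := (hnear x).le.trans (min_le_left _ _)
    have h2 := cl_le (b x)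
    rw [abs_le] at h1 h2 ⊢
    constructor <;> linarith
  · obtain ⟨h1, C1, hC1⟩ := hB _ hPb
    have hi1 : Integrable (fun x => |g x - (Polynomial.aeval b P) x|) μ := by
      refine Integrable.of_bound ((hg.sub h1).norm).aestronglyMeasurable (1 + C1)
        (ae_of_all _ fun x => ?_)
      have h2 := hg1 x
      have h3 := hC1 x
      rw [Real.norm_eq_abs, abs_abs]
      refine (abs_sub _ _).trans ?_
      linarith
    have hi2 : Integrable (fun x => |g x - b x|) μ := by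
      refine Integrable.of_bound ((hg.sub hbm).norm).aestronglyMeasurable (1 + C)
        (ae_of_all _ fun x => ?_)
      have h2 := hg1 x
      have h3 := hC x
      rw [Real.norm_eq_abs, abs_abs]
      refine (abs_sub _ _).trans ?_
      linarith
    have h2 : ∫ x, |g x - (Polynomial.aeval b P) x| ∂μ ≤ ∫ x, (|g x - b x| + ε / 2) ∂μ := by
      refine integral_mono hi1 (hi2.add (integrable_const _)) fun x => ?_
      have h3 := (hnear x).le.trans (min_le_right _ _)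
      have h4 := cl_dist (t := b x) (hg1 x)
      have h5 := abs_sub_le (g x) (cl (b x)) ((Polynomial.aeval b P) x)
      rw [abs_sub_comm (cl (b x))] at h5
      show |g x - (Polynomial.aeval b P) x| ≤ |g x - b x| + ε / 2
      linarith
    rw [integral_add hi2 (integrable_const _)] at h2
    simp only [integral_const, probReal_univ, smul_eq_mul, one_mul] at h2
    linarith

end

end Pool.Agent.H87.NC
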