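import Pool.Agent.H87.NC.Pow

/-! # Commuting maps: one system at a time -/

set_option autoImplicit false
set_option linter.unusedSectionVars false

open MeasureTheory Filter Topology Set
open scoped ENNReal NNReal ComplexConjugate

namespace Pool.Agent.H87.NC

/-- Domination by constants. -/
theorem domG {Γ J J' : Type} [Group Γ] [Fintype J] [Fintype J'] (w : J → ℤ → Γ) (w' : J' → ℤ → Γ)
    (h : ∀ j, (∃ c, ∀ n, w j n = c) ∨ ∃ c j', ∀ n, w j n = c * w' j' n) (hcv : Cv w') : Cv w := by
  classical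
  have h1 : ∀ j, ∃ (c : Γ) (o : Option J'), (o = none → ∀ n, w j n = c) ∧
      ∀ j', o = some j' → ∀ n, w j n = c * w' j' n := by
    intro j
    rcases h j with ⟨c, h2⟩ | ⟨c, j', h2⟩
    · exact ⟨c, none, fun _ => h2, fun j' h3 => (by cases h3)⟩
    · refine ⟨c, some j', fun h3 => (by cases h3), fun j'' h3 => ?_⟩
      rw [← Option.some.inj h3]
      exact h2
  choose c o ho1 ho2 using h1
  intro X _ μ _ ρ hρ F hF
  obtain ⟨P, hP⟩ : ∃ P : Option J' → X → ℂ, P = fun o' x =>
    ∏ j ∈ Finset.univ.filter (fun j => o j = o'), F j (ρ (c j) x) := ⟨_, rfl⟩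
  have hPB : ∀ o', B1 (P o') := by
    intro o'
    rw [hP]
    exact B1.prod _ fun j _ => (hF j).comp (hρ.meas _)
  have h2 := hcv X μ ρ hρ (fun j' => P (some j')) (fun j' => hPB _)
  have e : ∀ N x, av0 ρ w F N x = P none x * av0 ρ w' (fun j' => P (some j')) N x := by
    intro N x
    unfold av0
    rw [mul_left_comm]
    congr 1
    rw [Finset.mul_sum]
    refine Finset.sum_congr rfl fun n _ => ?_
    unfold pr
    rw [← Finset.prod_fiberwise Finset.univ o, Fintype.prod_option]
    congr 1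
    · rw [hP]
      refine Finset.prod_congr rfl fun j hj => ?_
      have hj' := (Finset.mem_filter.1 hj).2
      rw [ho1 j hj']
    · refine Finset.prod_congr rfl fun j' _ => ?_
      rw [hP]
      refine Finset.prod_congr rfl fun j hj => ?_
      have hj' := (Finset.mem_filter.1 hj).2
      rw [ho2 j j' hj', hρ.mul]
      rfl
  filter_upwards [h2] with x hx
  obtain ⟨l, hl⟩ := hx
  refine ⟨P none x * l, ?_⟩
  simp only [e]
  exact hl.const_mul _

section

variable {Γ : Type} [CommGroup Γ] (r : ℕ)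

/-- the evaluations -/
def thc (k : Fin r → ℤ) : Γ × (Fin r → Γ) →* Γ where
  toFun p := p.1 * ∏ l, p.2 l ^ k l
  map_one' := by simp
  map_mul' a b := by
    simp only [Prod.fst_mul, Prod.snd_mul, Pi.mul_apply, mul_zpow, Finset.prod_mul_distrib]
    rw [mul_mul_mul_comm]

/-- the derived tuple -/
def wc {J : Type} (t0 : Γ) (t : J → Γ) : J ⊕ (Fin r × Option J) → ℤ → Γ × (Fin r → Γ)
  | Sum.inl j, n => (t j ^ n, 1)
  | Sum.inr (l, none), _ => (1, Pi.mulSingle l t0⁻¹)
  | Sum.inr (l, some j), n => (t j ^ n, Pi.mulSingle l (t j * t0⁻¹))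

theorem thc_single (k : Fin r → ℤ) (b c : Γ) (l : Fin r) :
    thc r k (b, Pi.mulSingle l c) = b * c ^ k l := by
  show b * ∏ l', (Pi.mulSingle l c : Fin r → Γ) l' ^ k l' = _
  rw [Finset.prod_eq_single l]
  · rw [Pi.mulSingle_eq_same]
  · intro l' _ hl
    rw [Pi.mulSingle_eq_of_ne hl, one_zpow]
  · intro h
    exact absurd (Finset.mem_univ l) h

theorem drv_wc {J : Type} [Fintype J] (t0 : Γ) (t : J → Γ) :
    Drv (fun n => t0 ^ n) (fun j n => t j ^ n) r (thc r) (wc r t0 t) where
  const k j n := by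
    show t j ^ n * ∏ l, (1 : Fin r → Γ) l ^ k l = t j ^ n
    simp
  dist k l n := by
    show thc r k (1, Pi.mulSingle l t0⁻¹) = _
    rw [thc_single, one_mul, zpow_add, mul_inv, inv_zpow, mul_assoc, inv_mul_cancel, mul_one]
  rest k l j n := by
    show thc r k (t j ^ n, Pi.mulSingle l (t j * t0⁻¹)) = _
    rw [thc_single, mul_zpow, zpow_add, zpow_add, inv_zpow]
    have h1 : (t0 ^ k l * t0 ^ n)⁻¹ * t0 ^ n = (t0 ^ k l)⁻¹ := by
      rw [mul_inv, mul_assoc, inv_mul_cancel, mul_one]
    rw [h1, ← mul_assoc, mul_comm (t j ^ n)]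

theorem cv_pow {m : ℕ} (h : CommutingLinear Converges m) {J : Type} [Fintype J]
    (hJ : Fintype.card J = m) (t : J → Γ) : Cv (fun j (n : ℤ) => t j ^ n) := by
  subst hJ
  intro X _ μ _ ρ hρ F hF
  obtain ⟨e, -⟩ : ∃ e : Fin (Fintype.card J) ≃ J, True := ⟨(Fintype.equivFin J).symm, trivial⟩
  have h1 := h X μ (fun i => pm hρ (t (e i))) (pm_pres hρ _) (fun i k => by
    rw [Commute, SemiconjBy, ← map_mul, ← map_mul, mul_comm]) (fun i => F (e i))
    (fun i => (hF _).bm.memLp ∞)
  have e1 : ∀ N x, av0 ρ (fun j (n : ℤ) => t j ^ n) F N x =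
      avg (fun i => F (e i)) (fun i n => pm hρ (t (e i)) ^ n) N x := by
    intro N x
    unfold av0 avg pr cc
    congr 1
    refine Finset.sum_congr rfl fun n _ => ?_
    rw [← Equiv.prod_comp e]
    refine Finset.prod_congr rfl fun j _ => ?_
    beta_reduce
    rw [← map_zpow]
    rfl
  simp only [e1]
  exact h1

theorem cv_wc {m : ℕ} (h : CommutingLinear Converges m) {J : Type} [Fintype J]
    (hJ : Fintype.card J = m) (t0 : Γ) (t : J → Γ) : Cv (wc r t0 t) := by
  refine domG (wc r t0 t) (fun j (n : ℤ) => ((t j, 1) : Γ × (Fin r → Γ)) ^ n) ?_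
    (cv_pow h hJ (fun j => ((t j, 1) : Γ × (Fin r → Γ))))
  have hp : ∀ (j : J) (n : ℤ), ((t j, 1) : Γ × (Fin r → Γ)) ^ n = (t j ^ n, 1) := by
    intro j n
    ext
    · rfl
    · simp
  rintro (j | ⟨l, _ | j⟩)
  · right
    refine ⟨1, j, fun n => ?_⟩
    rw [one_mul, hp]
    rfl
  · left
    exact ⟨_, fun n => rfl⟩
  · right
    refine ⟨(1, (Pi.mulSingle l (t j * t0⁻¹) : Fin r → Γ)), j, fun n => ?_⟩
    rw [hp]
    show (t j ^ n, (Pi.mulSingle l (t j * t0⁻¹) : Fin r → Γ)) = _
    rw [Prod.mk_mul_mk, one_mul, mul_one]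

end

section

variable {X Γ J : Type} [Group Γ] [Fintype J] [DecidableEq J] {ρ : Γ → X → X}

theorem av0_slot (w : J → ℤ → Γ) (F : J → X → ℂ) (j0 : J) (N : ℕ) (x : X) :
    av0 ρ w F N x = am ρ (w j0) (fun j : {i // i ≠ j0} => w j) (fun j : {i // i ≠ j0} => F j)
      (F j0) N x := by
  unfold av0 am pr
  congr 1
  refine Finset.sum_congr rfl fun n _ => ?_
  rw [← Finset.mul_prod_erase Finset.univ _ (Finset.mem_univ j0)]
  congr 1
  rw [Finset.prod_subtype (p := fun i => i ≠ j0) (Finset.univ.erase j0)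
    (fun x => by simp) (fun j => F j (ρ (w j n) x))]

variable [MeasurableSpace X] {μ : Measure X}

/-- null functions for a slot -/
def nsl (μ : Measure X) (ρ : Γ → X → X) (w : J → ℤ → Γ) (j : J) (f : X → ℂ) : Prop :=
  ∀ F : J → X → ℂ, (∀ i, B1 (F i)) → F j = f →
    Tendsto (fun N => ∫ x, ‖av0 ρ w F N x‖ ^ 2 ∂μ) atTop (𝓝 0)

/-- convergence -/
def cvF (μ : Measure X) (ρ : Γ → X → X) (w : J → ℤ → Γ) (F : J → X → ℂ) : Prop :=
  ∀ᵐ x ∂μ, ∃ l, Tendsto (fun N => av0 ρ w F N x) atTop (𝓝 l)

/-- Decomposition in all the slots. -/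
theorem all_slots {w : J → ℤ → Γ}
    (hs : ∀ (j0 : J) (u : X → ℝ), Measurable u → (∀ x, |u x| ≤ 1) → ∃ g w' : X → ℂ, B1 g ∧ B1 w' ∧
      (∀ x, (u x : ℂ) = g x + 2 * w' x) ∧
      (∀ F : J → X → ℂ, (∀ j, B1 (F j)) → F j0 = g → cvF μ ρ w F) ∧ nsl μ ρ w j0 w')
    (hN : ∀ F : J → X → ℂ, (∀ j, B1 (F j)) → (∀ j, nsl μ ρ w j (F j)) → cvF μ ρ w F) :
    ∀ F : J → X → ℂ, (∀ j, B1 (F j)) → cvF μ ρ w F := by
  have key : ∀ s : Finset J, ∀ F : J → X → ℂ, (∀ j, B1 (F j)) →
      (∀ j, j ∉ s → nsl μ ρ w j (F j)) → cvF μ ρ w F := by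
    intro s
    induction s using Finset.induction_on with
    | empty =>
      intro F hF h
      exact hN F hF fun j => h j (Finset.notMem_empty j)
    | insert j0 s hj0 ih =>
      intro F hF h
      obtain ⟨g1, w1, hg1, hw1, e1, c1, n1⟩ := hs j0 (fun x => (F j0 x).re)
        (Complex.measurable_re.comp (hF j0).1) (fun x => (Complex.abs_re_le_norm _).trans ((hF j0).2 x))
      obtain ⟨g2, w2, hg2, hw2, e2, c2, n2⟩ := hs j0 (fun x => (F j0 x).im)
        (Complex.measurable_im.comp (hF j0).1) (fun x => (Complex.abs_im_le_norm _).trans ((hF j0).2 x))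
      have hB : ∀ g, B1 g → ∀ j, B1 (Function.update F j0 g j) := by
        intro g hg j
        by_cases hj : j = j0
        · subst hj
          rw [Function.update_self]
          exact hg
        · rw [Function.update_of_ne hj]
          exact hF j
      have hn : ∀ g, nsl μ ρ w j0 g → ∀ j, j ∉ s → nsl μ ρ w j (Function.update F j0 g j) := by
        intro g hg j hj
        by_cases hj1 : j = j0
        · subst hj1
          rw [Function.update_self]
          exact hg
        · rw [Function.update_of_ne hj1]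
          exact h j fun hh => (Finset.mem_insert.1 hh).elim hj1 hj
      have a1 := c1 _ (hB g1 hg1) (Function.update_self _ _ _)
      have a2 := c2 _ (hB g2 hg2) (Function.update_self _ _ _)
      have b1 := ih _ (hB w1 hw1) (hn w1 n1)
      have b2 := ih _ (hB w2 hw2) (hn w2 n2)
      have hr : ∀ g : X → ℂ, (fun j : {i // i ≠ j0} => Function.update F j0 g (j : J)) =
          fun j : {i // i ≠ j0} => F j := by
        intro g
        funext j
        rw [Function.update_of_ne j.2]
      have e : ∀ N x, av0 ρ w F N x = (av0 ρ w (Function.update F j0 g1) N x +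
          2 * av0 ρ w (Function.update F j0 w1) N x) +
          Complex.I * (av0 ρ w (Function.update F j0 g2) N x +
          2 * av0 ρ w (Function.update F j0 w2) N x) := by
        intro N x
        simp only [av0_slot w _ j0, Function.update_self, hr]
        rw [← am_smul, ← am_smul, ← am_add, ← am_add, ← am_smul, ← am_add]
        congr 1
        funext y
        rw [← e1, ← e2]
        conv_lhs => rw [← Complex.re_add_im (F j0 y)]
        ring
      filter_upwards [a1, a2, b1, b2] with x ha1 ha2 hb1 hb2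
      obtain ⟨l1, ha1⟩ := ha1
      obtain ⟨l2, ha2⟩ := ha2
      obtain ⟨l3, hb1⟩ := hb1
      obtain ⟨l4, hb2⟩ := hb2
      refine ⟨(l1 + 2 * l3) + Complex.I * (l2 + 2 * l4), ?_⟩
      simp only [e]
      exact (ha1.add (hb1.const_mul 2)).add ((ha2.add (hb2.const_mul 2)).const_mul Complex.I)
  intro F hF
  exact key Finset.univ F hF fun j hj => absurd (Finset.mem_univ j) hj

end

section

variable {X : Type} {m : ℕ}

theorem homc_comm (T : Fin m → Equiv.Perm X) (hc : ∀ i k, Commute (T i) (T k)) :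
    Pairwise fun i j => ∀ x y : Multiplicative ℤ,
      Commute (zpowersHom (Equiv.Perm X) (T i) x) (zpowersHom (Equiv.Perm X) (T j) y) := by
  intro i j _ x y
  rw [zpowersHom_apply, zpowersHom_apply]
  exact (hc i j).zpow_zpow _ _

/-- the homomorphism given by commuting maps -/
noncomputable def homc (T : Fin m → Equiv.Perm X) (hc : ∀ i k, Commute (T i) (T k)) :
    (Fin m → Multiplicative ℤ) →* Equiv.Perm X :=
  MonoidHom.noncommPiCoprod (fun i => zpowersHom (Equiv.Perm X) (T i)) (homc_comm T hc)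

theorem homc_single (T : Fin m → Equiv.Perm X) (hc : ∀ i k, Commute (T i) (T k)) (j : Fin m) :
    homc T hc (Pi.mulSingle j (Multiplicative.ofAdd 1)) = T j := by
  unfold homc
  rw [MonoidHom.noncommPiCoprod_mulSingle, zpowersHom_apply, toAdd_ofAdd, zpow_one]

variable [MeasurableSpace X] {μ : Measure X} [IsProbabilityMeasure μ]

theorem homc_mem (T : Fin m → Equiv.Perm X) (hc : ∀ i k, Commute (T i) (T k))
    (hT : ∀ i, T i ∈ LL.MP μ) (γ : Fin m → Multiplicative ℤ) : homc T hc γ ∈ LL.MP μ := by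
  have h1 : homc T hc γ ∈ (homc T hc).range := ⟨γ, rfl⟩
  unfold homc at h1
  rw [MonoidHom.noncommPiCoprod_range] at h1
  refine (iSup_le ?_ : _ ≤ LL.MP μ) h1
  rintro i _ ⟨k, rfl⟩
  rw [zpowersHom_apply]
  exact (LL.MP μ).zpow_mem (hT i) _

theorem homc_act (T : Fin m → Equiv.Perm X) (hc : ∀ i k, Commute (T i) (T k))
    (hT : ∀ i, T i ∈ LL.MP μ) : IsAct μ (fun γ => ⇑(homc T hc γ)) where
  one := by
    rw [map_one]
    rfl
  mul a b := by
    rw [map_mul]
    rfl
  mp γ := (homc_mem T hc hT γ).2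

/-- **One system at a time.** -/
theorem com_sys (h : CommutingLinear Converges m) (T : Fin (m + 1) → Equiv.Perm X)
    (hT : Preserving μ T) (hc : ∀ i k, Commute (T i) (T k))
    (hN : NullAllConv μ (fun j n => T j ^ n)) : Conv μ (fun j n => T j ^ n) := by
  have hTm : ∀ i, T i ∈ LL.MP μ := fun i => ⟨hT.inverse i, hT.preserving i⟩
  have hgm : ∀ (j : Fin (m + 1)) (n : ℤ), MeasurePreserving (⇑(T j ^ n)) μ μ := fun j n =>
    ((LL.MP μ).zpow_mem (hTm j) n).2
  have hρ := homc_act T hc hTm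
  obtain ⟨t, ht⟩ : ∃ t : Fin (m + 1) → (Fin (m + 1) → Multiplicative ℤ),
    t = fun j => (Pi.mulSingle j (Multiplicative.ofAdd (1 : ℤ)) : Fin (m + 1) → Multiplicative ℤ) :=
    ⟨_, rfl⟩
  have htT : ∀ j (n : ℤ), homc T hc (t j ^ n) = T j ^ n := by
    intro j n
    rw [map_zpow, ht, homc_single]
  have e1 : ∀ (F : Fin (m + 1) → X → ℂ) N x,
      av0 (fun γ => ⇑(homc T hc γ)) (fun j (n : ℤ) => t j ^ n) F N x =
      avg F (fun j n => T j ^ n) N x := by
    intro F N x
    unfold av0 avg pr cc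
    congr 1
    refine Finset.sum_congr rfl fun n _ => Finset.prod_congr rfl fun j _ => ?_
    beta_reduce
    rw [htT]
  have h1 : ∀ F : Fin (m + 1) → X → ℂ, (∀ j, B1 (F j)) →
      cvF μ (fun γ => ⇑(homc T hc γ)) (fun j (n : ℤ) => t j ^ n) F := by
    refine all_slots ?_ ?_
    · intro j0 u hu hu1
      have hcard : Fintype.card {i : Fin (m + 1) // i ≠ j0} = m := by
        rw [Fintype.card_subtype_compl, Fintype.card_fin, Fintype.card_subtype_eq]
        rfl
      have hM : Mx μ (fun n : ℤ => ⇑(homc T hc (t j0 ^ n))) := by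
        simp only [htT]
        exact mx_pow (hTm j0)
      obtain ⟨g, w', hg, hw', hu', hG, hW⟩ := split (a := fun n : ℤ => t j0 ^ n)
        (v := fun (j : {i // i ≠ j0}) (n : ℤ) => t j ^ n) hρ
        (fun f hf r D hD => gd_prod hρ hf ⟨_, inferInstance, inferInstance, thc r,
          wc r (t j0) (fun j : {i // i ≠ j0} => t j), drv_wc r (t j0) _,
          cv_wc r h hcard (t j0) _⟩ D hD) hM u hu hu1
      refine ⟨g, w', hg, hw', hu', ?_, ?_⟩
      · intro F hF hFg
        have h2 := hG (fun j : {i // i ≠ j0} => F j) (fun j => hF j)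
        rw [← hFg] at h2
        unfold cvF
        simp only [av0_slot _ F j0]
        exact h2
      · intro F hF hFw
        have h2 := hW (fun j : {i // i ≠ j0} => F j) (fun j => hF j)
        rw [← hFw] at h2
        simp only [av0_slot _ F j0]
        exact h2
    · intro F hF hn
      have h2 := hN F (fun j => (hF j).bm.memLp ∞) (by
        intro j f' hf' hfj
        obtain ⟨C, f2, hf2, hfj2, hC⟩ := avg_scale' hgm hf' j (by
          rw [hfj]
          exact hF j)
        have h3 := hn j f2 hf2 (hfj2.trans hfj)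
        simp only [e1] at h3
        have h4 : ∀ N, ∫ x, ‖avg f' (fun j n => T j ^ n) N x‖ ^ 2 ∂μ =
            ‖C‖ ^ 2 * ∫ x, ‖avg f2 (fun j n => T j ^ n) N x‖ ^ 2 ∂μ := by
          intro N
          rw [← integral_const_mul]
          apply integral_congr_ae
          filter_upwards [hC] with x hx
          rw [hx, norm_mul, mul_pow]
        simp only [h4]
        have h5 := h3.const_mul (‖C‖ ^ 2)
        rw [mul_zero] at h5
        exact h5)
      unfold cvF
      simp only [e1]
      exact h2.mono fun x hx => ⟨0, hx⟩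
  refine conv_of_b1 hgm fun f hf => ?_
  have h2 := h1 f hf
  unfold cvF at h2
  simp only [e1] at h2
  exact h2

end

end Pool.Agent.H87.NC
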