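import Pool.Agent.H87.NC.Com

/-! # Commuting maps: the equivalences -/

set_option autoImplicit false
set_option linter.unusedSectionVars false

open MeasureTheory Filter Topology Set
open scoped ENNReal NNReal ComplexConjugate

namespace Pool.Agent.H87.NC

theorem conv_zero : CommutingLinear Converges 0 := by
  intro X _ μ _ T _ _ f _
  refine Eventually.of_forall fun x => ⟨1, ?_⟩
  refine tendsto_const_nhds.congr fun N => ?_
  unfold avg
  simp only [Finset.univ_eq_empty, Finset.prod_empty, Finset.sum_const, card_iv, nsmul_eq_mul, mul_one]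
  rw [inv_mul_cancel₀]
  exact_mod_cast (by omega : 2 * N + 1 ≠ 0)

theorem conv_pad {m : ℕ} (h : CommutingLinear Converges (m + 1)) : CommutingLinear Converges m := by
  intro X _ μ _ T hT hc f hf
  have h1 := h X μ (Fin.cons 1 T : Fin (m + 1) → Equiv.Perm X) ⟨?_, ?_⟩ ?_
    (Fin.cons (fun _ => 1) f : Fin (m + 1) → X → ℂ) ?_
  · refine h1.mono fun x hx => ?_
    obtain ⟨L, hL⟩ := hx
    refine ⟨L, hL.congr fun N => ?_⟩
    unfold avg
    congr 1
    refine Finset.sum_congr rfl fun n _ => ?_
    rw [Fin.prod_univ_succ]
    simp only [Fin.cons_zero, Fin.cons_succ, one_mul]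
  · intro i
    refine Fin.cases ?_ (fun j => ?_) i
    · exact measurable_id
    · exact hT.inverse j
  · intro i
    refine Fin.cases ?_ (fun j => ?_) i
    · exact MeasurePreserving.id μ
    · exact hT.preserving j
  · intro i k
    refine Fin.cases ?_ (fun j => ?_) i
    · exact Commute.one_left _
    · refine Fin.cases ?_ (fun l => ?_) k
      · exact Commute.one_right _
      · exact hc j l
  · intro i
    refine Fin.cases ?_ (fun j => ?_) i
    · exact memLp_const 1
    · exact hf j

theorem conv_le {m M : ℕ} (hm : m ≤ M) (h : CommutingLinear Converges M) :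
    CommutingLinear Converges m := by
  induction M, hm using Nat.le_induction with
  | base => exact h
  | succ M _ ih => exact ih (conv_pad h)

theorem sys_iff {m : ℕ} (h : CommutingLinear Converges m) (X : Type) [MeasurableSpace X]
    (μ : Measure X) [IsProbabilityMeasure μ] (T : Fin (m + 1) → Equiv.Perm X) (hT : Preserving μ T)
    (hc : ∀ i k, Commute (T i) (T k)) :
    Conv μ (fun j n => T j ^ n) ↔ NullAllConv μ (fun j n => T j ^ n) := by
  constructor
  · intro h1
    exact nullAll_of_conv (fun j n => ((LL.MP μ).zpow_mem ⟨hT.inverse j, hT.preserving j⟩ n).2) h1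
      (by omega)
  · exact com_sys h T hT hc

theorem pairs_iff (X : Type) [MeasurableSpace X] (μ : Measure X) [IsProbabilityMeasure μ]
    (T : Fin 2 → Equiv.Perm X) (hT : Preserving μ T) (hc : ∀ i k, Commute (T i) (T k)) :
    Conv μ (fun j n => T j ^ n) ↔ NullAllConv μ (fun j n => T j ^ n) :=
  sys_iff conv_one X μ T hT hc

theorem commuting_iff (M : ℕ) : CommutingLinear Converges M ↔
    ∀ m, 1 ≤ m → m ≤ M → CommutingLinear NullAllConverges m := by
  constructor
  · intro h m hm1 hm X _ μ _ T hT hc
    exact nullAll_of_conv (fun j n => ((LL.MP μ).zpow_mem ⟨hT.inverse j, hT.preserving j⟩ n).2)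
      (conv_le hm h X μ T hT hc) hm1
  · induction M with
    | zero => exact fun _ => conv_zero
    | succ M ih =>
      intro h X _ μ _ T hT hc
      exact com_sys (ih fun m hm1 hm => h m hm1 (by omega)) T hT hc
        (h (M + 1) (by omega) le_rfl X μ T hT hc)

end Pool.Agent.H87.NC
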