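import Mathlib

/-! # Reduction of almost everywhere convergence to indicator functions -/

set_option autoImplicit false

open MeasureTheory Filter Topology Set
open scoped ENNReal NNReal

namespace Pool.Agent.H87.NC.Ms

/-- Induction principle for bounded measurable functions. -/
theorem bdd_induction {X 𝕜 : Type*} [MeasurableSpace X] [RCLike 𝕜] (V : (X → 𝕜) → Prop)
    (hind : ∀ s : Set X, MeasurableSet s → V (s.indicator 1))
    (hadd : ∀ f g, V f → V g → V (f + g)) (hsmul : ∀ (c : 𝕜) f, V f → V (c • f))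
    (hlim : ∀ f, (∀ ε : ℝ, 0 < ε → ∃ g, V g ∧ ∀ x, ‖f x - g x‖ ≤ ε) → V f) :
    ∀ f : X → 𝕜, Measurable f → (∃ C : ℝ, ∀ x, ‖f x‖ ≤ C) → V f := by
  have h0 : V 0 := by
    have h := hind ∅ MeasurableSet.empty
    rwa [indicator_empty] at h
  have hsum : ∀ {κ : Type} (s : Finset κ) (g : κ → X → 𝕜), (∀ i ∈ s, V (g i)) → V (∑ i ∈ s, g i) := by
    classical
    intro κ s g
    induction s using Finset.induction_on with
    | empty => intro _; simpa using h0
    | insert a s ha ih =>
      intro h
      rw [Finset.sum_insert ha]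
      exact hadd _ _ (h a (Finset.mem_insert_self _ _)) (ih fun i hi => h i (Finset.mem_insert_of_mem hi))
  have hreal : ∀ u : X → ℝ, Measurable u → (∃ C : ℝ, ∀ x, |u x| ≤ C) → V (fun x => (u x : 𝕜)) := by
    intro u hu hC
    obtain ⟨C, hC⟩ := hC
    apply hlim
    intro ε hε
    obtain ⟨k, hk⟩ := exists_nat_gt (1 / ε)
    have hk0 : (0 : ℝ) < k := lt_trans (by positivity) hk
    obtain ⟨M, hM⟩ := exists_nat_gt (k * C + 1)
    refine ⟨∑ i ∈ Finset.Icc (-(M : ℤ)) M, ((i : 𝕜) / k) • ({x | ⌊k * u x⌋ = i}.indicator 1), ?_, ?_⟩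
    · apply hsum
      intro i _
      apply hsmul
      apply hind
      have h1 : Measurable fun x => ⌊k * u x⌋ := (hu.const_mul _).floor
      exact h1 (measurableSet_singleton i)
    · intro x
      have h1 : (∑ i ∈ Finset.Icc (-(M : ℤ)) M, ((i : 𝕜) / k) • ({x | ⌊k * u x⌋ = i}.indicator (1 : X → 𝕜))) x =
          ((⌊k * u x⌋ : ℤ) : 𝕜) / k := by
        rw [Finset.sum_apply, Finset.sum_eq_single ⌊k * u x⌋]
        · simp
        · intro i _ hi
          simp only [Pi.smul_apply, smul_eq_mul]
          rw [indicator_of_notMem, mul_zero]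
          exact fun h => hi h.symm
        · intro h
          exfalso
          apply h
          rw [Finset.mem_Icc]
          have h2 := abs_le.1 (hC x)
          have h3 : |k * u x| ≤ k * C := by
            rw [abs_mul, abs_of_pos hk0]
            exact mul_le_mul_of_nonneg_left (hC x) hk0.le
          have h4 := abs_le.1 h3
          constructor
          · have h5 : ((-(M : ℤ) : ℤ) : ℝ) < k * u x := by push_cast; linarith
            rw [Int.le_floor]
            exact h5.le
          · have h5 := Int.floor_le (k * u x)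
            have h6 : ((⌊k * u x⌋ : ℤ) : ℝ) ≤ ((M : ℤ) : ℝ) := by push_cast; linarith
            exact_mod_cast h6
      rw [h1]
      have h2 : ((u x : ℝ) : 𝕜) - ((⌊k * u x⌋ : ℤ) : 𝕜) / k = (((u x : ℝ) - (⌊k * u x⌋ : ℤ) / k : ℝ) : 𝕜) := by
        push_cast
        ring
      rw [h2, RCLike.norm_ofReal]
      have h3 : u x - (⌊k * u x⌋ : ℤ) / k = Int.fract (k * u x) / k := by
        rw [← Int.self_sub_floor]
        field_simp
      rw [h3, abs_of_nonneg (div_nonneg (Int.fract_nonneg _) hk0.le), div_le_iff₀ hk0]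
      have h4 := (Int.fract_lt_one (k * u x)).le
      have h5 : 1 < k * ε := by
        rwa [div_lt_iff₀ hε] at hk
      linarith
  intro f hf hC
  obtain ⟨C, hC⟩ := hC
  have h1 : f = (fun x => ((RCLike.re (f x) : ℝ) : 𝕜)) + (RCLike.I : 𝕜) • (fun x => ((RCLike.im (f x) : ℝ) : 𝕜)) := by
    funext x
    simp only [Pi.add_apply, Pi.smul_apply, smul_eq_mul]
    rw [mul_comm]
    exact (RCLike.re_add_im (f x)).symm
  rw [h1]
  apply hadd
  · exact hreal _ (RCLike.continuous_re.measurable.comp hf) ⟨C, fun x => (RCLike.abs_re_le_norm _).trans (hC x)⟩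
  · apply hsmul
    exact hreal _ (RCLike.continuous_im.measurable.comp hf) ⟨C, fun x => (RCLike.abs_im_le_norm _).trans (hC x)⟩

/-- A uniform limit of convergent functions converges. -/
theorem conv_of_approx {Θ F : Type*} [NormedAddCommGroup F] [CompleteSpace F] (L : Filter Θ) [NeBot L] (a : Θ → F)
    (h : ∀ ε : ℝ, 0 < ε → ∃ b : Θ → F, (∃ l, Tendsto b L (𝓝 l)) ∧ ∀ᶠ t in L, ‖a t - b t‖ ≤ ε) :
    ∃ l, Tendsto a L (𝓝 l) := by
  rw [← cauchy_map_iff_exists_tendsto, Metric.cauchy_iff]
  refine ⟨inferInstance, ?_⟩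
  intro ε hε
  obtain ⟨b, ⟨l, hl⟩, hb⟩ := h (ε / 5) (by linarith)
  have h1 : ∀ᶠ t in L, dist (b t) l < ε / 5 := hl (Metric.ball_mem_nhds _ (by linarith))
  refine ⟨a '' {t | ‖a t - b t‖ ≤ ε / 5 ∧ dist (b t) l < ε / 5}, image_mem_map (hb.and h1), ?_⟩
  have h6 : ∀ t, (‖a t - b t‖ ≤ ε / 5 ∧ dist (b t) l < ε / 5) → dist (a t) l ≤ 2 * ε / 5 := by
    intro t ht
    have h2 := dist_triangle (a t) (b t) l
    rw [dist_eq_norm (a t) (b t)] at h2
    linarith [ht.1, ht.2]
  rintro _ ⟨t, ht, rfl⟩ _ ⟨t', ht', rfl⟩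
  have h7 := h6 t ht
  have h8 := h6 t' ht'
  have h9 := dist_triangle_right (a t) (a t') l
  linarith

section

variable {X I J Θ 𝕜 : Type*} [MeasurableSpace X] [RCLike 𝕜] [Fintype J]

/-- Weighted multiple averages. -/
noncomputable def av (w : Θ → 𝕜) (B : Θ → Finset I) (τ : J → I → X → X) (f : J → X → 𝕜) (x : X) (t : Θ) : 𝕜 :=
  w t * ∑ i ∈ B t, ∏ j, f j (τ j i x)

/-- From indicator functions to bounded measurable functions. -/
theorem conv_of_sets (μ : Measure X) (L : Filter Θ) [NeBot L] (w : Θ → 𝕜) (B : Θ → Finset I)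
    (hw : ∀ t, ‖w t‖ * (B t).card ≤ 1) (τ : J → I → X → X)
    (h : ∀ A : J → Set X, (∀ j, MeasurableSet (A j)) →
      ∀ᵐ x ∂μ, ∃ l, Tendsto (av w B τ (fun j => (A j).indicator 1) x) L (𝓝 l)) :
    ∀ f : J → X → 𝕜, (∀ j, Measurable (f j)) → (∀ j, ∃ C : ℝ, ∀ x, ‖f j x‖ ≤ C) →
      ∀ᵐ x ∂μ, ∃ l, Tendsto (av w B τ f x) L (𝓝 l) := by
  classical
  have key : ∀ S : Finset J, ∀ f : J → X → 𝕜, (∀ j, Measurable (f j)) → (∀ j, ∃ C : ℝ, ∀ x, ‖f j x‖ ≤ C) →
      (∀ j, j ∉ S → ∃ A : Set X, MeasurableSet A ∧ f j = A.indicator 1) →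
      ∀ᵐ x ∂μ, ∃ l, Tendsto (av w B τ f x) L (𝓝 l) := by
    intro S
    induction S using Finset.induction_on with
    | empty =>
      intro f _ _ h3
      have h4 : ∀ j, ∃ A : Set X, MeasurableSet A ∧ f j = A.indicator 1 := fun j => h3 j (by simp)
      choose A hA1 hA2 using h4
      have h5 := h A hA1
      have h6 : f = fun j => (A j).indicator 1 := funext hA2
      rw [h6]
      exact h5
    | insert a S ha ih =>
      intro f hf hC hS
      choose C hC using hC
      obtain ⟨R, hR⟩ : ∃ R : X → I → 𝕜, R = fun x i => ∏ j ∈ Finset.univ.erase a, f j (τ j i x) := ⟨_, rfl⟩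
      have hfac : ∀ (u : X → 𝕜) (x : X) (t : Θ),
          av w B τ (Function.update f a u) x t = w t * ∑ i ∈ B t, u (τ a i x) * R x i := by
        intro u x t
        unfold av
        congr 1
        refine Finset.sum_congr rfl fun i _ => ?_
        rw [← Finset.mul_prod_erase Finset.univ _ (Finset.mem_univ a), hR, Function.update_self]
        congr 1
        refine Finset.prod_congr rfl fun j hj => ?_
        rw [Function.update_of_ne (Finset.ne_of_mem_erase hj)]
      obtain ⟨K, hK⟩ : ∃ K : ℝ, K = ∏ j ∈ Finset.univ.erase a, max (C j) 0 := ⟨_, rfl⟩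
      have hRK : ∀ x i, ‖R x i‖ ≤ K := by
        intro x i
        rw [hR, hK]
        simp only
        rw [norm_prod]
        exact Finset.prod_le_prod (fun j _ => norm_nonneg _) (fun j _ => (hC j _).trans (le_max_left _ _))
      have hK0 : 0 ≤ K := by
        rw [hK]
        exact Finset.prod_nonneg fun j _ => le_max_right _ _
      have h1 := bdd_induction (fun u : X → 𝕜 => ∀ᵐ x ∂μ, ∃ l, Tendsto (av w B τ (Function.update f a u) x) L (𝓝 l))
        (by
          intro s hs
          apply ih
          · intro j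
            by_cases hj : j = a
            · subst hj
              rw [Function.update_self]
              exact measurable_one.indicator hs
            · rw [Function.update_of_ne hj]
              exact hf j
          · intro j
            by_cases hj : j = a
            · subst hj
              rw [Function.update_self]
              refine ⟨1, fun x => ?_⟩
              by_cases hx : x ∈ s <;> simp [hx]
            · rw [Function.update_of_ne hj]
              exact ⟨C j, hC j⟩
          · intro j hj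
            by_cases hja : j = a
            · subst hja
              rw [Function.update_self]
              exact ⟨s, hs, rfl⟩
            · rw [Function.update_of_ne hja]
              exact hS j (by simp [hja, hj]))
        (by
          intro u v hu hv
          filter_upwards [hu, hv] with x h1 h2
          obtain ⟨l1, hl1⟩ := h1
          obtain ⟨l2, hl2⟩ := h2
          refine ⟨l1 + l2, ?_⟩
          refine (hl1.add hl2).congr fun t => ?_
          rw [hfac, hfac, hfac, ← mul_add, ← Finset.sum_add_distrib]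
          congr 1
          refine Finset.sum_congr rfl fun i _ => ?_
          rw [Pi.add_apply, add_mul])
        (by
          intro c u hu
          filter_upwards [hu] with x h1
          obtain ⟨l1, hl1⟩ := h1
          refine ⟨c * l1, ?_⟩
          refine (hl1.const_mul c).congr fun t => ?_
          rw [hfac, hfac, mul_left_comm, Finset.mul_sum]
          congr 1
          refine Finset.sum_congr rfl fun i _ => ?_
          rw [Pi.smul_apply, smul_eq_mul, mul_assoc])
        (by
          intro u hu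
          have h2 : ∀ n : ℕ, ∃ g : X → 𝕜, (∀ᵐ x ∂μ, ∃ l, Tendsto (av w B τ (Function.update f a g) x) L (𝓝 l)) ∧
              ∀ x, ‖u x - g x‖ ≤ 1 / (n + 1 : ℝ) := fun n => hu _ (by positivity)
          choose g hg1 hg2 using h2
          have h3 : ∀ᵐ x ∂μ, ∀ n, ∃ l, Tendsto (av w B τ (Function.update f a (g n)) x) L (𝓝 l) := by
            rw [ae_all_iff]
            exact hg1
          filter_upwards [h3] with x hx
          apply conv_of_approx
          intro ε hε
          obtain ⟨n, hn⟩ := exists_nat_gt (K / ε)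
          refine ⟨_, hx n, ?_⟩
          refine Eventually.of_forall fun t => ?_
          rw [hfac, hfac, ← mul_sub, ← Finset.sum_sub_distrib, norm_mul]
          have h4 : ‖∑ i ∈ B t, (u (τ a i x) * R x i - g n (τ a i x) * R x i)‖ ≤ (B t).card * (1 / (n + 1 : ℝ) * K) := by
            refine (norm_sum_le _ _).trans ?_
            rw [← nsmul_eq_mul]
            apply Finset.sum_le_card_nsmul
            intro i _
            rw [← sub_mul, norm_mul]
            exact mul_le_mul (hg2 n _) (hRK _ _) (norm_nonneg _) (by positivity)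
          have h5 : 1 / (n + 1 : ℝ) * K ≤ ε := by
            rw [div_lt_iff₀ hε] at hn
            rw [one_div, inv_mul_le_iff₀ (by positivity)]
            nlinarith
          calc ‖w t‖ * ‖∑ i ∈ B t, (u (τ a i x) * R x i - g n (τ a i x) * R x i)‖
              ≤ ‖w t‖ * ((B t).card * (1 / (n + 1 : ℝ) * K)) := mul_le_mul_of_nonneg_left h4 (norm_nonneg _)
            _ = (‖w t‖ * (B t).card) * (1 / (n + 1 : ℝ) * K) := by ring
            _ ≤ 1 * (1 / (n + 1 : ℝ) * K) := mul_le_mul_of_nonneg_right (hw t) (by positivity)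
            _ ≤ ε := by rw [one_mul]; exact h5)
        (f a) (hf a) ⟨C a, hC a⟩
      rw [Function.update_eq_self] at h1
      exact h1
  intro f hf hC
  exact key Finset.univ f hf hC (fun j hj => absurd (Finset.mem_univ j) hj)

/-- From bounded measurable to essentially bounded functions. -/
theorem conv_of_bdd [Countable I] (μ : Measure X) (L : Filter Θ) (w : Θ → 𝕜) (B : Θ → Finset I)
    (τ : J → I → X → X) (hτ : ∀ j i, Measure.QuasiMeasurePreserving (τ j i) μ μ)
    (h : ∀ f : J → X → 𝕜, (∀ j, Measurable (f j)) → (∀ j, ∃ C : ℝ, ∀ x, ‖f j x‖ ≤ C) →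
      ∀ᵐ x ∂μ, ∃ l, Tendsto (av w B τ f x) L (𝓝 l))
    (f : J → X → 𝕜) (hf : ∀ j, MemLp (f j) ⊤ μ) :
    ∀ᵐ x ∂μ, ∃ l, Tendsto (av w B τ f x) L (𝓝 l) := by
  classical
  have h1 : ∀ j, ∃ g : X → 𝕜, Measurable g ∧ (∃ C : ℝ, ∀ x, ‖g x‖ ≤ C) ∧ f j =ᵐ[μ] g := by
    intro j
    obtain ⟨g0, hg0, hg1⟩ := (hf j).1
    have h2 := (hf j).2
    rw [eLpNorm_exponent_top] at h2
    obtain ⟨M, hM⟩ : ∃ M : ℝ, M = (eLpNormEssSup (f j) μ).toReal := ⟨_, rfl⟩
    have h3 : ∀ᵐ x ∂μ, ‖f j x‖ ≤ M := by
      filter_upwards [enorm_ae_le_eLpNormEssSup (f j) μ] with x hx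
      have h3 := ENNReal.toReal_mono h2.ne hx
      rw [← hM] at h3
      simpa using h3
    refine ⟨fun x => if ‖g0 x‖ ≤ M then g0 x else 0, ?_, ⟨max M 0, ?_⟩, ?_⟩
    · exact Measurable.ite (measurableSet_le hg0.measurable.norm measurable_const) hg0.measurable measurable_const
    · intro x
      by_cases hx : ‖g0 x‖ ≤ M
      · simp only [if_pos hx]
        exact hx.trans (le_max_left _ _)
      · simp only [if_neg hx, norm_zero]
        exact le_max_right _ _
    · filter_upwards [hg1, h3] with x h4 h5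
      rw [← h4, if_pos h5]
  choose g hg1 hg2 hg3 using h1
  have h4 : ∀ᵐ x ∂μ, ∀ j i, f j (τ j i x) = g j (τ j i x) := by
    rw [ae_all_iff]
    intro j
    rw [ae_all_iff]
    intro i
    exact (hτ j i).ae (hg3 j)
  filter_upwards [h g hg1 hg2, h4] with x h5 h6
  obtain ⟨l, hl⟩ := h5
  refine ⟨l, hl.congr fun t => ?_⟩
  unfold av
  congr 1
  refine Finset.sum_congr rfl fun i _ => ?_
  exact Finset.prod_congr rfl fun j _ => (h6 j i).symm

end

end Pool.Agent.H87.NC.Ms
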