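import Pool.Agent.H87.NC.MsA
import Pool.Agent.H87.NC.MsB

/-! # Uniform metastability from almost everywhere convergence -/

set_option autoImplicit false

open MeasureTheory Filter Topology Set
open scoped ENNReal NNReal

namespace Pool.Agent.H87.NC.Ms

section

/-- Configurations. -/
abbrev Conf (Γ J 𝕜 : Type*) [RCLike 𝕜] := Γ → J → Metric.closedBall (0 : 𝕜) 1

/-- The shift action. -/
def sh {Γ J 𝕜 : Type*} [RCLike 𝕜] [Monoid Γ] (g : Γ) (ω : Conf Γ J 𝕜) : Conf Γ J 𝕜 := fun h j => ω (h * g) j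

lemma sh_one {Γ J 𝕜 : Type*} [RCLike 𝕜] [Monoid Γ] : (sh 1 : Conf Γ J 𝕜 → Conf Γ J 𝕜) = id := by
  funext ω h j
  simp [sh]

lemma sh_mul {Γ J 𝕜 : Type*} [RCLike 𝕜] [Monoid Γ] (g h : Γ) :
    (sh (g * h) : Conf Γ J 𝕜 → Conf Γ J 𝕜) = sh g ∘ sh h := by
  funext ω k j
  simp [sh, mul_assoc]

lemma sh_cont {Γ J 𝕜 : Type*} [RCLike 𝕜] [Monoid Γ] (g : Γ) : Continuous (sh g : Conf Γ J 𝕜 → Conf Γ J 𝕜) := by
  unfold sh
  fun_prop

variable {Γ I J Θ 𝕜 : Type*} [Monoid Γ] [Countable Γ] [Fintype J] [RCLike 𝕜]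

theorem meta_uniform (L : Filter Θ) (w : Θ → 𝕜) (B : Θ → Finset I) (γ : J → I → Γ)
    (W : ℕ → ℕ → Finset Θ) (c : ℕ → Θ)
    (hW : ∀ U ∈ L, ∀ᶠ N in atTop, c N ∈ U ∧ ∀ R, ∀ t ∈ W N R, t ∈ U)
    (H : ∀ ν : ProbabilityMeasure (Conf Γ J 𝕜), (∀ g, MeasurePreserving (sh g) (ν : Measure (Conf Γ J 𝕜)) ν) →
      ∀ᵐ ω ∂(ν : Measure (Conf Γ J 𝕜)), ∃ l,
        Tendsto (av w B (fun j i => sh (γ j i)) (fun j ω => ((ω 1 j : Metric.closedBall (0 : 𝕜) 1) : 𝕜)) ω) L (𝓝 l)) :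
    ∀ ε : ℝ, 0 < ε → ∀ Φ : ℕ → ℕ, ∃ K : ℕ, ∀ (X : Type) [MeasurableSpace X] (μ : Measure X)
      [IsProbabilityMeasure μ] (ρ : Γ → X → X), (∀ g h, ρ (g * h) = ρ g ∘ ρ h) →
      (∀ g, MeasurePreserving (ρ g) μ μ) → ∀ f : J → X → 𝕜, (∀ j, Measurable (f j)) → (∀ j x, ‖f j x‖ ≤ 1) →
      ∃ N, 1 ≤ N ∧ N ≤ K ∧ μ {x | ∃ t ∈ W N (Φ N), ε < dist (av w B (fun j i => ρ (γ j i)) f x t)
        (av w B (fun j i => ρ (γ j i)) f x (c N))} ≤ ENNReal.ofReal ε := by
  intro ε hε Φ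
  by_contra hcon
  push Not at hcon
  obtain ⟨A, hA⟩ : ∃ A : Conf Γ J 𝕜 → Θ → 𝕜, A = av w B (fun j i => sh (γ j i))
    (fun j ω => ((ω 1 j : Metric.closedBall (0 : 𝕜) 1) : 𝕜)) := ⟨_, rfl⟩
  have hAc : ∀ t, Continuous fun ω => A ω t := by
    intro t
    rw [hA]
    unfold av
    refine continuous_const.mul (continuous_finsetSum _ fun i _ => continuous_finsetProd _ fun j _ => ?_)
    unfold sh
    exact continuous_subtype_val.comp ((continuous_apply j).comp (continuous_apply _))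
  obtain ⟨E, hE⟩ : ∃ E : ℕ → Set (Conf Γ J 𝕜), E = fun N => {ω | ∃ t ∈ W N (Φ N), ε ≤ dist (A ω t) (A ω (c N))} :=
    ⟨_, rfl⟩
  have hEc : ∀ N, IsClosed (E N) := by
    intro N
    have h1 : E N = ⋃ t ∈ W N (Φ N), {ω | ε ≤ dist (A ω t) (A ω (c N))} := by
      rw [hE]
      ext ω
      simp
    rw [h1]
    exact isClosed_biUnion_finset fun t _ => isClosed_le continuous_const ((hAc t).dist (hAc (c N)))
  have h1 : ∀ K : ℕ, ∃ ν : ProbabilityMeasure (Conf Γ J 𝕜),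
      (∀ g, MeasurePreserving (sh g) (ν : Measure (Conf Γ J 𝕜)) ν) ∧
      ∀ N, 1 ≤ N → N ≤ K → ENNReal.ofReal ε ≤ (ν : Measure (Conf Γ J 𝕜)) (E N) := by
    intro K
    obtain ⟨X, mX, μ, hμ, ρ, hρ, hmp, f, hf, hb, hN⟩ := hcon K
    obtain ⟨φ, hφ⟩ : ∃ φ : X → Conf Γ J 𝕜, φ = fun x g j => ⟨f j (ρ g x), by simpa using hb j (ρ g x)⟩ := ⟨_, rfl⟩
    have hφm : Measurable φ := by
      rw [hφ]
      refine measurable_pi_iff.2 fun g => measurable_pi_iff.2 fun j => ?_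
      exact ((hf j).comp (hmp g).measurable).subtype_mk
    have hφs : ∀ g, sh g ∘ φ = φ ∘ ρ g := by
      intro g
      rw [hφ]
      funext x h j
      apply Subtype.ext
      simp only [sh, Function.comp_apply]
      rw [hρ h g]
      rfl
    have hprob : IsProbabilityMeasure (μ.map φ) := Measure.isProbabilityMeasure_map hφm.aemeasurable
    refine ⟨⟨μ.map φ, hprob⟩, ?_, ?_⟩
    · intro g
      refine ⟨(sh_cont g).measurable, ?_⟩
      change Measure.map (sh g) (μ.map φ) = μ.map φ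
      rw [Measure.map_map (sh_cont g).measurable hφm, hφs, ← Measure.map_map hφm (hmp g).measurable, (hmp g).map_eq]
    · intro N hN1 hN2
      change _ ≤ (μ.map φ) (E N)
      rw [Measure.map_apply hφm (hEc N).measurableSet]
      refine (hN N hN1 hN2).le.trans (measure_mono ?_)
      intro x hx
      obtain ⟨t, ht, h2⟩ := hx
      have h3 : ∀ t, A (φ x) t = av w B (fun j i => ρ (γ j i)) f x t := by
        intro t
        rw [hA, hφ]
        unfold av sh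
        simp only [one_mul]
      rw [mem_preimage, hE]
      refine ⟨t, ht, ?_⟩
      rw [h3, h3]
      exact h2.le
  choose μ hμ1 hμ2 using h1
  obtain ⟨ν, hν1, hν2⟩ := cluster (fun g : Γ => sh g) sh_cont E hEc (ENNReal.ofReal ε) μ hμ1 hμ2
  have h2 := H ν hν1
  have h3 : Tendsto (fun N => (ν : Measure (Conf Γ J 𝕜)) (E N)) atTop (𝓝 0) := by
    apply tendsto_zero
    · exact fun N => (hEc N).measurableSet
    · filter_upwards [h2] with ω hω
      obtain ⟨l, hl⟩ := hω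
      have h4 := hW _ (hl (Metric.ball_mem_nhds l (by linarith : 0 < ε / 2)))
      filter_upwards [h4] with N hN hmem
      rw [hE] at hmem
      obtain ⟨t, ht, h5⟩ := hmem
      have h6 : dist (A ω (c N)) l < ε / 2 := by
        rw [hA]
        exact hN.1
      have h7 : dist (A ω t) l < ε / 2 := by
        rw [hA]
        exact hN.2 _ t ht
      have h8 := dist_triangle_right (A ω t) (A ω (c N)) l
      linarith
  have h4 := h3.eventually_lt_const (ENNReal.ofReal_pos.2 hε)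
  obtain ⟨N, hN, hN1⟩ := (h4.and (eventually_ge_atTop 1)).exists
  exact absurd hN (not_lt.2 (hν2 N hN1))

end

end Pool.Agent.H87.NC.Ms
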