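import Pool.Agent.H87.NC.Wk
import Pool.Agent.H87.NC.MsC

/-! # Averages, dual functions and tests for metastability -/

set_option autoImplicit false
set_option linter.unusedSectionVars false

open MeasureTheory Filter Topology Set
open scoped ENNReal NNReal ComplexConjugate

namespace Pool.Agent.H87.NC

/-- A measure preserving action. -/
structure IsAct {Γ X : Type} [Group Γ] [MeasurableSpace X] (μ : Measure X) (ρ : Γ → X → X) : Prop where
  one : ρ 1 = id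
  mul : ∀ g h, ρ (g * h) = ρ g ∘ ρ h
  mp : ∀ g, MeasurePreserving (ρ g) μ μ

/-- the interval -/
noncomputable abbrev iv (N : ℕ) : Finset ℤ := Finset.Icc (-(N : ℤ)) (N : ℤ)

/-- the weight -/
noncomputable def cc (N : ℕ) : ℂ := ((2 * N + 1 : ℕ) : ℂ)⁻¹

theorem card_iv (N : ℕ) : (iv N).card = 2 * N + 1 := by
  rw [Int.card_Icc]
  omega

theorem cc_norm (N : ℕ) : ‖cc N‖ = ((2 * N + 1 : ℕ) : ℝ)⁻¹ := by
  unfold cc
  rw [norm_inv, Complex.norm_natCast]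

theorem cc_card (N : ℕ) : ‖cc N‖ * (iv N).card = 1 := by
  rw [cc_norm, card_iv]
  apply inv_mul_cancel₀
  positivity

theorem cc_sum (N : ℕ) {q : ℤ → ℂ} {C : ℝ} (hq : ∀ k ∈ iv N, ‖q k‖ ≤ C) :
    ‖cc N * ∑ k ∈ iv N, q k‖ ≤ C := by
  rw [norm_mul]
  have h1 := (norm_sum_le (iv N) q).trans (Finset.sum_le_card_nsmul _ _ C hq)
  rw [nsmul_eq_mul] at h1
  calc ‖cc N‖ * ‖∑ k ∈ iv N, q k‖ ≤ ‖cc N‖ * ((iv N).card * C) :=
        mul_le_mul_of_nonneg_left h1 (norm_nonneg _)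
    _ = C := by rw [← mul_assoc, cc_card, one_mul]

section

variable {X Γ J : Type} [Group Γ] [Fintype J]

/-- the product of the functions without the distinguished one -/
noncomputable def pr (ρ : Γ → X → X) (v : J → ℤ → Γ) (f : J → X → ℂ) (n : ℤ) (x : X) : ℂ :=
  ∏ j, f j (ρ (v j n) x)

/-- the averages -/
noncomputable def am (ρ : Γ → X → X) (a : ℤ → Γ) (v : J → ℤ → Γ) (f : J → X → ℂ) (g : X → ℂ)
    (N : ℕ) (x : X) : ℂ :=
  cc N * ∑ n ∈ iv N, g (ρ (a n) x) * pr ρ v f n x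

/-- the terms of the dual functions -/
noncomputable def ds (ρ : Γ → X → X) (a : ℤ → Γ) (v : J → ℤ → Γ) (h : X → ℂ) (f : J → X → ℂ)
    (k : ℤ) (y : X) : ℂ :=
  h (ρ (a k)⁻¹ y) * pr ρ v f k (ρ (a k)⁻¹ y)

/-- the dual functions -/
noncomputable def dl (ρ : Γ → X → X) (a : ℤ → Γ) (v : J → ℤ → Γ) (h : X → ℂ) (f : J → X → ℂ)
    (M : ℕ) (y : X) : ℂ :=
  cc M * ∑ k ∈ iv M, ds ρ a v h f k y

variable {ρ : Γ → X → X} {a : ℤ → Γ} {v : J → ℤ → Γ} {f : J → X → ℂ}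

theorem am_add (g h : X → ℂ) (N : ℕ) (x : X) :
    am ρ a v f (fun y => g y + h y) N x = am ρ a v f g N x + am ρ a v f h N x := by
  unfold am
  rw [← mul_add, ← Finset.sum_add_distrib]
  congr 1
  exact Finset.sum_congr rfl fun n _ => add_mul _ _ _

theorem am_sub (g h : X → ℂ) (N : ℕ) (x : X) :
    am ρ a v f (fun y => g y - h y) N x = am ρ a v f g N x - am ρ a v f h N x := by
  unfold am
  rw [← mul_sub, ← Finset.sum_sub_distrib]
  congr 1
  exact Finset.sum_congr rfl fun n _ => sub_mul _ _ _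

theorem am_smul (c : ℂ) (g : X → ℂ) (N : ℕ) (x : X) :
    am ρ a v f (fun y => c * g y) N x = c * am ρ a v f g N x := by
  unfold am
  rw [mul_left_comm c]
  congr 1
  rw [Finset.mul_sum]
  exact Finset.sum_congr rfl fun n _ => mul_assoc c (g (ρ (a n) x)) (pr ρ v f n x)

variable [MeasurableSpace X] {μ : Measure X}

theorem IsAct.meas (hρ : IsAct μ ρ) (g : Γ) : Measurable (ρ g) := (hρ.mp g).measurable

theorem IsAct.inv_apply (hρ : IsAct μ ρ) (g : Γ) (x : X) : ρ g⁻¹ (ρ g x) = x := by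
  have h1 := congrFun (hρ.mul g⁻¹ g) x
  rw [inv_mul_cancel, hρ.one] at h1
  exact h1.symm

theorem IsAct.apply_inv (hρ : IsAct μ ρ) (g : Γ) (x : X) : ρ g (ρ g⁻¹ x) = x := by
  have h1 := congrFun (hρ.mul g g⁻¹) x
  rw [mul_inv_cancel, hρ.one] at h1
  exact h1.symm

theorem IsAct.int_comp (hρ : IsAct μ ρ) (g : Γ) {F : X → ℂ} (hF : Measurable F) :
    ∫ x, F (ρ g x) ∂μ = ∫ x, F x ∂μ := by
  have h1 := integral_map (μ := μ) (hρ.meas g).aemeasurable (f := F) hF.aestronglyMeasurable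
  rw [(hρ.mp g).map_eq] at h1
  exact h1.symm

theorem pr_B1 (hρ : IsAct μ ρ) (hf : ∀ j, B1 (f j)) (n : ℤ) : B1 (pr ρ v f n) := by
  unfold pr
  exact B1.prod _ fun j _ => (hf j).comp (hρ.meas _)

theorem ds_B1 (hρ : IsAct μ ρ) (hf : ∀ j, B1 (f j)) {h : X → ℂ} (hh : B1 h) (k : ℤ) :
    B1 (ds ρ a v h f k) := by
  unfold ds
  exact (hh.comp (hρ.meas _)).mul ((pr_B1 hρ hf k).comp (hρ.meas _))

theorem cc_B1 {q : ℤ → X → ℂ} (N : ℕ) (hq : ∀ k, B1 (q k)) : B1 (fun x => cc N * ∑ k ∈ iv N, q k x) :=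
  ⟨(Finset.measurable_sum _ fun k _ => (hq k).1).const_mul _, fun x => cc_sum N fun k _ => (hq k).2 x⟩

theorem dl_B1 (hρ : IsAct μ ρ) (hf : ∀ j, B1 (f j)) {h : X → ℂ} (hh : B1 h) (M : ℕ) :
    B1 (dl ρ a v h f M) := cc_B1 M fun k => ds_B1 hρ hf hh k

theorem am_B1 (hρ : IsAct μ ρ) (hf : ∀ j, B1 (f j)) {g : X → ℂ} (hg : B1 g) (N : ℕ) :
    B1 (am ρ a v f g N) := cc_B1 N fun k => (hg.comp (hρ.meas _)).mul (pr_B1 hρ hf k)

theorem ds_Bm (hρ : IsAct μ ρ) (hf : ∀ j, B1 (f j)) {h : X → ℂ} (hh : Bm h) (k : ℤ) :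
    Bm (ds ρ a v h f k) := by
  unfold ds
  exact (hh.comp (hρ.meas _)).mul ((pr_B1 hρ hf k).comp (hρ.meas _)).bm

theorem dl_Bm (hρ : IsAct μ ρ) (hf : ∀ j, B1 (f j)) {h : X → ℂ} (hh : Bm h) (M : ℕ) :
    Bm (dl ρ a v h f M) := (Bm.sum _ fun k _ => ds_Bm hρ hf hh k).cmul _

theorem am_Bm (hρ : IsAct μ ρ) (hf : ∀ j, B1 (f j)) {g : X → ℂ} (hg : Bm g) (N : ℕ) :
    Bm (am ρ a v f g N) :=
  (Bm.sum _ fun k _ => (hg.comp (hρ.meas _)).mul (pr_B1 hρ hf k).bm).cmul _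

/-- The duality. -/
theorem pair [IsProbabilityMeasure μ] (hρ : IsAct μ ρ) (hf : ∀ j, B1 (f j)) {g h : X → ℂ}
    (hg : Bm g) (hh : Bm h) (N : ℕ) :
    ∫ x, h x * am ρ a v f g N x ∂μ = ∫ y, g y * dl ρ a v h f N y ∂μ := by
  have e1 : ∀ x, h x * am ρ a v f g N x = ∑ n ∈ iv N, cc N * (h x * (g (ρ (a n) x) * pr ρ v f n x)) := by
    intro x
    unfold am
    rw [mul_left_comm, Finset.mul_sum, Finset.mul_sum]
  have e2 : ∀ y, g y * dl ρ a v h f N y = ∑ n ∈ iv N, cc N * (g y * ds ρ a v h f n y) := by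
    intro y
    unfold dl
    rw [mul_left_comm, Finset.mul_sum, Finset.mul_sum]
  simp only [e1, e2]
  rw [integral_finsetSum, integral_finsetSum]
  · refine Finset.sum_congr rfl fun n _ => ?_
    rw [integral_const_mul, integral_const_mul]
    congr 1
    rw [← hρ.int_comp (a n) (F := fun y => g y * ds ρ a v h f n y)
      (hg.mul (ds_Bm hρ hf hh n)).1]
    congr 1
    funext x
    unfold ds
    rw [hρ.inv_apply]
    ring
  · exact fun n _ => ((hg.mul (ds_Bm hρ hf hh n)).cmul _).int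
  · exact fun n _ => ((hh.mul ((hg.comp (hρ.meas _)).mul (pr_B1 hρ hf n).bm)).cmul _).int

/-- the test for metastability -/
def Tst (μ : Measure X) (ρ : Γ → X → X) (a : ℤ → Γ) (v : J → ℤ → Γ) (f : J → X → ℂ) (N L : ℕ)
    (η : ℝ) (g : X → ℂ) : Prop :=
  ∀ σ : ℕ → X → ℂ, (∀ n, Measurable (σ n)) → (∀ x, ∑ n ∈ Finset.Icc N L, ‖σ n x‖ ≤ 1) →
    ‖∫ x, ∑ n ∈ Finset.Icc N L, σ n x * (am ρ a v f g n x - am ρ a v f g N x) ∂μ‖ ≤ η

theorem sel_B1 {N L : ℕ} {σ : ℕ → X → ℂ} (h1 : ∀ n, Measurable (σ n))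
    (h2 : ∀ x, ∑ n ∈ Finset.Icc N L, ‖σ n x‖ ≤ 1) (n : ℕ) (hn : n ∈ Finset.Icc N L) : B1 (σ n) :=
  ⟨h1 n, fun x => (Finset.single_le_sum (f := fun n => ‖σ n x‖) (fun _ _ => norm_nonneg _) hn).trans
    (h2 x)⟩

/-- the test as a pairing -/
theorem tst_pair [IsProbabilityMeasure μ] (hρ : IsAct μ ρ) (hf : ∀ j, B1 (f j)) (N L : ℕ)
    {σ : ℕ → X → ℂ} (h1 : ∀ n, Measurable (σ n))
    (h2 : ∀ x, ∑ n ∈ Finset.Icc N L, ‖σ n x‖ ≤ 1) : ∃ Ψ : X → ℂ, Bm Ψ ∧ ∀ g : X → ℂ, Bm g →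
      ∫ x, ∑ n ∈ Finset.Icc N L, σ n x * (am ρ a v f g n x - am ρ a v f g N x) ∂μ =
        ∫ y, g y * Ψ y ∂μ := by
  have hσ : ∀ n ∈ Finset.Icc N L, Bm (σ n) := fun n hn => (sel_B1 h1 h2 n hn).bm
  refine ⟨fun y => ∑ n ∈ Finset.Icc N L, (dl ρ a v (σ n) f n y - dl ρ a v (σ n) f N y),
    Bm.sum _ fun n hn => (dl_Bm hρ hf (hσ n hn) n).sub (dl_Bm hρ hf (hσ n hn) N), ?_⟩
  intro g hg
  simp only [Finset.mul_sum, mul_sub]
  rw [integral_finsetSum, integral_finsetSum]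
  · refine Finset.sum_congr rfl fun n hn => ?_
    rw [integral_sub, integral_sub, pair hρ hf hg (hσ n hn), pair hρ hf hg (hσ n hn)]
    · exact (hg.mul (dl_Bm hρ hf (hσ n hn) n)).int
    · exact (hg.mul (dl_Bm hρ hf (hσ n hn) N)).int
    · exact ((hσ n hn).mul (am_Bm hρ hf hg n)).int
    · exact ((hσ n hn).mul (am_Bm hρ hf hg N)).int
  · exact fun n hn => ((hg.mul (dl_Bm hρ hf (hσ n hn) n)).sub (hg.mul (dl_Bm hρ hf (hσ n hn) N))).int
  · exact fun n hn => (((hσ n hn).mul (am_Bm hρ hf hg n)).sub ((hσ n hn).mul (am_Bm hρ hf hg N))).int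

/-- The tests are closed under weak limits. -/
theorem tst_lim [IsProbabilityMeasure μ] (hρ : IsAct μ ρ) (hf : ∀ j, B1 (f j)) (K : ℕ) (Φ : ℕ → ℕ)
    (η : ℝ) (U : Ultrafilter ℕ) {G : ℕ → X → ℂ} {g : X → ℂ} (hG : ∀ M, Bm (G M)) (hg : Bm g)
    (hw : Wk μ (U : Filter ℕ) G g)
    (h : ∀ᶠ M in (U : Filter ℕ), ∃ N, (1 ≤ N ∧ N ≤ K) ∧ Tst μ ρ a v f N (Φ N) η (G M)) :
    ∃ N, (1 ≤ N ∧ N ≤ K) ∧ Tst μ ρ a v f N (Φ N) η g := by
  have h1 : (⋃ N ∈ {N : ℕ | 1 ≤ N ∧ N ≤ K}, {M | Tst μ ρ a v f N (Φ N) η (G M)}) ∈ (U : Filter ℕ) := by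
    filter_upwards [h] with M hM
    simpa using hM
  have hfin : {N : ℕ | 1 ≤ N ∧ N ≤ K}.Finite := by
    refine (Set.finite_Icc 1 K).subset ?_
    intro N hN
    exact hN
  rw [Ultrafilter.mem_coe, Ultrafilter.finite_biUnion_mem_iff hfin] at h1
  obtain ⟨N, hN, hM⟩ := h1
  refine ⟨N, hN, ?_⟩
  intro σ h2 h3
  obtain ⟨Ψ, hΨ, hpair⟩ := tst_pair (μ := μ) (a := a) (v := v) hρ hf N (Φ N) h2 h3
  rw [hpair g hg]
  refine le_of_tendsto (hw Ψ hΨ).norm ?_
  filter_upwards [hM] with M hM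
  rw [← hpair _ (hG M)]
  exact hM σ h2 h3

/-- Products of weak limits. -/
theorem tst_prod [IsProbabilityMeasure μ] (hρ : IsAct μ ρ) (hf : ∀ j, B1 (f j)) (K : ℕ) (Φ : ℕ → ℕ)
    (η : ℝ) (r M0 : ℕ) (U : Fin r → Ultrafilter ℕ) (hU : ∀ l, (U l : Filter ℕ) ≤ atTop)
    (d : Fin r → ℕ → X → ℂ) (D : Fin r → X → ℂ)
    (hd : ∀ l M, Bm (d l M)) (hD : ∀ l, Bm (D l)) (hw : ∀ l, Wk μ (U l : Filter ℕ) (d l) (D l))
    (h : ∀ M : Fin r → ℕ, (∀ l, M0 ≤ M l) →
      ∃ N, (1 ≤ N ∧ N ≤ K) ∧ Tst μ ρ a v f N (Φ N) η (fun x => ∏ l, d l (M l) x)) :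
    ∃ N, (1 ≤ N ∧ N ≤ K) ∧ Tst μ ρ a v f N (Φ N) η (fun x => ∏ l, D l x) := by
  classical
  have key : ∀ s : Finset (Fin r), ∀ M : Fin r → ℕ, (∀ l, M0 ≤ M l) →
      ∃ N, (1 ≤ N ∧ N ≤ K) ∧ Tst μ ρ a v f N (Φ N) η
        (fun x => ∏ l, if l ∈ s then D l x else d l (M l) x) := by
    intro s
    induction s using Finset.induction_on with
    | empty =>
      intro M hM
      simpa using h M hM
    | insert i s hi ih =>
      intro M hM
      obtain ⟨q, hq⟩ : ∃ q : X → ℂ, q = fun x => ∏ l ∈ Finset.univ.erase i,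
        if l ∈ s then D l x else d l (M l) x := ⟨_, rfl⟩
      have hqB : Bm q := by
        rw [hq]
        refine Bm.prod _ fun l _ => ?_
        by_cases hl : l ∈ s
        · simp only [if_pos hl]
          exact hD l
        · simp only [if_neg hl]
          exact hd l _
      have e1 : (fun x => ∏ l, if l ∈ insert i s then D l x else d l (M l) x) =
          fun x => D i x * q x := by
        funext x
        rw [← Finset.mul_prod_erase Finset.univ _ (Finset.mem_univ i), if_pos (Finset.mem_insert_self _ _),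
          hq]
        congr 1
        refine Finset.prod_congr rfl fun l hl => ?_
        have hne := Finset.ne_of_mem_erase hl
        simp [Finset.mem_insert, hne]
      have e2 : ∀ k, (fun x => ∏ l, if l ∈ s then D l x else d l (Function.update M i k l) x) =
          fun x => d i k x * q x := by
        intro k
        funext x
        rw [← Finset.mul_prod_erase Finset.univ _ (Finset.mem_univ i), if_neg hi, hq,
          Function.update_self]
        congr 1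
        refine Finset.prod_congr rfl fun l hl => ?_
        have hne := Finset.ne_of_mem_erase hl
        rw [Function.update_of_ne hne]
      rw [e1]
      refine tst_lim hρ hf K Φ η (U i) (G := fun k x => d i k x * q x)
        (fun k => (hd i k).mul hqB) ((hD i).mul hqB) ((hw i).mul hqB) ?_
      filter_upwards [hU i (eventually_ge_atTop M0)] with k hk
      rw [← e2]
      apply ih
      intro l
      by_cases hl : l = i
      · subst hl
        rw [Function.update_self]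
        exact hk
      · rw [Function.update_of_ne hl]
        exact hM l
  have h1 := key Finset.univ (fun _ => M0) (fun _ => le_rfl)
  simpa using h1

end

end Pool.Agent.H87.NC
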