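import Mathlib

/-! # Multiple ergodic averages: definitions -/

set_option autoImplicit false

open MeasureTheory Filter Topology
open scoped ENNReal

namespace Pool.Agent.H87.NC

/-- The average over `|n| ≤ N` of `∏ f_j (g_j(n) x)`. -/
noncomputable def avg {X : Type} {m : ℕ} (f : Fin m → X → ℂ) (g : Fin m → ℤ → Equiv.Perm X) (N : ℕ)
    (x : X) : ℂ :=
  ((2 * N + 1 : ℕ) : ℂ)⁻¹ * ∑ n ∈ Finset.Icc (-(N : ℤ)) (N : ℤ), ∏ j : Fin m, f j (g j n x)

/-- The averages of all tuples of `L^∞` functions converge almost everywhere. -/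
def Conv {X : Type} [MeasurableSpace X] (μ : Measure X) {m : ℕ} (g : Fin m → ℤ → Equiv.Perm X) :
    Prop :=
  ∀ f : Fin m → X → ℂ, (∀ j, MemLp (f j) ∞ μ) →
    ∀ᵐ x ∂μ, ∃ L : ℂ, Tendsto (fun N : ℕ => avg f g N x) atTop (𝓝 L)

/-- The null case: if there is an index `j` such that the averages tend to zero in `L^2` for the given
`f_j` and for all the choices of the other functions, then they tend to zero almost everywhere for the
given functions. -/
def NullConv {X : Type} [MeasurableSpace X] (μ : Measure X) {m : ℕ} (g : Fin m → ℤ → Equiv.Perm X) :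
    Prop :=
  ∀ (f : Fin m → X → ℂ) (j : Fin m), (∀ i, MemLp (f i) ∞ μ) →
    (∀ f' : Fin m → X → ℂ, (∀ i, MemLp (f' i) ∞ μ) → f' j = f j →
      Tendsto (fun N : ℕ => ∫ x, ‖avg f' g N x‖ ^ 2 ∂μ) atTop (𝓝 0)) →
    ∀ᵐ x ∂μ, Tendsto (fun N : ℕ => avg f g N x) atTop (𝓝 0)

/-- The null case for the tuples which consist of null functions: if for every index `j` the averages
tend to zero in `L^2` for the given `f_j` and for all the choices of the other functions, then they tend
to zero almost everywhere for the given functions. -/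
def NullAllConv {X : Type} [MeasurableSpace X] (μ : Measure X) {m : ℕ}
    (g : Fin m → ℤ → Equiv.Perm X) : Prop :=
  ∀ f : Fin m → X → ℂ, (∀ i, MemLp (f i) ∞ μ) →
    (∀ (j : Fin m) (f' : Fin m → X → ℂ), (∀ i, MemLp (f' i) ∞ μ) → f' j = f j →
      Tendsto (fun N : ℕ => ∫ x, ‖avg f' g N x‖ ^ 2 ∂μ) atTop (𝓝 0)) →
    ∀ᵐ x ∂μ, Tendsto (fun N : ℕ => avg f g N x) atTop (𝓝 0)

/-- The maps `T_i` are invertible and preserve the measure. -/
structure Preserving {X : Type} [MeasurableSpace X] (μ : Measure X) {d : ℕ}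
    (T : Fin d → Equiv.Perm X) : Prop where
  inverse : ∀ i, Measurable ⇑(T i).symm
  preserving : ∀ i, MeasurePreserving (⇑(T i)) μ μ

/-- `g_j(n) = T_1^(P_1j(n)) ⋯ T_d^(P_dj(n))`. -/
def word {X : Type} {d m : ℕ} (T : Fin d → Equiv.Perm X) (P : Fin d → Fin m → Polynomial ℤ)
    (j : Fin m) (n : ℤ) : Equiv.Perm X :=
  (List.ofFn fun i : Fin d => T i ^ (P i j).eval n).prod

/-- A property of the sequences of maps `g_1, …, g_m`. -/
abbrev Property : Type 1 :=
  ∀ (X : Type) [MeasurableSpace X] (_ : Measure X) (m : ℕ) (_ : Fin m → ℤ → Equiv.Perm X), Prop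

/-- convergence almost everywhere -/
def Converges : Property := fun _ _ μ _ g => Conv μ g

/-- the null case -/
def NullConverges : Property := fun _ _ μ _ g => NullConv μ g

/-- the null case for the tuples of null functions -/
def NullAllConverges : Property := fun _ _ μ _ g => NullAllConv μ g

/-- Nilpotent polynomial averages of `m` functions. -/
def Nilpotent (K : Property) (m : ℕ) : Prop :=
  ∀ (X : Type) [MeasurableSpace X] (μ : Measure X) [IsProbabilityMeasure μ] (d : ℕ)
    (T : Fin d → Equiv.Perm X), Preserving μ T → Group.IsNilpotent (Subgroup.closure (Set.range T)) →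
    ∀ P : Fin d → Fin m → Polynomial ℤ, (∀ i j, (P i j).eval 0 = 0) → K X μ m (word T P)

/-- `g_j(n) = T_j^n T_0^(-n)`, for `1 ≤ j ≤ m` (here `j` is counted from `0`). -/
def two {X : Type} {m : ℕ} (T : Fin (m + 1) → Equiv.Perm X) (j : Fin m) (n : ℤ) : Equiv.Perm X :=
  T j.succ ^ n * T 0 ^ (-n)

/-- Averages of `m` functions along `g_j(n) = T_j^n T_0^(-n)`, where `T_0, …, T_m` generate a nilpotent
group. -/
def TwoTerm (K : Property) (m : ℕ) : Prop :=
  ∀ (X : Type) [MeasurableSpace X] (μ : Measure X) [IsProbabilityMeasure μ]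
    (T : Fin (m + 1) → Equiv.Perm X), Preserving μ T →
    Group.IsNilpotent (Subgroup.closure (Set.range T)) →
    K X μ m (two T)

/-- Polynomial averages of `m` functions for commuting maps. -/
def Commuting (K : Property) (m : ℕ) : Prop :=
  ∀ (X : Type) [MeasurableSpace X] (μ : Measure X) [IsProbabilityMeasure μ] (d : ℕ)
    (T : Fin d → Equiv.Perm X), Preserving μ T → (∀ i k, Commute (T i) (T k)) →
    ∀ P : Fin d → Fin m → Polynomial ℤ, (∀ i j, (P i j).eval 0 = 0) → K X μ m (word T P)

/-- Averages of `f_1(T_1^n x) ⋯ f_m(T_m^n x)` for maps `T_1, …, T_m` which generate a nilpotent group. -/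
def NilpotentLinear (K : Property) (m : ℕ) : Prop :=
  ∀ (X : Type) [MeasurableSpace X] (μ : Measure X) [IsProbabilityMeasure μ]
    (T : Fin m → Equiv.Perm X), Preserving μ T → Group.IsNilpotent (Subgroup.closure (Set.range T)) →
    K X μ m (fun j n => T j ^ n)

/-- Averages of `f_1(T_1^n x) ⋯ f_m(T_m^n x)` for commuting maps `T_1, …, T_m`. -/
def CommutingLinear (K : Property) (m : ℕ) : Prop :=
  ∀ (X : Type) [MeasurableSpace X] (μ : Measure X) [IsProbabilityMeasure μ]
    (T : Fin m → Equiv.Perm X), Preserving μ T → (∀ i k, Commute (T i) (T k)) →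
    K X μ m (fun j n => T j ^ n)

end Pool.Agent.H87.NC
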