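import Pool.Agent.H87.NC.Glue

/-! # The extension -/

set_option autoImplicit false
set_option linter.unusedSectionVars false

open MeasureTheory Filter Topology Set
open scoped ENNReal NNReal ComplexConjugate commutatorElement

namespace Pool.Agent.H87.NC

section

variable {X : Type} {m : ℕ}

/-- the shift and the sequences -/
def gens (g : Fin m → ℤ → Equiv.Perm X) (o : Option (Fin m)) : Equiv.Perm (ℤ → X) :=
  o.elim (LL.Th 1 1) (fun j => LL.Th (g j) 0)

/-- the group of the extension -/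
abbrev GE (g : Fin m → ℤ → Equiv.Perm X) : Type := (FreeGroup.lift (gens g)).range

instance ge_countable (g : Fin m → ℤ → Equiv.Perm X) : Countable (GE g) := by
  have h1 : (Set.range (FreeGroup.lift (gens g))).Countable := Set.countable_range _
  exact h1.to_subtype

/-- the shift -/
def gS (g : Fin m → ℤ → Equiv.Perm X) : GE g := ⟨LL.Th 1 1, ⟨FreeGroup.of none, by
  rw [FreeGroup.lift_apply_of]
  rfl⟩⟩

/-- the sequences -/
def gV (g : Fin m → ℤ → Equiv.Perm X) (j : Fin m) : GE g := ⟨LL.Th (g j) 0, ⟨FreeGroup.of (some j), by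
  rw [FreeGroup.lift_apply_of]
  rfl⟩⟩

theorem ge_le (g : Fin m → ℤ → Equiv.Perm X) {H : Subgroup (Equiv.Perm (ℤ → X))}
    (h0 : LL.Th 1 1 ∈ H) (h1 : ∀ j, LL.Th (g j) 0 ∈ H) : (FreeGroup.lift (gens g)).range ≤ H := by
  rw [FreeGroup.range_lift_eq_closure, Subgroup.closure_le]
  rintro _ ⟨o, rfl⟩
  cases o with
  | none => exact h0
  | some j => exact h1 j

theorem ge_nil (g : Fin m → ℤ → Equiv.Perm X) {H : Subgroup (Equiv.Perm (ℤ → X))} {c : ℕ}
    (h : (FreeGroup.lift (gens g)).range ≤ H) (hH : H.lowerCentralSeries c = ⊥) : NilC c (GE g) := by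
  unfold NilC
  have h1 := Subgroup.top_subtype_lowerCentralSeries (FreeGroup.lift (gens g)).range c
  have h2 : (FreeGroup.lift (gens g)).range.lowerCentralSeries c = ⊥ := by
    rw [eq_bot_iff, ← hH]
    exact Subgroup.lowerCentralSeries_mono c h
  rw [h2] at h1
  exact (Subgroup.map_eq_bot_iff_of_injective _ (Subgroup.subtype_injective _)).1 h1

theorem Th_zpow (n : ℤ) : (LL.Th (1 : ℤ → Equiv.Perm X) 1) ^ n = LL.Th 1 n := by
  have h1 : ∀ l k : ℤ, LL.Th (1 : ℤ → Equiv.Perm X) l * LL.Th 1 k = LL.Th 1 (l + k) := by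
    intro l k
    rw [LL.Th_mul]
    congr 1
  induction n using Int.induction_on with
  | zero => rw [zpow_zero, LL.Th_one]
  | succ n ih => rw [zpow_add_one, ih, h1]
  | pred n ih =>
    rw [zpow_sub_one, ih, mul_inv_eq_iff_eq_mul, h1]
    congr 1
    ring

theorem ext_cj (g : Fin m → ℤ → Equiv.Perm X) (j : Fin m) (n : ℤ) :
    ((cj (gS g) (gV g j) n : GE g) : Equiv.Perm (ℤ → X)) = LL.Th (LL.sh n (g j)) 0 := by
  have e : ((cj (gS g) (gV g j) n : GE g) : Equiv.Perm (ℤ → X)) =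
      (LL.Th 1 1) ^ n * LL.Th (g j) 0 * ((LL.Th 1 1) ^ n)⁻¹ := rfl
  rw [e, Th_zpow, LL.Th_mul, add_zero, LL.Th_div]
  congr 1

variable [MeasurableSpace X] {μ : Measure X} [IsProbabilityMeasure μ]

theorem ge_act (g : Fin m → ℤ → Equiv.Perm X) (hg : ∀ j n, g j n ∈ LL.MP μ) :
    IsAct (Measure.infinitePi (fun _ : ℤ => μ))
      (fun (γ : GE g) (y : ℤ → X) => (γ : Equiv.Perm (ℤ → X)) y) where
  one := by
    funext y
    simp
  mul a b := by
    funext y
    simp
  mp γ := by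
    have h1 := ge_le g (H := LL.MP (Measure.infinitePi (fun _ : ℤ => μ)))
      (LL.Th_mp μ (fun _ => one_mem _) 1) (fun j => LL.Th_mp μ (fun n => hg j n) 0) γ.2
    exact h1.2

/-- Convergence for the extension gives convergence. -/
theorem conv_ext (g : Fin m → ℤ → Equiv.Perm X) (hg : ∀ j n, g j n ∈ LL.MP μ)
    (hcv : Cv (fun j => cj (gS g) (gV g j))) : Conv μ g := by
  apply conv_of_b1 (fun j n => (hg j n).2)
  intro f hf
  have hev : MeasurePreserving (Function.eval (0 : ℤ)) (Measure.infinitePi (fun _ : ℤ => μ)) μ :=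
    measurePreserving_eval_infinitePi (fun _ : ℤ => μ) 0
  have h1 := hcv (ℤ → X) (Measure.infinitePi (fun _ : ℤ => μ)) _ (ge_act g hg)
    (fun j y => f j (y 0)) (fun j => (hf j).comp hev.measurable)
  have e : ∀ (N : ℕ) (y : ℤ → X), av0 (fun (γ : GE g) (y : ℤ → X) => (γ : Equiv.Perm (ℤ → X)) y)
      (fun j => cj (gS g) (gV g j)) (fun j y => f j (y 0)) N y = avg f g N (y 0) := by
    intro N y
    unfold av0 avg pr
    congr 1
    refine Finset.sum_congr rfl fun n _ => Finset.prod_congr rfl fun j _ => ?_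
    beta_reduce
    rw [ext_cj, LL.Th_apply]
    simp [LL.sh]
  simp only [e] at h1
  have hmeas : MeasurableSet {x : X | ∃ L : ℂ, Tendsto (fun N : ℕ => avg f g N x) atTop (𝓝 L)} :=
    measurableSet_exists_tendsto fun N => (avg_b1 (fun j n => (hg j n).2) hf N).1
  have h2 := ae_map_iff (μ := Measure.infinitePi (fun _ : ℤ => μ)) hev.measurable.aemeasurable hmeas
  rw [hev.map_eq] at h2
  exact h2.2 h1

/-- The extension of words is nilpotent. -/
theorem word_nil {d c D : ℕ} (hc : 1 ≤ c) (T : Fin d → Equiv.Perm X)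
    (hT : (Subgroup.closure (Set.range T)).lowerCentralSeries c = ⊥)
    (P : Fin d → Fin m → Polynomial ℤ) (hPD : ∀ i j, (P i j).natDegree ≤ D) :
    NilC (c * (D + 1)) (GE (word T P)) := by
  have he : 1 ≤ D + 1 := by omega
  refine ge_nil _ (H := LL.L0 (Subgroup.closure (Set.range T)) (D + 1) he) (ge_le _ ?_ ?_)
    (LL.lcs_bot he hc hT)
  · exact ⟨1, 1, one_mem _, rfl⟩
  · intro j
    have hTS : ∀ i, T i ∈ Subgroup.closure (Set.range T) := fun i => Subgroup.subset_closure ⟨i, rfl⟩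
    refine ⟨0, _, ?_, rfl⟩
    exact LL.word_PolG he hTS (P := fun i => P i j)
      fun i => by
        have := hPD i j
        omega

theorem word_mem {d : ℕ} {T : Fin d → Equiv.Perm X} {H : Subgroup (Equiv.Perm X)}
    (hT : ∀ i, T i ∈ H) (P : Fin d → Fin m → Polynomial ℤ) (j : Fin m) (n : ℤ) :
    word T P j n ∈ H := by
  unfold word
  apply list_prod_mem
  intro x hx
  rw [List.mem_ofFn] at hx
  obtain ⟨i, rfl⟩ := hx
  exact H.zpow_mem (hT i) _

theorem deg_bound {d : ℕ} (P : Fin d → Fin m → Polynomial ℤ) :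
    ∃ D, ∀ (i : Fin d) (j : Fin m), (P i j).natDegree ≤ D :=
  ⟨∑ i' : Fin d, ∑ j' : Fin m, (P i' j').natDegree, fun i j =>
    (Finset.single_le_sum (f := fun j' : Fin m => (P i j').natDegree)
      (fun _ _ => Nat.zero_le _) (Finset.mem_univ j)).trans (Finset.single_le_sum
        (f := fun i' : Fin d => ∑ j' : Fin m, (P i' j').natDegree) (fun _ _ => Nat.zero_le _)
        (Finset.mem_univ i))⟩

end

section

variable {X Γ : Type} [Group Γ] [MeasurableSpace X] {μ : Measure X} {ρ : Γ → X → X}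

/-- the action on the product -/
def ract (ρ : Γ → X → X) {Z : Type} (T : Equiv.Perm Z) (γ : Γ × Multiplicative ℤ) (p : X × Z) :
    X × Z := (ρ γ.1 p.1, (T ^ (Multiplicative.toAdd γ.2)) p.2)

theorem prod_act [IsProbabilityMeasure μ] (hρ : IsAct μ ρ) {Z : Type} [MeasurableSpace Z]
    {ν : Measure Z} [IsProbabilityMeasure ν] {T : Equiv.Perm Z}
    (hT : Preserving ν (fun _ : Fin 1 => T)) : IsAct (μ.prod ν) (ract ρ T) where
  one := by
    funext p
    unfold ract
    simp [hρ.one]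
  mul a b := by
    funext p
    unfold ract
    simp only [Function.comp_apply, Prod.fst_mul, Prod.snd_mul, hρ.mul, toAdd_mul, zpow_add,
      Equiv.Perm.mul_apply]
  mp γ := by
    have h1 : T ∈ LL.MP ν := ⟨hT.inverse 0, hT.preserving 0⟩
    exact (hρ.mp γ.1).prod ((LL.MP ν).zpow_mem h1 (Multiplicative.toAdd γ.2)).2

theorem nilc_prod {c : ℕ} (h : NilC c Γ) : NilC (c + 1) (Γ × Multiplicative ℤ) := by
  unfold NilC at h ⊢
  rw [Subgroup.top_lowerCentralSeries_prod]
  have h1 : (⊤ : Subgroup Γ).lowerCentralSeries (c + 1) = ⊥ := by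
    rw [eq_bot_iff, ← h]
    exact Subgroup.lowerCentralSeries_antitone _ (Nat.le_succ c)
  have h2 : (⊤ : Subgroup (Multiplicative ℤ)).lowerCentralSeries (c + 1) = ⊥ := by
    rw [eq_bot_iff]
    refine (Subgroup.lowerCentralSeries_antitone _ (Nat.succ_le_succ (Nat.zero_le c))).trans ?_
    rw [Subgroup.lowerCentralSeries_succ, Subgroup.lowerCentralSeries_zero,
      Subgroup.commutator_le]
    intro a _ b _
    rw [Subgroup.mem_bot, commutatorElement_eq_one_iff_mul_comm, mul_comm]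
  rw [h1, h2, Subgroup.bot_prod_bot]

/-- the null case for the products, from a sequence of maps -/
theorem nz_of [IsProbabilityMeasure μ] (hρ : IsAct μ ρ) {t : ℤ → X → X}
    (h : ∀ (Z : Type) [MeasurableSpace Z] (ν : Measure Z) [IsProbabilityMeasure ν] (T : Equiv.Perm Z),
      Preserving ν (fun _ : Fin 1 => T) → ∃ (B : Γ) (g : Fin 1 → ℤ → Equiv.Perm (X × Z)),
        (∀ n p, (t n p.1, (T ^ n) p.2) = ((ρ B (g 0 n p).1, (g 0 n p).2) : X × Z)) ∧
        NullConv (μ.prod ν) g) : NZ μ t := by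
  intro Z _ ν _ T hT F hF h0
  obtain ⟨B, g, hg, hn⟩ := h Z ν T hT
  have hm : Measurable fun p : X × Z => (ρ B p.1, p.2) :=
    ((hρ.meas B).comp measurable_fst).prodMk measurable_snd
  have h1 := hn (fun _ p => F (ρ B p.1, p.2)) 0 (fun _ => (hF.comp hm).bm.memLp ∞)
  have e : ∀ N p, avg (fun _ : Fin 1 => fun p : X × Z => F (ρ B p.1, p.2)) g N p = avZ t T F N p := by
    intro N p
    unfold avg avZ cc
    congr 1
    refine Finset.sum_congr rfl fun n _ => ?_
    rw [Fin.prod_univ_one, hg]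
  simp only [e] at h1
  refine h1 fun f' _ hf' => ?_
  have e2 : f' = fun _ => fun p : X × Z => F (ρ B p.1, p.2) := by
    funext i
    rw [Subsingleton.elim i 0]
    exact hf'
  rw [e2]
  simp only [e]
  exact h0

/-- The sequences `S^n A S^(-n)` with a rotation. -/
theorem ract_two [IsProbabilityMeasure μ] (hρ : IsAct μ ρ) {Z : Type} [MeasurableSpace Z]
    {ν : Measure Z} [IsProbabilityMeasure ν] {T : Equiv.Perm Z}
    (hT : Preserving ν (fun _ : Fin 1 => T)) (S A : Γ) (n : ℤ) (p : X × Z) :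
    (ρ (cj S A n) p.1, (T ^ n) p.2) = ((ρ A (two (fun i : Fin 2 => pm (prod_act hρ hT)
      ((![(S, 1), (A⁻¹ * S * A, Multiplicative.ofAdd 1)] : Fin 2 → Γ × Multiplicative ℤ) i)) 0 n p).1,
      (two (fun i : Fin 2 => pm (prod_act hρ hT)
      ((![(S, 1), (A⁻¹ * S * A, Multiplicative.ofAdd 1)] : Fin 2 → Γ × Multiplicative ℤ) i)) 0 n
        p).2) : X × Z) := by
  have h1 : two (fun i : Fin 2 => pm (prod_act hρ hT)
      ((![(S, 1), (A⁻¹ * S * A, Multiplicative.ofAdd 1)] : Fin 2 → Γ × Multiplicative ℤ) i)) 0 n =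
      pm (prod_act hρ hT) ((A⁻¹ * S * A, Multiplicative.ofAdd 1) ^ n * (S, 1) ^ (-n)) := by
    unfold two
    rw [map_mul, map_zpow, map_zpow]
    simp
  rw [h1, pm_apply]
  have h2 : (((A⁻¹ * S * A, Multiplicative.ofAdd 1) : Γ × Multiplicative ℤ) ^ n * (S, 1) ^ (-n)) =
      ((A⁻¹ * S * A) ^ n * S ^ (-n), Multiplicative.ofAdd n) := by
    ext
    · simp
    · simp [← ofAdd_zsmul]
  rw [h2]
  unfold ract
  simp only [toAdd_ofAdd]
  have h3 : cj S A n = A * ((A⁻¹ * S * A) ^ n * S ^ (-n)) := by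
    have h4 := conj_zpow (i := n) (a := A⁻¹) (b := S)
    rw [inv_inv] at h4
    rw [h4]
    unfold cj
    group
  rw [h3, hρ.mul]
  rfl

end

section

variable {Q : Pr}

/-- null averages -/
theorem nl_of {X Γ J : Type} [Group Γ] [Fintype J] [MeasurableSpace X] {μ : Measure X}
    [IsProbabilityMeasure μ] {ρ : Γ → X → X} (hρ : IsAct μ ρ) {m : ℕ} (e : Fin m ≃ J)
    {w : J → ℤ → Γ} {B : Fin m → Γ} {g : Fin m → ℤ → Equiv.Perm X}
    (hg : ∀ j n, ρ (w (e j) n) = fun x => ρ (B j) (g j n x))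
    (hgm : ∀ j n, MeasurePreserving (g j n) μ μ) (h : NullConv μ g) (F : J → X → ℂ)
    (j : J) (hF : ∀ j, B1 (F j))
    (h0 : ∀ F' : J → X → ℂ, (∀ i, B1 (F' i)) → F' j = F j →
        Tendsto (fun N => ∫ x, ‖av0 ρ w F' N x‖ ^ 2 ∂μ) atTop (𝓝 0)) :
    ∀ᵐ x ∂μ, Tendsto (fun N => av0 ρ w F N x) atTop (𝓝 0) := by
  have e1 : ∀ (F : J → X → ℂ) N x, av0 ρ w F N x = avg (fun j x => F (e j) (ρ (B j) x)) g N x := by
    intro F N x
    unfold av0 avg pr cc
    congr 1
    refine Finset.sum_congr rfl fun n _ => ?_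
    rw [← Equiv.prod_comp e]
    refine Finset.prod_congr rfl fun j _ => ?_
    rw [hg]
  simp only [e1]
  refine h _ (e.symm j) (fun j => ((hF (e j)).comp (hρ.meas (B j))).bm.memLp ∞) ?_
  intro f' hf' hfj
  obtain ⟨C, f2, hf2, hfj2, hC⟩ := avg_scale' hgm hf' (e.symm j) (by
    rw [hfj]
    exact (hF _).comp (hρ.meas _))
  obtain ⟨F', hF'⟩ : ∃ F' : J → X → ℂ, F' = fun i x => f2 (e.symm i) (ρ (B (e.symm i))⁻¹ x) := ⟨_, rfl⟩
  have e2 : (fun (i : Fin m) x => F' (e i) (ρ (B i) x)) = f2 := by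
    funext i x
    rw [hF']
    simp only [Equiv.symm_apply_apply]
    rw [hρ.inv_apply]
  have h1 := h0 F' (by
    intro i
    rw [hF']
    exact (hf2 _).comp (hρ.meas _)) (by
    funext x
    rw [hF']
    simp only
    rw [hfj2, hfj]
    simp only [Equiv.apply_symm_apply]
    rw [hρ.apply_inv])
  simp only [e1] at h1
  rw [e2] at h1
  have h2 : ∀ N, ∫ x, ‖avg f' g N x‖ ^ 2 ∂μ = ‖C‖ ^ 2 * ∫ x, ‖avg f2 g N x‖ ^ 2 ∂μ := by
    intro N
    rw [← integral_const_mul]
    apply integral_congr_ae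
    filter_upwards [hC] with x hx
    rw [hx, norm_mul, mul_pow]
  simp only [h2]
  have h3 := h1.const_mul (‖C‖ ^ 2)
  rw [mul_zero] at h3
  exact h3

theorem pm_mem {X Γ : Type} [Group Γ] [MeasurableSpace X] {μ : Measure X} [IsProbabilityMeasure μ]
    {ρ : Γ → X → X} (hρ : IsAct μ ρ) (γ : Γ) : pm hρ γ ∈ LL.MP μ := ⟨hρ.meas γ⁻¹, hρ.mp γ⟩

theorem two_mem {X : Type} {m : ℕ} {T : Fin (m + 1) → Equiv.Perm X} {H : Subgroup (Equiv.Perm X)}
    (hT : ∀ i, T i ∈ H) (j : Fin m) (n : ℤ) : two T j n ∈ H :=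
  H.mul_mem (H.zpow_mem (hT _) _) (H.zpow_mem (hT _) _)

theorem hyp_top (h2 : ∀ m, TwoTerm NullConverges m) (c : ℕ) : Hyp c pTop where
  mx Γ _ _ hΓ S A _ X _ μ _ ρ hρ := by
    refine hump (fun n => hρ.mp _) (nz_of hρ ?_)
    intro Z _ ν _ T hT
    have h3 := h2 1 (X × Z) (μ.prod ν) (fun i => pm (prod_act hρ hT)
      ((![(S, 1), (A⁻¹ * S * A, Multiplicative.ofAdd 1)] : Fin 2 → Γ × Multiplicative ℤ) i))
      (pm_pres _ _) (pm_nil _ (nilc_prod hΓ) _)
    exact ⟨A, _, fun n p => ract_two hρ hT S A n p, h3⟩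
  nl Γ _ _ hΓ J _ S v _ X _ μ _ ρ hρ F j hF h0 := by
    obtain ⟨e, -⟩ : ∃ e : Fin (Fintype.card J) ≃ J, True := ⟨(Fintype.equivFin J).symm, trivial⟩
    have h3 := h2 _ X μ (fun i => pm hρ ((Fin.cons S (fun j => (v (e j))⁻¹ * S * v (e j)) :
      Fin (Fintype.card J + 1) → Γ) i)) (pm_pres hρ _) (pm_nil hρ hΓ _)
    refine nl_of hρ e (B := fun j => v (e j)) (fun j n => cj_two hρ S (fun j => v (e j)) j n) ?_ h3
      F j hF h0
    intro j n
    exact (two_mem (H := LL.MP μ) (fun i => pm_mem hρ _) j n).2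

/-- two terms as a word -/
theorem two_word {X : Type} {m : ℕ} (T : Fin (m + 1) → Equiv.Perm X) :
    two T =
      word (Fin.snoc (fun j : Fin m => T j.succ) (T 0) : Fin (m + 1) → Equiv.Perm X)
        (fun i j => if i = Fin.last m then -Polynomial.X else
          if i = j.castSucc then Polynomial.X else 0) := by
  funext j n
  unfold two word
  rw [List.ofFn_succ', List.prod_concat]
  have h2 : (fun i : Fin m => ((Fin.snoc (fun j : Fin m => T j.succ) (T 0) :
      Fin (m + 1) → Equiv.Perm X) i.castSucc) ^ (Polynomial.eval n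
        (if i.castSucc = Fin.last m then -Polynomial.X else
        if i.castSucc = j.castSucc then Polynomial.X else (0 : Polynomial ℤ)))) =
      fun i : Fin m => if i = j then (T j.succ) ^ n else 1 := by
    funext i
    rw [if_neg (Fin.castSucc_lt_last i).ne]
    by_cases hij : i = j
    · subst hij
      rw [if_pos rfl, if_pos rfl, Fin.snoc_castSucc]
      simp
    · have : i.castSucc ≠ j.castSucc := fun hh => hij (Fin.castSucc_injective _ hh)
      rw [if_neg this, if_neg hij]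
      simp
  simp only [h2]
  rw [prod_single, if_pos trivial, Fin.snoc_last]
  simp only [Polynomial.eval_neg, Polynomial.eval_X]

theorem snoc_range {Y : Type} {m : ℕ} (T : Fin (m + 1) → Y) :
    Set.range (Fin.snoc (fun j : Fin m => T j.succ) (T 0) : Fin (m + 1) → Y) = Set.range T := by
  ext y
  constructor
  · rintro ⟨i, rfl⟩
    refine Fin.lastCases ?_ (fun j => ?_) i
    · rw [Fin.snoc_last]
      exact ⟨0, rfl⟩
    · rw [Fin.snoc_castSucc]
      exact ⟨j.succ, rfl⟩
  · rintro ⟨i, rfl⟩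
    refine Fin.cases ?_ (fun j => ?_) i
    · exact ⟨Fin.last m, by rw [Fin.snoc_last]⟩
    · exact ⟨j.castSucc, by rw [Fin.snoc_castSucc]⟩

/-- **The first equivalence.** -/
theorem nilpotent_iff : (∀ m, Nilpotent Converges m) ↔ (∀ m, TwoTerm NullConverges m) := by
  constructor
  · intro h m X _ μ _ T hT hN
    have hsn : ∀ i, (Fin.snoc (fun j : Fin m => T j.succ) (T 0) : Fin (m + 1) → Equiv.Perm X) i ∈
        LL.MP μ := by
      intro i
      refine Fin.lastCases ?_ (fun j => ?_) i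
      · rw [Fin.snoc_last]
        exact ⟨hT.inverse 0, hT.preserving 0⟩
      · rw [Fin.snoc_castSucc]
        exact ⟨hT.inverse _, hT.preserving _⟩
    rw [two_word]
    refine null_of_conv (fun j n => ?_) (h m X μ (m + 1) _ ⟨fun i => (hsn i).1, fun i => (hsn i).2⟩
      (by rw [snoc_range]; exact hN) _ ?_)
    · exact (word_mem (H := LL.MP μ) hsn _ j n).2
    · intro i j
      split_ifs <;> simp
  · intro h2 m X _ μ _ d T hT hN P hP
    obtain ⟨c, hc⟩ := (Subgroup.isNilpotent_iff_lowerCentralSeries _).1 hN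
    have hc' : (Subgroup.closure (Set.range T)).lowerCentralSeries (c + 1) = ⊥ := by
      rw [eq_bot_iff, ← hc]
      exact Subgroup.lowerCentralSeries_antitone _ (Nat.le_succ c)
    obtain ⟨D, hD⟩ := deg_bound P
    have hg : ∀ j n, word T P j n ∈ LL.MP μ := fun j n =>
      word_mem (H := LL.MP μ) (fun i => ⟨hT.inverse i, hT.preserving i⟩) P j n
    refine conv_ext _ hg ?_
    exact cv_all (Q := pTop) (hyp_top h2 _) _ (word_nil (by omega) T hc' P hD) _ _ trivial

end

end Pool.Agent.H87.NC
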