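import Pool.Agent.H87.NC.Pet
import Pool.Agent.H87.NC.Def
import Pool.Agent.H87.NC.LL.Mes

/-! # From maps to groups and back -/

set_option autoImplicit false
set_option linter.unusedSectionVars false

open MeasureTheory Filter Topology Set
open scoped ENNReal NNReal ComplexConjugate commutatorElement

namespace Pool.Agent.H87.NC

section

variable {X : Type} [MeasurableSpace X] {μ : Measure X} {m : ℕ}

theorem b1_scale {f : X → ℂ} (hf : MemLp f ∞ μ) : ∃ (C : ℂ) (f' : X → ℂ), B1 f' ∧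
    f =ᵐ[μ] fun x => C * f' x := by
  obtain ⟨g0, hg0, hg1⟩ := hf.1
  have h2 := hf.2
  rw [eLpNorm_exponent_top] at h2
  obtain ⟨M, hM⟩ : ∃ M : ℝ, M = (eLpNormEssSup f μ).toReal + 1 := ⟨_, rfl⟩
  have hM0 : 0 < M := by
    rw [hM]
    positivity
  have h3 : ∀ᵐ x ∂μ, ‖f x‖ ≤ M := by
    filter_upwards [enorm_ae_le_eLpNormEssSup f μ] with x hx
    have h3 := ENNReal.toReal_mono h2.ne hx
    have h4 : ‖f x‖ ≤ (eLpNormEssSup f μ).toReal := by simpa using h3
    rw [hM]
    linarith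
  refine ⟨(M : ℂ), fun x => if ‖g0 x‖ ≤ M then g0 x / M else 0, ⟨?_, ?_⟩, ?_⟩
  · exact Measurable.ite (measurableSet_le hg0.measurable.norm measurable_const)
      (hg0.measurable.div_const _) measurable_const
  · intro x
    by_cases hx : ‖g0 x‖ ≤ M
    · simp only [if_pos hx]
      rw [norm_div, Complex.norm_real, Real.norm_eq_abs, abs_of_pos hM0, div_le_one hM0]
      exact hx
    · simp only [if_neg hx, norm_zero]
      exact zero_le_one
  · filter_upwards [hg1, h3] with x h4 h5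
    have h6 : (M : ℂ) ≠ 0 := by exact_mod_cast hM0.ne'
    rw [if_pos (by rw [← h4]; exact h5), h4, mul_div_cancel₀ _ h6]

theorem avg_scale {g : Fin m → ℤ → Equiv.Perm X} (hg : ∀ j n, MeasurePreserving (g j n) μ μ)
    {f : Fin m → X → ℂ} (hf : ∀ j, MemLp (f j) ∞ μ) : ∃ (C : ℂ) (f' : Fin m → X → ℂ),
    (∀ j, B1 (f' j)) ∧ ∀ᵐ x ∂μ, ∀ N, avg f g N x = C * avg f' g N x := by
  choose C f' hf' hff using fun j => b1_scale (hf j)
  refine ⟨∏ j, C j, f', hf', ?_⟩
  have h2 : ∀ᵐ x ∂μ, ∀ (j : Fin m) (n : ℤ), f j (g j n x) = C j * f' j (g j n x) := by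
    rw [ae_all_iff]
    intro j
    rw [ae_all_iff]
    intro n
    exact (hg j n).quasiMeasurePreserving.ae (hff j)
  filter_upwards [h2] with x hx N
  unfold avg
  rw [mul_left_comm (∏ j, C j)]
  congr 1
  rw [Finset.mul_sum]
  refine Finset.sum_congr rfl fun n _ => ?_
  rw [← Finset.prod_mul_distrib]
  exact Finset.prod_congr rfl fun j _ => hx j n

/-- scaling of the functions with the exception of one -/
theorem avg_scale' {g : Fin m → ℤ → Equiv.Perm X} (hg : ∀ j n, MeasurePreserving (g j n) μ μ)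
    {f : Fin m → X → ℂ} (hf : ∀ j, MemLp (f j) ∞ μ) (j : Fin m) (hj : B1 (f j)) :
    ∃ (C : ℂ) (f' : Fin m → X → ℂ), (∀ j, B1 (f' j)) ∧ f' j = f j ∧
      ∀ᵐ x ∂μ, ∀ N, avg f g N x = C * avg f' g N x := by
  have h0 : ∀ i, ∃ (C : ℂ) (f' : X → ℂ), B1 f' ∧ (f i =ᵐ[μ] fun x => C * f' x) ∧
      (i = j → f' = f j) := by
    intro i
    by_cases hi : i = j
    · subst hi
      exact ⟨1, f i, hj, ae_of_all _ fun x => (one_mul _).symm, fun _ => rfl⟩
    · obtain ⟨C, f', h1, h2⟩ := b1_scale (hf i)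
      exact ⟨C, f', h1, h2, fun h => absurd h hi⟩
  choose C f' hf' hff hfj using h0
  refine ⟨∏ j, C j, f', hf', hfj j rfl, ?_⟩
  have h2 : ∀ᵐ x ∂μ, ∀ (j : Fin m) (n : ℤ), f j (g j n x) = C j * f' j (g j n x) := by
    rw [ae_all_iff]
    intro j
    rw [ae_all_iff]
    intro n
    exact (hg j n).quasiMeasurePreserving.ae (hff j)
  filter_upwards [h2] with x hx N
  unfold avg
  rw [mul_left_comm (∏ j, C j)]
  congr 1
  rw [Finset.mul_sum]
  refine Finset.sum_congr rfl fun n _ => ?_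
  rw [← Finset.prod_mul_distrib]
  exact Finset.prod_congr rfl fun j _ => hx j n

theorem conv_of_b1 {g : Fin m → ℤ → Equiv.Perm X} (hg : ∀ j n, MeasurePreserving (g j n) μ μ)
    (h : ∀ f : Fin m → X → ℂ, (∀ j, B1 (f j)) →
      ∀ᵐ x ∂μ, ∃ L : ℂ, Tendsto (fun N : ℕ => avg f g N x) atTop (𝓝 L)) : Conv μ g := by
  intro f hf
  obtain ⟨C, f', hf', hff⟩ := avg_scale hg hf
  filter_upwards [hff, h f' hf'] with x h1 h2
  obtain ⟨L, hL⟩ := h2
  refine ⟨C * L, (hL.const_mul C).congr fun N => ?_⟩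
  rw [h1]

theorem avg_b1 {g : Fin m → ℤ → Equiv.Perm X} (hg : ∀ j n, MeasurePreserving (g j n) μ μ)
    {f : Fin m → X → ℂ} (hf : ∀ j, B1 (f j)) (N : ℕ) : B1 (avg f g N) :=
  cc_B1 N fun n => B1.prod _ fun j _ => (hf j).comp (hg j n).measurable

theorem null_core [IsProbabilityMeasure μ] {g : Fin m → ℤ → Equiv.Perm X}
    (hg : ∀ j n, MeasurePreserving (g j n) μ μ) (h : Conv μ g) (f : Fin m → X → ℂ)
    (hf : ∀ i, MemLp (f i) ∞ μ)
    (h0 : Tendsto (fun N : ℕ => ∫ x, ‖avg f g N x‖ ^ 2 ∂μ) atTop (𝓝 0)) :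
    ∀ᵐ x ∂μ, Tendsto (fun N : ℕ => avg f g N x) atTop (𝓝 0) := by
  obtain ⟨C, f', hf', hff⟩ := avg_scale hg hf
  have hm : ∀ N, Measurable (fun x => ENNReal.ofReal (‖C * avg f' g N x‖ ^ 2)) := fun N =>
    (((avg_b1 hg hf' N).bm.cmul C).1.norm.pow_const 2).ennreal_ofReal
  have h1 : ∫⁻ x, liminf (fun N => ENNReal.ofReal (‖C * avg f' g N x‖ ^ 2)) atTop ∂μ ≤ 0 := by
    refine (lintegral_liminf_le hm).trans ?_
    have h2 : ∀ N, ∫⁻ x, ENNReal.ofReal (‖C * avg f' g N x‖ ^ 2) ∂μ =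
        ENNReal.ofReal (∫ x, ‖avg f g N x‖ ^ 2 ∂μ) := by
      intro N
      have h3 : ∫ x, ‖avg f g N x‖ ^ 2 ∂μ = ∫ x, ‖C * avg f' g N x‖ ^ 2 ∂μ := by
        apply integral_congr_ae
        filter_upwards [hff] with x hx
        rw [hx]
      rw [h3, ofReal_integral_eq_lintegral_ofReal]
      · have h4 := ((avg_b1 hg hf' N).bm.cmul C).memLp (μ := μ) 2
        exact h4.integrable_norm_pow (by norm_num)
      · exact ae_of_all _ fun x => by positivity
    simp only [h2]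
    have h3 := ENNReal.tendsto_ofReal h0
    rw [ENNReal.ofReal_zero] at h3
    exact h3.liminf_eq.le
  have h2 := (lintegral_eq_zero_iff (Measurable.liminf hm)).1 (le_antisymm h1 bot_le)
  filter_upwards [h f hf, hff, h2] with x h3 h4 h5
  obtain ⟨L, hL⟩ := h3
  have h6 : Tendsto (fun N => ENNReal.ofReal (‖C * avg f' g N x‖ ^ 2)) atTop
      (𝓝 (ENNReal.ofReal (‖L‖ ^ 2))) := by
    apply ENNReal.tendsto_ofReal
    have h7 := hL.norm.pow 2
    refine h7.congr fun N => ?_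
    rw [h4]
  rw [h6.liminf_eq, Pi.zero_apply, ENNReal.ofReal_eq_zero] at h5
  have h7 : ‖L‖ = 0 := by
    have h8 := sq_nonneg ‖L‖
    exact pow_eq_zero_iff (two_ne_zero) |>.1 (le_antisymm h5 h8)
  rw [norm_eq_zero] at h7
  rw [h7] at hL
  exact hL

theorem null_of_conv [IsProbabilityMeasure μ] {g : Fin m → ℤ → Equiv.Perm X}
    (hg : ∀ j n, MeasurePreserving (g j n) μ μ) (h : Conv μ g) : NullConv μ g :=
  fun f _ hf h0 => null_core hg h f hf (h0 f hf rfl)

theorem nullAll_of_conv [IsProbabilityMeasure μ] {g : Fin m → ℤ → Equiv.Perm X}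
    (hg : ∀ j n, MeasurePreserving (g j n) μ μ) (h : Conv μ g) (hm : 1 ≤ m) : NullAllConv μ g :=
  fun f hf h0 => null_core hg h f hf (h0 ⟨0, hm⟩ f hf rfl)

end

section

variable {X Γ : Type} [Group Γ] [MeasurableSpace X] {μ : Measure X} {ρ : Γ → X → X}

/-- the permutations of an action -/
def pm (hρ : IsAct μ ρ) : Γ →* Equiv.Perm X where
  toFun γ := ⟨ρ γ, ρ γ⁻¹, fun x => hρ.inv_apply γ x, fun x => hρ.apply_inv γ x⟩
  map_one' := by
    apply Equiv.coe_fn_injective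
    exact hρ.one
  map_mul' g h := by
    apply Equiv.coe_fn_injective
    exact hρ.mul g h

theorem pm_apply (hρ : IsAct μ ρ) (γ : Γ) (x : X) : pm hρ γ x = ρ γ x := rfl

theorem pm_pres (hρ : IsAct μ ρ) {d : ℕ} (T : Fin d → Γ) : Preserving μ (fun i => pm hρ (T i)) where
  inverse i := hρ.meas (T i)⁻¹
  preserving i := hρ.mp (T i)

theorem pm_nil (hρ : IsAct μ ρ) {c : ℕ} (hΓ : NilC c Γ) {d : ℕ} (T : Fin d → Γ) :
    Group.IsNilpotent (Subgroup.closure (Set.range fun i => pm hρ (T i))) := by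
  refine (Subgroup.isNilpotent_iff_lowerCentralSeries _).2 ⟨c, ?_⟩
  have h1 : Subgroup.closure (Set.range fun i => pm hρ (T i)) ≤ (⊤ : Subgroup Γ).map (pm hρ) := by
    rw [Subgroup.closure_le]
    rintro _ ⟨i, rfl⟩
    exact Subgroup.mem_map_of_mem _ (Subgroup.mem_top _)
  rw [eq_bot_iff]
  refine (Subgroup.lowerCentralSeries_mono c h1).trans ?_
  show ((⊤ : Subgroup Γ).map (pm hρ)).lowerCentralSeries c ≤ ⊥
  rw [← Subgroup.map_lowerCentralSeries, hΓ, Subgroup.map_bot]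

theorem prod_single {G : Type} [Group G] (A : G) : ∀ {m : ℕ} (j : Fin m),
    (List.ofFn fun i : Fin m => if i = j then A else 1).prod = A := by
  intro m
  induction m with
  | zero => intro j; exact j.elim0
  | succ m ih =>
    intro j
    rw [List.ofFn_succ, List.prod_cons]
    by_cases hj : j = 0
    · subst hj
      rw [if_pos rfl]
      have h3 : (List.ofFn fun i : Fin m => if i.succ = (0 : Fin (m + 1)) then A else 1).prod
          = 1 := by
        apply List.prod_eq_one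
        intro x hx
        rw [List.mem_ofFn] at hx
        obtain ⟨i, rfl⟩ := hx
        rw [if_neg (Fin.succ_ne_zero i)]
      rw [h3, mul_one]
    · obtain ⟨j', rfl⟩ := Fin.exists_succ_eq.2 hj
      rw [if_neg (Ne.symm (Fin.succ_ne_zero j')), one_mul]
      have h3 := ih j'
      have h4 : (fun i : Fin m => if i.succ = j'.succ then A else 1) =
          (fun i : Fin m => if i = j' then A else 1) := by
        funext i
        by_cases hij : i = j'
        · subst hij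
          simp
        · rw [if_neg hij, if_neg (fun hh => hij (Fin.succ_injective _ hh))]
      rw [h4]
      exact h3

/-- The sequences `S^n V S^(-n)` with two terms. -/
theorem cj_two (hρ : IsAct μ ρ) {m : ℕ} (S : Γ) (v : Fin m → Γ) (j : Fin m) (n : ℤ) :
    ρ (cj S (v j) n) = fun x => ρ (v j)
      (two (fun i => pm hρ ((Fin.cons S (fun j => (v j)⁻¹ * S * v j) : Fin (m + 1) → Γ) i)) j n x) := by
  funext x
  rw [← pm_apply hρ, ← pm_apply hρ (v j), ← Equiv.Perm.mul_apply]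
  congr 1
  unfold two
  beta_reduce
  rw [Fin.cons_succ, Fin.cons_zero, ← map_zpow, ← map_zpow, ← map_mul, ← map_mul]
  congr 1
  have h3 := conj_zpow (i := n) (a := (v j)⁻¹) (b := S)
  rw [inv_inv] at h3
  rw [h3]
  unfold cj
  group

/-- The sequences in the linear case. -/
theorem cj_lin {S v : Γ} (h : QQ S v) (n : ℤ) : cj S v n = v * (v⁻¹ * S * v * S⁻¹) ^ n := by
  have h' : Commute (v⁻¹ * S * v * S⁻¹) S := h
  have h1 : v⁻¹ * S * v = (v⁻¹ * S * v * S⁻¹) * S := by group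
  have h3 := conj_zpow (i := n) (a := v⁻¹) (b := S)
  rw [inv_inv] at h3
  have h4 : v⁻¹ * S ^ n * v = (v⁻¹ * S * v * S⁻¹) ^ n * S ^ n := by
    rw [← h3]
    conv_lhs => rw [h1]
    exact h'.mul_zpow n
  unfold cj
  have h5 : S ^ n * v * (S ^ n)⁻¹ = v * (v⁻¹ * S ^ n * v) * (S ^ n)⁻¹ := by group
  rw [h5, h4]
  group

end

end Pool.Agent.H87.NC
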