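import Pool.Agent.H87.NC.HumpC
import Pool.Agent.H87.NC.MsC

/-! # The gliding hump -/

set_option autoImplicit false
set_option linter.unusedSectionVars false

open MeasureTheory Filter Topology Set
open scoped ENNReal NNReal ComplexConjugate

namespace Pool.Agent.H87.NC

section

variable {X : Type} [MeasurableSpace X] {μ : Measure X}

/-- the maximal inequality for sets -/
def Mx (μ : Measure X) (t : ℤ → X → X) : Prop :=
  ∀ ε : ℝ, 0 < ε → ∃ δ : ℝ, 0 < δ ∧ ∀ E : Set X, MeasurableSet E → μ E ≤ ENNReal.ofReal δ →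
    μ {x | ∃ N, ε < rs t E N x} ≤ ENNReal.ofReal ε

/-- the null case for the products -/
def NZ (μ : Measure X) (t : ℤ → X → X) : Prop :=
  ∀ (Z : Type) [MeasurableSpace Z] (ν : Measure Z) [IsProbabilityMeasure ν] (T : Equiv.Perm Z),
    Preserving ν (fun _ : Fin 1 => T) → ∀ F : X × Z → ℂ, B1 F →
    Tendsto (fun N => ∫ p, ‖avZ t T F N p‖ ^ 2 ∂(μ.prod ν)) atTop (𝓝 0) →
    ∀ᵐ p ∂(μ.prod ν), Tendsto (fun N => avZ t T F N p) atTop (𝓝 0)

/-- the union of the preimages -/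
def ub (t : ℤ → X → X) (E : Set X) (N : ℕ) : Set X := ⋃ n ∈ iv N, t n ⁻¹' E

theorem ub_meas {t : ℤ → X → X} (ht : ∀ n, Measurable (t n)) {E : Set X} (hE : MeasurableSet E)
    (N : ℕ) : MeasurableSet (ub t E N) :=
  Finset.measurableSet_biUnion _ fun n _ => ht n hE

theorem ub_le {t : ℤ → X → X} (ht : ∀ n, MeasurePreserving (t n) μ μ) {E : Set X}
    (hE : MeasurableSet E) (N : ℕ) {ε : ℝ} (hε : 0 < ε)
    (h : μ E ≤ ENNReal.ofReal (ε / (4 * (2 * N + 1)))) : μ (ub t E N) ≤ ENNReal.ofReal (ε / 4) := by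
  unfold ub
  refine (measure_biUnion_finset_le _ _).trans ?_
  have h1 : ∀ n, μ (t n ⁻¹' E) = μ E := fun n => (ht n).measure_preimage hE.nullMeasurableSet
  simp only [h1]
  rw [Finset.sum_const, card_iv, nsmul_eq_mul]
  refine (mul_le_mul_right h _).trans ?_
  rw [← ENNReal.ofReal_natCast, ← ENNReal.ofReal_mul (by positivity)]
  apply ENNReal.ofReal_le_ofReal
  apply le_of_eq
  push_cast
  field_simp

theorem rs_meas_ex {t : ℤ → X → X} (ht : ∀ n, Measurable (t n)) {E : Set X} (hE : MeasurableSet E)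
    (L : ℕ) (ε : ℝ) : MeasurableSet {x | ∃ N, N ≤ L ∧ ε < rs t E N x} := by
  have e : {x | ∃ N, N ≤ L ∧ ε < rs t E N x} = ⋃ N, ⋃ _ : N ≤ L, {x | ε < rs t E N x} := by
    ext x
    simp only [mem_ofPred_eq, mem_iUnion, exists_prop]
  rw [e]
  exact MeasurableSet.iUnion fun N => MeasurableSet.iUnion fun _ =>
    measurableSet_lt measurable_const (rs_meas ht hE N)

/-- the choice of the sets -/
theorem pick {t : ℤ → X → X} (h : ¬ Mx μ t) : ∃ ε : ℝ, 0 < ε ∧
    ∃ (E : ℕ → Set X) (L : ℕ → ℕ), ∀ K, MeasurableSet (E K) ∧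
      μ (E K) ≤ ENNReal.ofReal ((1 / 2) ^ (K + 1) * (ε / (4 * (2 * K + 1)))) ∧ K < L K ∧
      ENNReal.ofReal ε < μ {x | ∃ N, N ≤ L K ∧ ε < rs t (E K) N x} := by
  unfold Mx at h
  push Not at h
  obtain ⟨ε, hε, h⟩ := h
  refine ⟨ε, hε, ?_⟩
  have h1 : ∀ K : ℕ, ∃ (E : Set X) (L : ℕ), MeasurableSet E ∧
      μ E ≤ ENNReal.ofReal ((1 / 2) ^ (K + 1) * (ε / (4 * (2 * K + 1)))) ∧ K < L ∧
      ENNReal.ofReal ε < μ {x | ∃ N, N ≤ L ∧ ε < rs t E N x} := by
    intro K
    obtain ⟨E, hE, hE1, hE2⟩ := h ((1 / 2) ^ (K + 1) * (ε / (4 * (2 * K + 1)))) (by positivity)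
    have h3 : {x | ∃ N, ε < rs t E N x} = ⋃ L, {x | ∃ N, N ≤ L ∧ ε < rs t E N x} := by
      ext x
      simp only [mem_ofPred_eq, mem_iUnion]
      constructor
      · rintro ⟨N, hN⟩
        exact ⟨N, N, le_rfl, hN⟩
      · rintro ⟨_, N, _, hN⟩
        exact ⟨N, hN⟩
    have hmono : Monotone fun L : ℕ => {x | ∃ N, N ≤ L ∧ ε < rs t E N x} := by
      rintro L L' hL x ⟨N, hN, hx⟩
      exact ⟨N, hN.trans hL, hx⟩
    rw [h3, hmono.measure_iUnion, lt_iSup_iff] at hE2
    obtain ⟨L, hL⟩ := hE2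
    refine ⟨E, max L (K + 1), hE, hE1, by omega, lt_of_lt_of_le hL (measure_mono (hmono ?_))⟩
    exact le_max_left _ _
  choose E L hE using h1
  exact ⟨E, L, hE⟩

/-- The null case gives the maximal inequality. -/
theorem hump [IsProbabilityMeasure μ] {t : ℤ → X → X} (ht : ∀ n, MeasurePreserving (t n) μ μ)
    (hN : NZ μ t) : Mx μ t := by
  by_contra hcon
  obtain ⟨ε, hε, E', L', hEL⟩ := pick hcon
  have htm : ∀ n, Measurable (t n) := fun n => (ht n).measurable
  obtain ⟨n, hn0, hns⟩ : ∃ n : ℕ → ℕ, n 0 = 0 ∧ ∀ k, n (k + 1) = L' (n k) :=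
    ⟨fun k => Nat.rec 0 (fun _ K => L' K) k, rfl, fun _ => rfl⟩
  have hnlt : ∀ k, n k < n (k + 1) := by
    intro k
    rw [hns]
    exact (hEL (n k)).2.2.1
  have hnm : StrictMono n := strictMono_nat_of_lt_succ hnlt
  have hnk : ∀ k, k ≤ n k := fun k => hnm.id_le k
  obtain ⟨E, hE⟩ : ∃ E : ℕ → Set X, E = fun k => E' (n k) := ⟨_, rfl⟩
  have hEm : ∀ k, MeasurableSet (E k) := by
    intro k
    rw [hE]
    exact (hEL (n k)).1
  have hEμ : ∀ k, μ (E k) ≤ ENNReal.ofReal ((1 / 2) ^ (n k + 1) * (ε / (4 * (2 * (n k : ℕ) + 1)))) := by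
    intro k
    rw [hE]
    exact (hEL (n k)).2.1
  have hEb : ∀ k, ENNReal.ofReal ε < μ {x | ∃ N, N ≤ n (k + 1) ∧ ε < rs t (E k) N x} := by
    intro k
    rw [hE, hns]
    exact (hEL (n k)).2.2.2
  -- the tails
  obtain ⟨F, hF⟩ : ∃ F : ℕ → Set X, F = fun J => ⋃ i, E (J + i) := ⟨_, rfl⟩
  have hFm : ∀ J, MeasurableSet (F J) := by
    intro J
    rw [hF]
    exact MeasurableSet.iUnion fun i => hEm _
  have hFE : ∀ J k, J ≤ k → E k ⊆ F J := by
    intro J k hk x hx
    rw [hF]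
    refine mem_iUnion.2 ⟨k - J, ?_⟩
    rw [Nat.add_sub_cancel' hk]
    exact hx
  have hFμ : ∀ J, μ (F J) ≤ ENNReal.ofReal ((1 / 2) ^ J * (ε / (4 * (2 * (n J : ℕ) + 1)))) := by
    intro J
    rw [hF]
    refine (measure_iUnion_le _).trans ?_
    have h1 : ∀ i, μ (E (J + i)) ≤ ENNReal.ofReal ((1 / 2) ^ i *
        ((1 / 2) ^ (J + 1) * (ε / (4 * (2 * (n J : ℕ) + 1))))) := by
      intro i
      refine (hEμ _).trans (ENNReal.ofReal_le_ofReal ?_)
      have h2 : ((1 / 2 : ℝ)) ^ (n (J + i) + 1) ≤ (1 / 2) ^ (J + i + 1) :=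
        pow_le_pow_of_le_one (by norm_num) (by norm_num) (by have := hnk (J + i); omega)
      have h3 : ε / (4 * (2 * (n (J + i) : ℕ) + 1)) ≤ ε / (4 * (2 * (n J : ℕ) + 1)) := by
        apply div_le_div_of_nonneg_left hε.le (by positivity)
        have h4 : ((n J : ℕ) : ℝ) ≤ (n (J + i) : ℕ) := by
          exact_mod_cast hnm.monotone (Nat.le_add_right J i)
        linarith
      calc (1 / 2 : ℝ) ^ (n (J + i) + 1) * (ε / (4 * (2 * (n (J + i) : ℕ) + 1)))
          ≤ (1 / 2) ^ (J + i + 1) * (ε / (4 * (2 * (n J : ℕ) + 1))) :=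
            mul_le_mul h2 h3 (by positivity) (by positivity)
        _ = _ := by ring
    refine (ENNReal.tsum_le_tsum h1).trans ?_
    rw [← ENNReal.ofReal_tsum_of_nonneg (fun i => by positivity)]
    · apply ENNReal.ofReal_le_ofReal
      rw [tsum_mul_right, tsum_geometric_two]
      apply le_of_eq
      ring
    · exact summable_geometric_two.mul_right _
  have hFr : Tendsto (fun J => μ.real (F J)) atTop (𝓝 0) := by
    have h1 : Tendsto (fun J : ℕ => (1 / 2 : ℝ) ^ J * ε) atTop (𝓝 (0 * ε)) :=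
      (tendsto_pow_atTop_nhds_zero_of_lt_one (by norm_num) (by norm_num)).mul_const ε
    rw [zero_mul] at h1
    refine squeeze_zero (fun _ => measureReal_nonneg) (fun J => ?_) h1
    refine ENNReal.toReal_le_of_le_ofReal (by positivity) ((hFμ J).trans (ENNReal.ofReal_le_ofReal ?_))
    apply mul_le_mul_of_nonneg_left _ (by positivity)
    rw [div_le_iff₀ (by positivity)]
    have h2 : (0 : ℝ) ≤ (n J : ℕ) := Nat.cast_nonneg _
    nlinarith
  -- the disjoint pieces
  obtain ⟨D, hDd⟩ : ∃ D : ℕ → Set X, D = fun k => E k \ F (k + 1) := ⟨_, rfl⟩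
  have hDm : ∀ k, MeasurableSet (D k) := by
    intro k
    rw [hDd]
    exact (hEm k).diff (hFm _)
  have hDF : ∀ J k, J ≤ k → D k ⊆ F J := by
    intro J k hk x hx
    rw [hDd] at hx
    exact hFE J k hk hx.1
  have hDlt : ∀ i j x, i < j → x ∈ D i → x ∈ D j → False := by
    intro i j x hij hi hj
    rw [hDd] at hi hj
    exact hi.2 (hFE (i + 1) j hij hj.1)
  have hD : ∀ i j x, x ∈ D i → x ∈ D j → i = j := by
    intro i j x hi hj
    rcases lt_trichotomy i j with h | h | h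
    · exact (hDlt i j x h hi hj).elim
    · exact h
    · exact (hDlt j i x h hj hi).elim
  -- the laws
  choose κ C hκ hκa hκC0 hκC using fun k => law_exists (n (k + 1)) (ε / 4) (by linarith)
  have hdom : ∀ k, Dom (κ k) (C k) := fun k => ⟨hκC0 k, hκC k⟩
  have hWB := WW_B1 hD hDm
  have hnull := hump_null κ C hdom ht hD hDm F hFm hDF hFr
  have hae := hN Zp (nuz κ) TZ ⟨fun _ => TZ_inv, fun _ => TZ_mp κ⟩ (WW D) hWB hnull
  -- the bad sets
  obtain ⟨H, hH⟩ : ∃ H : ℕ → Set (X × Zp), H = fun k =>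
    {p | ∃ N, n k < N ∧ ε / 2 < ‖avZ t TZ (WW D) N p‖} := ⟨_, rfl⟩
  have hHm : ∀ k, MeasurableSet (H k) := by
    intro k
    have e : H k = ⋃ N, ⋃ _ : n k < N, {p | ε / 2 < ‖avZ t TZ (WW D) N p‖} := by
      rw [hH]
      ext x
      simp only [mem_ofPred_eq, mem_iUnion, exists_prop]
    rw [e]
    exact MeasurableSet.iUnion fun N => MeasurableSet.iUnion fun _ =>
      measurableSet_lt measurable_const (avZ_B1 htm hWB N).1.norm
  have hH0 : Tendsto (fun k => (μ.prod (nuz κ)) (H k)) atTop (𝓝 0) := by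
    refine Ms.tendsto_zero _ H hHm ?_
    filter_upwards [hae] with p hp
    have h1 := (hp.norm.eventually_lt_const (show ‖(0 : ℂ)‖ < ε / 2 by rw [norm_zero]; linarith))
    obtain ⟨N0, hN0⟩ := eventually_atTop.1 h1
    filter_upwards [eventually_ge_atTop N0] with k hk
    rw [hH]
    rintro ⟨N, hN1, hN2⟩
    have h2 := hN0 N (by have := hnk k; omega)
    linarith
  -- the good sets
  obtain ⟨G, hG⟩ : ∃ G : ℕ → Set X, G = fun k => {x | ∃ N, N ≤ n (k + 1) ∧ ε < rs t (E k) N x} \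
    (ub t (F (k + 1)) (n (k + 1)) ∪ ub t (E k) (n k)) := ⟨_, rfl⟩
  have hGμ : ∀ k, ENNReal.ofReal (ε / 2) ≤ μ (G k) := by
    intro k
    have h1 : μ (ub t (F (k + 1)) (n (k + 1))) ≤ ENNReal.ofReal (ε / 4) := by
      refine ub_le ht (hFm _) _ hε ((hFμ (k + 1)).trans (ENNReal.ofReal_le_ofReal ?_))
      have h2 : ((1 / 2 : ℝ)) ^ (k + 1) ≤ 1 := pow_le_one₀ (by norm_num) (by norm_num)
      have h3 : (0 : ℝ) ≤ ε / (4 * (2 * (n (k + 1) : ℕ) + 1)) := by positivity
      nlinarith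
    have h2 : μ (ub t (E k) (n k)) ≤ ENNReal.ofReal (ε / 4) := by
      refine ub_le ht (hEm _) _ hε ((hEμ k).trans (ENNReal.ofReal_le_ofReal ?_))
      have h2 : ((1 / 2 : ℝ)) ^ (n k + 1) ≤ 1 := pow_le_one₀ (by norm_num) (by norm_num)
      have h3 : (0 : ℝ) ≤ ε / (4 * (2 * (n k : ℕ) + 1)) := by positivity
      nlinarith
    have h3 : μ {x | ∃ N, N ≤ n (k + 1) ∧ ε < rs t (E k) N x} ≤
        μ (G k) + (ENNReal.ofReal (ε / 4) + ENNReal.ofReal (ε / 4)) := by
      have h4 : {x | ∃ N, N ≤ n (k + 1) ∧ ε < rs t (E k) N x} ⊆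
          G k ∪ (ub t (F (k + 1)) (n (k + 1)) ∪ ub t (E k) (n k)) := by
        rw [hG]
        intro x hx
        by_cases h : x ∈ ub t (F (k + 1)) (n (k + 1)) ∪ ub t (E k) (n k)
        · exact Or.inr h
        · exact Or.inl ⟨hx, h⟩
      exact (measure_mono h4).trans ((measure_union_le _ _).trans (add_le_add le_rfl
        ((measure_union_le _ _).trans (add_le_add h1 h2))))
    have h4 := (hEb k).le.trans h3
    rw [← ENNReal.ofReal_add (by linarith) (by linarith)] at h4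
    have h5 : ENNReal.ofReal ε = ENNReal.ofReal (ε / 2) + ENNReal.ofReal (ε / 4 + ε / 4) := by
      rw [← ENNReal.ofReal_add (by linarith) (by linarith)]
      congr 1
      ring
    rw [h5] at h4
    exact (ENNReal.add_le_add_iff_right ENNReal.ofReal_ne_top).1 h4
  have hGx : ∀ k x, x ∈ G k → ∃ N, n k < N ∧ N ≤ n (k + 1) ∧ ε < rs t (D k) N x := by
    intro k x hx
    rw [hG] at hx
    obtain ⟨⟨N, hN1, hN2⟩, hx2⟩ := hx
    have hx3 : x ∉ ub t (F (k + 1)) (n (k + 1)) := fun h => hx2 (Or.inl h)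
    have hx4 : x ∉ ub t (E k) (n k) := fun h => hx2 (Or.inr h)
    refine ⟨N, ?_, hN1, ?_⟩
    · by_contra hc
      obtain ⟨i, hi, hix⟩ := rs_pos (hε.trans hN2)
      apply hx4
      unfold ub
      simp only [mem_iUnion]
      refine ⟨i, ?_, hix⟩
      rw [Finset.mem_Icc] at hi ⊢
      omega
    · have e : rs t (D k) N x = rs t (E k) N x := by
        unfold rs
        congr 1
        refine Finset.sum_congr rfl fun i hi => ?_
        have h1 : t i x ∉ F (k + 1) := by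
          intro h
          apply hx3
          unfold ub
          simp only [mem_iUnion]
          refine ⟨i, ?_, h⟩
          rw [Finset.mem_Icc] at hi ⊢
          omega
        by_cases h2 : t i x ∈ E k
        · rw [indicator_of_mem h2, indicator_of_mem]
          rw [hDd]
          exact ⟨h2, h1⟩
        · rw [indicator_of_notMem h2, indicator_of_notMem]
          rw [hDd]
          exact fun h => h2 h.1
      rw [e]
      exact hN2
  have hlow : ∀ k, ENNReal.ofReal (ε / 2) ≤ 2 * (μ.prod (nuz κ)) (H k) := by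
    intro k
    have hfl : MeasurePreserving (Prod.map id (flk k)) (μ.prod (nuz κ)) (μ.prod (nuz κ)) :=
      (MeasurePreserving.id μ).prod (flk_mp κ k)
    have h1 : (μ.prod (nuz κ)) (G k ×ˢ (univ : Set Zp)) = μ (G k) := by
      rw [Measure.prod_prod, measure_univ, mul_one]
    have h2 : ∀ᵐ p ∂(μ.prod (nuz κ)), ∀ i ∈ iv (n (k + 1)), ‖(fourier i (p.2 k).1 : ℂ) - 1‖ ≤ ε / 4 := by
      have h3 : MeasurePreserving (fun p : X × Zp => (p.2 k).1) (μ.prod (nuz κ)) (κ k) :=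
        (ev_mp κ k).comp measurePreserving_snd
      exact h3.quasiMeasurePreserving.ae (hκa k)
    have h3 : (μ.prod (nuz κ)) (G k ×ˢ (univ : Set Zp)) ≤
        (μ.prod (nuz κ)) (H k ∪ Prod.map id (flk k) ⁻¹' (H k)) := by
      refine measure_mono_ae ?_
      filter_upwards [h2] with p hp hpG
      obtain ⟨N, hN1, hN2, hN3⟩ := hGx k p.1 hpG.1
      have h4 := hump_flip (t := t) hD (k := k) (N := N) hε (x := p.1) (z := p.2) (fun i hi => hp i (by
        rw [Finset.mem_Icc] at hi ⊢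
        omega)) hN3
      rcases h4 with h4 | h4
      · left
        rw [hH]
        exact ⟨N, hN1, h4⟩
      · right
        rw [hH]
        exact ⟨N, hN1, h4⟩
    have h4 : (μ.prod (nuz κ)) (Prod.map id (flk k) ⁻¹' (H k)) = (μ.prod (nuz κ)) (H k) :=
      hfl.measure_preimage (hHm k).nullMeasurableSet
    calc ENNReal.ofReal (ε / 2) ≤ μ (G k) := hGμ k
      _ = (μ.prod (nuz κ)) (G k ×ˢ (univ : Set Zp)) := h1.symm
      _ ≤ _ := h3
      _ ≤ _ := measure_union_le _ _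
      _ = 2 * (μ.prod (nuz κ)) (H k) := by
        rw [h4, two_mul]
  have h1 : Tendsto (fun k => 2 * (μ.prod (nuz κ)) (H k)) atTop (𝓝 (2 * 0)) :=
    ENNReal.Tendsto.const_mul hH0 (Or.inr (by norm_num))
  rw [mul_zero] at h1
  have h2 := ge_of_tendsto' h1 hlow
  rw [nonpos_iff_eq_zero, ENNReal.ofReal_eq_zero] at h2
  linarith

end

end Pool.Agent.H87.NC
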