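import Pool.Agent.H87.NC.BoxT
import Pool.Agent.H87.NC.HumpD

/-! # Functions with convergent averages -/

set_option autoImplicit false
set_option linter.unusedSectionVars false

open MeasureTheory Filter Topology Set
open scoped ENNReal NNReal ComplexConjugate

namespace Pool.Agent.H87.NC

section

variable {X Γ J : Type} [Group Γ] [Fintype J]
  {ρ : Γ → X → X} {a : ℤ → Γ} {v : J → ℤ → Γ} {f : J → X → ℂ}
  [MeasurableSpace X] {μ : Measure X}

/-- the averages converge almost everywhere -/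
def Gd (μ : Measure X) (ρ : Γ → X → X) (a : ℤ → Γ) (v : J → ℤ → Γ) (f : J → X → ℂ) (g : X → ℂ) :
    Prop :=
  ∀ᵐ x ∂μ, ∃ l, Tendsto (fun N => am ρ a v f g N x) atTop (𝓝 l)

theorem Gd.add {g h : X → ℂ} (hg : Gd μ ρ a v f g) (hh : Gd μ ρ a v f h) :
    Gd μ ρ a v f (fun y => g y + h y) := by
  filter_upwards [hg, hh] with x h1 h2
  obtain ⟨l1, h1⟩ := h1
  obtain ⟨l2, h2⟩ := h2
  refine ⟨l1 + l2, (h1.add h2).congr fun N => ?_⟩
  rw [am_add]

theorem Gd.cmul {g : X → ℂ} (hg : Gd μ ρ a v f g) (c : ℂ) :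
    Gd μ ρ a v f (fun y => c * g y) := by
  filter_upwards [hg] with x h1
  obtain ⟨l1, h1⟩ := h1
  refine ⟨c * l1, (h1.const_mul c).congr fun N => ?_⟩
  rw [am_smul]

theorem gd_of_tst [IsProbabilityMeasure μ] (hρ : IsAct μ ρ) (hf : ∀ j, B1 (f j)) {g : X → ℂ}
    (hg : Bm g) (h : ∀ η : ℝ, 0 < η → ∀ Φ : ℕ → ℕ, ∃ N, 1 ≤ N ∧ Tst μ ρ a v f N (Φ N) η g) :
    Gd μ ρ a v f g := by
  refine Ms.conv_of_meta μ (fun N x => am ρ a v f g N x) atTop
    (fun N R => (Finset.Icc N R : Set ℕ)) (fun N => N) ?_ ?_ ?_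
  · intro N
    filter_upwards [eventually_ge_atTop N] with t ht
    exact ⟨t, by simpa using ht⟩
  · intro N R R' hR t ht
    simp only [Finset.coe_Icc, Set.mem_Icc] at ht ⊢
    exact ⟨ht.1, ht.2.trans hR⟩
  · intro ε hε Φ
    obtain ⟨N, hN, hT⟩ := h (ε * ε) (by positivity) Φ
    refine ⟨N, hN, ?_⟩
    obtain ⟨Z, hZ⟩ : ∃ Z : ℕ → X → ℂ, Z = fun n x => am ρ a v f g n x - am ρ a v f g N x := ⟨_, rfl⟩
    have hZB : ∀ n, Bm (Z n) := by
      intro n
      rw [hZ]
      exact (am_Bm hρ hf hg n).sub (am_Bm hρ hf hg N)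
    obtain ⟨B, hB⟩ : ∃ B : ℕ → Set X, B = fun n => {x | n ∈ Finset.Icc N (Φ N) ∧ ε < ‖Z n x‖} := ⟨_, rfl⟩
    have hBm : ∀ n, MeasurableSet (B n) := by
      intro n
      rw [hB]
      exact (MeasurableSet.const _).inter (measurableSet_lt measurable_const (hZB n).1.norm)
    obtain ⟨E, hE⟩ : ∃ E : ℕ → Set X, E = disjointed B := ⟨_, rfl⟩
    have hEm : ∀ n, MeasurableSet (E n) := by
      intro n
      rw [hE]
      exact MeasurableSet.disjointed hBm n
    have hEB : ∀ n, E n ⊆ B n := by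
      intro n
      rw [hE]
      exact disjointed_subset _ _
    have hdis : ∀ n m x, x ∈ E n → x ∈ E m → n = m := by
      intro n m x h1 h2
      by_contra hne
      rw [hE] at h1 h2
      exact (Set.disjoint_left.1 (disjoint_disjointed B hne)) h1 h2
    have hone : ∀ x, ∑ n ∈ Finset.Icc N (Φ N), (E n).indicator (fun _ => (1 : ℝ)) x ≤ 1 := by
      intro x
      by_cases hx : ∃ n ∈ Finset.Icc N (Φ N), x ∈ E n
      · obtain ⟨n, hn, hx⟩ := hx
        rw [Finset.sum_eq_single n]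
        · rw [indicator_of_mem hx]
        · intro m _ hm
          rw [indicator_of_notMem]
          exact fun h => hm (hdis _ _ _ h hx)
        · exact fun h => absurd hn h
      · push Not at hx
        rw [Finset.sum_eq_zero]
        · exact zero_le_one
        · intro n hn
          rw [indicator_of_notMem (hx n hn)]
    have h1 := hT (fun n => (E n).indicator (fun x => sg (Z n x)))
      (fun n => (sg_meas.comp (hZB n).1).indicator (hEm n)) (by
        intro x
        refine le_trans (Finset.sum_le_sum fun n _ => ?_) (hone x)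
        by_cases hx : x ∈ E n
        · rw [indicator_of_mem hx, indicator_of_mem hx]
          exact sg_norm _
        · rw [indicator_of_notMem hx, indicator_of_notMem hx]
          simp)
    have h2 : ∫ x, ∑ n ∈ Finset.Icc N (Φ N), (E n).indicator (fun x => sg (Z n x)) x *
        (am ρ a v f g n x - am ρ a v f g N x) ∂μ =
        ((∫ x, ∑ n ∈ Finset.Icc N (Φ N), (E n).indicator (fun x => ‖Z n x‖) x ∂μ : ℝ) : ℂ) := by
      rw [← integral_complex_ofReal]
      congr 1
      funext x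
      rw [Complex.ofReal_sum]
      refine Finset.sum_congr rfl fun n _ => ?_
      have h3 : am ρ a v f g n x - am ρ a v f g N x = Z n x := by rw [hZ]
      rw [h3]
      by_cases hx : x ∈ E n
      · rw [indicator_of_mem hx, indicator_of_mem hx, mul_comm, mul_sg]
      · rw [indicator_of_notMem hx, indicator_of_notMem hx]
        simp
    rw [h2, Complex.norm_real] at h1
    obtain ⟨F, hF⟩ : ∃ F : Set X, F = ⋃ n ∈ Finset.Icc N (Φ N), B n := ⟨_, rfl⟩
    have hFm : MeasurableSet F := by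
      rw [hF]
      exact Finset.measurableSet_biUnion _ fun n _ => hBm n
    have hint : ∀ n, Integrable (fun x => (E n).indicator (fun x => ‖Z n x‖) x) μ := fun n =>
      ((hZB n).int.norm).indicator (hEm n)
    have h3 : ∫ x, F.indicator (fun _ => ε) x ∂μ ≤
        ∫ x, ∑ n ∈ Finset.Icc N (Φ N), (E n).indicator (fun x => ‖Z n x‖) x ∂μ := by
      refine integral_mono ((integrable_const ε).indicator hFm)
        (integrable_finsetSum _ fun n _ => hint n) ?_
      intro x
      show F.indicator (fun _ => ε) x ≤ ∑ n ∈ Finset.Icc N (Φ N), (E n).indicator (fun x => ‖Z n x‖) x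
      have hnn : ∀ n ∈ Finset.Icc N (Φ N), 0 ≤ (E n).indicator (fun x => ‖Z n x‖) x := fun n _ =>
        indicator_nonneg (fun _ _ => norm_nonneg _) _
      by_cases hx : x ∈ F
      · rw [indicator_of_mem hx]
        rw [hF] at hx
        simp only [mem_iUnion] at hx
        obtain ⟨n, hn, hx⟩ := hx
        have h4 : x ∈ ⋃ n, disjointed B n := by
          rw [iUnion_disjointed]
          exact mem_iUnion.2 ⟨n, hx⟩
        obtain ⟨m, hm⟩ := mem_iUnion.1 h4
        have hm' : x ∈ E m := by rw [hE]; exact hm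
        have h5 := hEB m hm'
        rw [hB] at h5
        refine le_trans ?_ (Finset.single_le_sum hnn h5.1)
        rw [indicator_of_mem hm']
        exact h5.2.le
      · rw [indicator_of_notMem hx]
        exact Finset.sum_nonneg hnn
    rw [integral_indicator_const _ hFm, smul_eq_mul] at h3
    have h4 : μ.real F ≤ ε := by
      have h5 := (le_abs_self _).trans h1
      have h6 : μ.real F * ε ≤ ε * ε := h3.trans h5
      exact le_of_mul_le_mul_right h6 hε
    have h5 : {x | ∃ t ∈ (Finset.Icc N (Φ N) : Set ℕ), ε < dist (am ρ a v f g t x) (am ρ a v f g N x)} ⊆ F := by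
      rintro x ⟨t, ht, hx⟩
      rw [hF]
      simp only [mem_iUnion]
      refine ⟨t, ht, ?_⟩
      rw [hB, hZ]
      refine ⟨ht, ?_⟩
      rw [dist_eq_norm] at hx
      exact hx
    refine (measure_mono h5).trans ?_
    rw [ENNReal.le_ofReal_iff_toReal_le (measure_ne_top _ _) hε.le]
    exact h4

/-- the dual functions -/
def Du (μ : Measure X) (ρ : Γ → X → X) (a : ℤ → Γ) (v : J → ℤ → Γ) : Set (X → ℂ) :=
  {D | B1 D ∧ ∃ U : Ultrafilter ℕ, (U : Filter ℕ) ≤ atTop ∧ ∃ q : ℕ → Option J → X → ℂ,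
    (∀ M o, B1 (q M o)) ∧
    Wk μ (U : Filter ℕ) (fun M => dl ρ a v (q M none) (fun j => q M (some j)) M) D}

theorem du_conj {D : X → ℂ} (hD : D ∈ Du μ ρ a v) : (fun x => conj (D x)) ∈ Du μ ρ a v := by
  obtain ⟨h1, U, hU, q, hq, hw⟩ := hD
  refine ⟨h1.conj, U, hU, fun M o x => conj (q M o x), fun M o => (hq M o).conj, ?_⟩
  have h2 := hw.conj
  have e : ∀ M x, conj (dl ρ a v (q M none) (fun j => q M (some j)) M x) =
      dl ρ a v (fun x => conj (q M none x)) (fun j x => conj (q M (some j) x)) M x := by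
    intro M x
    unfold dl ds pr cc
    rw [map_mul, map_sum, map_inv₀, map_natCast]
    congr 1
    refine Finset.sum_congr rfl fun k _ => ?_
    rw [map_mul, map_prod]
  simp only [e] at h2
  exact h2

/-- The products of dual functions are good, if the averages in the larger groups converge. -/
theorem gd_prod [IsProbabilityMeasure μ] (hρ : IsAct μ ρ) (hf : ∀ j, B1 (f j)) {r : ℕ}
    (hd : ∃ (Γ' : Type) (_ : Group Γ') (_ : Countable Γ') (θ : (Fin r → ℤ) → Γ' →* Γ)
      (w : J ⊕ (Fin r × Option J) → ℤ → Γ'), Drv a v r θ w ∧ Cv w)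
    (D : Fin r → X → ℂ) (hD : ∀ l, D l ∈ Du μ ρ a v) : Gd μ ρ a v f (fun x => ∏ l, D l x) := by
  obtain ⟨Γ', _, _, θ, w, hd, hcv⟩ := hd
  have h1 : ∀ l, B1 (D l) := fun l => (hD l).1
  choose U hU q hq hw using fun l => (hD l).2
  refine gd_of_tst hρ hf (Bm.prod _ fun l _ => (h1 l).bm) ?_
  intro η hη Φ
  obtain ⟨K, M0, hK⟩ := box (μ := μ) (f := f) hρ hf hd hcv η hη Φ
  obtain ⟨N, hN, hT⟩ := tst_prod (a := a) (v := v) hρ hf K Φ η r M0 U hU
    (fun l M => dl ρ a v (q l M none) (fun j => q l M (some j)) M) D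
    (fun l M => (dl_B1 hρ (fun j => hq l M (some j)) (hq l M none) M).bm) (fun l => (h1 l).bm) hw
    (fun M hM => hK (fun l => q l (M l)) (fun l o => hq l (M l) o) M hM)
  exact ⟨N, hN.1, hT⟩

theorem adj_bm {g : X → ℂ} (hg : g ∈ Algebra.adjoin ℂ (Du μ ρ a v)) : Bm g := by
  induction hg using Algebra.adjoin_induction with
  | mem x hx => exact hx.1.bm
  | algebraMap r => exact Bm.const _
  | add x y _ _ hx hy => exact hx.add hy
  | mul x y _ _ hx hy => exact hx.mul hy

/-- The algebra generated by the dual functions is good. -/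
theorem gd_adj {g : X → ℂ}
    (hprod : ∀ (r : ℕ) (D : Fin r → X → ℂ), (∀ l, D l ∈ Du μ ρ a v) →
      Gd μ ρ a v f (fun x => ∏ l, D l x))
    (hg : g ∈ Algebra.adjoin ℂ (Du μ ρ a v)) : Gd μ ρ a v f g := by
  have h1 : g ∈ Submodule.span ℂ (Submonoid.closure (Du μ ρ a v) : Set (X → ℂ)) := by
    rw [← Algebra.adjoin_eq_span]
    exact hg
  clear hg
  induction h1 using Submodule.span_induction with
  | mem x hx =>
    obtain ⟨l, hl, rfl⟩ := Submonoid.exists_list_of_mem_closure hx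
    have h2 := hprod l.length (fun i => l.get i) (fun i => hl _ (l.get_mem i))
    have e : (fun x => ∏ i : Fin l.length, l.get i x) = l.prod := by
      funext x
      rw [← Finset.prod_apply]
      conv_rhs => rw [← List.ofFn_get l]
      rw [List.prod_ofFn]
    rw [e] at h2
    exact h2
  | zero =>
    refine Eventually.of_forall fun x => ⟨0, ?_⟩
    simp [am]
  | add x y _ _ hx hy => exact hx.add hy
  | smul c x _ hx => exact hx.cmul c

/-- Limits in mean of good functions are good. -/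
theorem gd_lim [IsProbabilityMeasure μ] (hρ : IsAct μ ρ) (hf : ∀ j, B1 (f j))
    (hM : Mx μ (fun n => ρ (a n))) {g : X → ℂ} (hg : B1 g)
    (h : ∀ ε : ℝ, 0 < ε → ∃ g', Bm g' ∧ (∀ x, ‖g' x‖ ≤ 2) ∧ Gd μ ρ a v f g' ∧
      ∫ x, ‖g x - g' x‖ ∂μ ≤ ε) :
    Gd μ ρ a v f g := by
  obtain ⟨e, he⟩ : ∃ e : ℕ → ℝ, e = fun i => (1 / 2 : ℝ) ^ i := ⟨_, rfl⟩
  have hepos : ∀ i, 0 < e i := by
    intro i
    rw [he]
    positivity
  have hes : Summable e := by
    rw [he]
    exact summable_geometric_two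
  choose δ hδ hδM using fun i : ℕ => hM (e i) (hepos i)
  choose G hGB hG2 hG hGi using fun i : ℕ => h (e i * δ i) (mul_pos (hepos i) (hδ i))
  obtain ⟨E, hE⟩ : ∃ E : ℕ → Set X, E = fun i => {x | e i < ‖g x - G i x‖} := ⟨_, rfl⟩
  have hEm : ∀ i, MeasurableSet (E i) := by
    intro i
    rw [hE]
    exact measurableSet_lt measurable_const (hg.bm.sub (hGB i)).1.norm
  have hEμ : ∀ i, μ (E i) ≤ ENNReal.ofReal (δ i) := by
    intro i
    have hi : Integrable (fun x => ‖g x - G i x‖) μ := ((hg.bm.sub (hGB i)).int).norm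
    have h1 := mul_meas_ge_le_integral_of_nonneg (μ := μ) (f := fun x => ‖g x - G i x‖)
      (ae_of_all _ fun x => norm_nonneg _) hi (e i)
    have h2 : e i * μ.real (E i) ≤ e i * δ i := by
      refine le_trans (mul_le_mul_of_nonneg_left ?_ (hepos i).le) (h1.trans (hGi i))
      rw [hE]
      refine measureReal_mono (fun x hx => ?_) (measure_ne_top _ _)
      rw [mem_ofPred_eq] at hx ⊢
      exact hx.le
    have h3 := le_of_mul_le_mul_left h2 (hepos i)
    rw [ENNReal.le_ofReal_iff_toReal_le (measure_ne_top _ _) (hδ i).le]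
    exact h3
  have hbc : ∀ᵐ x ∂μ, ∀ᶠ i in atTop, x ∉ {x | ∃ N, e i < rs (fun n => ρ (a n)) (E i) N x} := by
    refine ae_eventually_notMem ?_
    refine ne_top_of_le_ne_top ?_ (ENNReal.tsum_le_tsum fun i => hδM i (E i) (hEm i) (hEμ i))
    rw [← ENNReal.ofReal_tsum_of_nonneg (fun i => (hepos i).le) hes]
    exact ENNReal.ofReal_ne_top
  have hGall : ∀ᵐ x ∂μ, ∀ i, ∃ l, Tendsto (fun N => am ρ a v f (G i) N x) atTop (𝓝 l) := by
    rw [ae_all_iff]
    exact hG
  have hpt : ∀ i y, ‖g y - G i y‖ ≤ e i + 3 * (E i).indicator (fun _ => (1 : ℝ)) y := by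
    intro i y
    by_cases hy : y ∈ E i
    · rw [indicator_of_mem hy]
      have h1 := norm_sub_le (g y) (G i y)
      have h2 := hg.2 y
      have h3 := hG2 i y
      have h4 := hepos i
      linarith
    · rw [indicator_of_notMem hy]
      rw [hE] at hy
      simp only [mem_ofPred_eq, not_lt] at hy
      linarith
  filter_upwards [hbc, hGall] with x h1 h2
  apply Ms.conv_of_approx
  intro ε hε
  have h3 : ∀ᶠ i in atTop, e i < ε / 4 := by
    rw [he]
    exact (tendsto_pow_atTop_nhds_zero_of_lt_one (by norm_num) (by norm_num)).eventually_lt_const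
      (by linarith)
  obtain ⟨i, hi1, hi2⟩ := (h1.and h3).exists
  refine ⟨_, h2 i, Eventually.of_forall fun N => ?_⟩
  have h4 : rs (fun n => ρ (a n)) (E i) N x ≤ e i := by
    by_contra hc
    exact hi1 ⟨N, not_le.1 hc⟩
  rw [← am_sub]
  unfold am
  rw [norm_mul, cc_norm]
  have h5 : ‖∑ n ∈ iv N, (g (ρ (a n) x) - G i (ρ (a n) x)) * pr ρ v f n x‖ ≤
      ∑ n ∈ iv N, (e i + 3 * (E i).indicator (fun _ => (1 : ℝ)) (ρ (a n) x)) := by
    refine (norm_sum_le _ _).trans (Finset.sum_le_sum fun n _ => ?_)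
    rw [norm_mul]
    exact (mul_le_of_le_one_right (norm_nonneg _) ((pr_B1 (v := v) hρ hf n).2 x)).trans (hpt i _)
  have h6 : ((2 * N + 1 : ℕ) : ℝ)⁻¹ * ∑ n ∈ iv N, (e i + 3 * (E i).indicator (fun _ => (1 : ℝ))
      (ρ (a n) x)) = e i + 3 * rs (fun n => ρ (a n)) (E i) N x := by
    unfold rs
    rw [Finset.sum_add_distrib, Finset.sum_const, card_iv, nsmul_eq_mul, ← Finset.mul_sum, mul_add,
      ← mul_assoc, inv_mul_cancel₀ (by positivity), one_mul, mul_left_comm]
  refine (mul_le_mul_of_nonneg_left h5 (by positivity)).trans ?_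
  rw [h6]
  linarith

/-- Functions orthogonal to the dual functions. -/
theorem null_of_orth [IsProbabilityMeasure μ] (hρ : IsAct μ ρ) (hf : ∀ j, B1 (f j)) {w : X → ℂ}
    (hw : B1 w) (h : ∀ D ∈ Du μ ρ a v, ∫ x, w x * D x ∂μ = 0) :
    Tendsto (fun N => ∫ x, ‖am ρ a v f w N x‖ ^ 2 ∂μ) atTop (𝓝 0) := by
  by_contra hcon
  rw [Metric.tendsto_atTop] at hcon
  push Not at hcon
  obtain ⟨ε, hε, hcon⟩ := hcon
  have h0 : ∀ N, 0 ≤ ∫ x, ‖am ρ a v f w N x‖ ^ 2 ∂μ := fun N => integral_nonneg fun x => by positivity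
  obtain ⟨S, hS⟩ : ∃ S : Set ℕ, S = {N | ε ≤ ∫ x, ‖am ρ a v f w N x‖ ^ 2 ∂μ} := ⟨_, rfl⟩
  have hfreq : ∃ᶠ N in atTop, N ∈ S := by
    rw [frequently_atTop]
    intro N0
    obtain ⟨N, hN, h1⟩ := hcon N0
    refine ⟨N, hN, ?_⟩
    rw [hS]
    rw [Real.dist_eq, sub_zero, abs_of_nonneg (h0 N)] at h1
    exact h1
  have hne : NeBot (atTop ⊓ 𝓟 S) := frequently_mem_iff_neBot.1 hfreq
  obtain ⟨U, hU⟩ := Ultrafilter.exists_le (atTop ⊓ 𝓟 S)
  have hUtop : (U : Filter ℕ) ≤ atTop := hU.trans inf_le_left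
  have hUS : S ∈ (U : Filter ℕ) := hU (mem_inf_of_right (mem_principal_self S))
  obtain ⟨q, hq⟩ : ∃ q : ℕ → Option J → X → ℂ, q = fun M o => o.elim
    (fun x => conj (am ρ a v f w M x)) f := ⟨_, rfl⟩
  have hqB : ∀ M o, B1 (q M o) := by
    intro M o
    rw [hq]
    cases o with
    | none => exact (am_B1 hρ hf hw M).conj
    | some j => exact hf j
  obtain ⟨D, hD1, hD2⟩ := wk_exists μ U
    (fun M => dl ρ a v (q M none) (fun j => q M (some j)) M)
    (fun M => dl_B1 hρ (fun j => hqB M (some j)) (hqB M none) M)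
  have hDu : D ∈ Du μ ρ a v := ⟨hD1, U, hUtop, q, hqB, hD2⟩
  have h1 := hD2 w hw.bm
  have h2 : ∫ x, D x * w x ∂μ = 0 := by
    rw [← h D hDu]
    congr 1
    funext x
    ring
  rw [h2] at h1
  have h3 : ∀ N, ∫ x, dl ρ a v (q N none) (fun j => q N (some j)) N x * w x ∂μ =
      ((∫ x, ‖am ρ a v f w N x‖ ^ 2 ∂μ : ℝ) : ℂ) := by
    intro N
    have h4 := pair (μ := μ) (a := a) (v := v) hρ hf hw.bm (am_B1 (a := a) (v := v) hρ hf hw N).conj.bm N
    have e1 : (fun x => dl ρ a v (q N none) (fun j => q N (some j)) N x * w x) =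
        fun x => w x * dl ρ a v (fun x => conj (am ρ a v f w N x)) f N x := by
      funext x
      rw [mul_comm, hq]
      rfl
    rw [e1, ← h4, ← integral_complex_ofReal]
    congr 1
    funext x
    rw [mul_comm, Complex.mul_conj, Complex.normSq_eq_norm_sq]
  simp only [h3] at h1
  have h4 : Tendsto (fun N => ∫ x, ‖am ρ a v f w N x‖ ^ 2 ∂μ) (U : Filter ℕ) (𝓝 0) := by
    have h5 := (Complex.continuous_re.tendsto _).comp h1
    rw [Complex.zero_re] at h5
    exact h5
  have h5 := h4.eventually_lt_const hε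
  obtain ⟨N, hN1, hN2⟩ := (h5.and hUS).exists
  rw [hS] at hN2
  exact absurd hN1 (not_lt.2 hN2)

end

end Pool.Agent.H87.NC
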