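import Pool.Agent.H87.NC.LemR

/-! # The larger groups, and the domination lemma -/

set_option autoImplicit false
set_option linter.unusedSectionVars false

open MeasureTheory Filter Topology Set
open scoped ENNReal NNReal ComplexConjugate commutatorElement

namespace Pool.Agent.H87.NC

section

variable {Γ : Type} [Group Γ]

/-- the sequence `S^n V S^(-n)` -/
def cj (S V : Γ) (n : ℤ) : Γ := S ^ n * V * (S ^ n)⁻¹

theorem cj_comm {S c : Γ} (h : Commute c S) (n : ℤ) : cj S c n = c := by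
  unfold cj
  rw [← (h.zpow_right n).eq, mul_inv_cancel_right]

theorem cj_mul (S c v : Γ) (n : ℤ) : cj S (c * v) n = cj S c n * cj S v n := by
  unfold cj
  group

theorem cj_map {Γ' : Type} [Group Γ'] (φ : Γ →* Γ') (S v : Γ) (n : ℤ) :
    φ (cj S v n) = cj (φ S) (φ v) n := by
  unfold cj
  simp

/-- The domination lemma. -/
theorem dom {J J' : Type} [Fintype J] [Fintype J'] (S : Γ) (v : J → Γ) (v' : J' → Γ)
    (h : ∀ j, Commute (v j) S ∨ ∃ c j', Commute c S ∧ v j = c * v' j')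
    (hcv : Cv (fun j' => cj S (v' j'))) : Cv (fun j => cj S (v j)) := by
  classical
  have h1 : ∀ j, ∃ (c : Γ) (o : Option J'), Commute c S ∧ (o = none → v j = c) ∧
      ∀ j', o = some j' → v j = c * v' j' := by
    intro j
    rcases h j with h2 | ⟨c, j', hc, h2⟩
    · exact ⟨v j, none, h2, fun _ => rfl, fun j' h3 => (by cases h3)⟩
    · refine ⟨c, some j', hc, fun h3 => (by cases h3), fun j'' h3 => ?_⟩
      rw [← Option.some.inj h3]
      exact h2
  choose c o hc ho1 ho2 using h1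
  intro X _ μ _ ρ hρ F hF
  obtain ⟨P, hP⟩ : ∃ P : Option J' → X → ℂ, P = fun o' x =>
    ∏ j ∈ Finset.univ.filter (fun j => o j = o'), F j (ρ (c j) x) := ⟨_, rfl⟩
  have hPB : ∀ o', B1 (P o') := by
    intro o'
    rw [hP]
    exact B1.prod _ fun j _ => (hF j).comp (hρ.meas _)
  have h2 := hcv X μ ρ hρ (fun j' => P (some j')) (fun j' => hPB _)
  have e : ∀ N x, av0 ρ (fun j => cj S (v j)) F N x =
      P none x * av0 ρ (fun j' => cj S (v' j')) (fun j' => P (some j')) N x := by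
    intro N x
    unfold av0
    rw [mul_left_comm]
    congr 1
    rw [Finset.mul_sum]
    refine Finset.sum_congr rfl fun n _ => ?_
    unfold pr
    rw [← Finset.prod_fiberwise Finset.univ o, Fintype.prod_option]
    congr 1
    · rw [hP]
      refine Finset.prod_congr rfl fun j hj => ?_
      have hj' := (Finset.mem_filter.1 hj).2
      beta_reduce
      rw [ho1 j hj', cj_comm (hc j)]
    · refine Finset.prod_congr rfl fun j' _ => ?_
      rw [hP]
      refine Finset.prod_congr rfl fun j hj => ?_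
      have hj' := (Finset.mem_filter.1 hj).2
      beta_reduce
      rw [ho2 j j' hj', cj_mul, cj_comm (hc j), hρ.mul]
      rfl
  filter_upwards [h2] with x hx
  obtain ⟨l, hl⟩ := hx
  refine ⟨P none x * l, ?_⟩
  simp only [e]
  exact hl.const_mul _

/-- the averages for a finite set -/
def St (S : Γ) (F : Finset Γ) : Prop := Cv (fun v : F => cj S (v : Γ))

theorem st_tuple {J : Type} [Fintype J] {S : Γ} {F : Finset Γ} (h : St S F) (v : J → Γ)
    (hv : ∀ j, v j ∈ F) : Cv (fun j => cj S (v j)) :=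
  dom S v (fun u : F => (u : Γ)) (fun j => Or.inr ⟨1, ⟨v j, hv j⟩, Commute.one_left _, by simp⟩) h

theorem st_dom {S : Γ} {F F' : Finset Γ} (h : St S F')
    (hF : ∀ v ∈ F, Commute v S ∨ ∃ c, ∃ v' ∈ F', Commute c S ∧ v = c * v') : St S F := by
  refine dom S _ (fun u : F' => (u : Γ)) (fun v => ?_) h
  rcases hF v v.2 with h1 | ⟨c, v', hv', hc, h1⟩
  · exact Or.inl h1
  · exact Or.inr ⟨c, ⟨v', hv'⟩, hc, h1⟩

/-- class at most `c` -/
def NilC (c : ℕ) (Γ : Type) [Group Γ] : Prop := (⊤ : Subgroup Γ).lowerCentralSeries c = ⊥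

theorem lcs_map {Γ' : Type} [Group Γ'] (φ : Γ →* Γ') (n : ℕ) {x : Γ}
    (hx : x ∈ (⊤ : Subgroup Γ).lowerCentralSeries n) :
    φ x ∈ (⊤ : Subgroup Γ').lowerCentralSeries n := by
  have h1 := Subgroup.mem_map_of_mem φ hx
  rw [Subgroup.map_lowerCentralSeries] at h1
  exact Subgroup.lowerCentralSeries_mono n le_top h1

/-- centralizer and lower central series -/
def Hn (S : Γ) (n : ℕ) : Subgroup Γ := Subgroup.centralizer {S} ⊔ (⊤ : Subgroup Γ).lowerCentralSeries n

theorem mem_cent {S x : Γ} : x ∈ Subgroup.centralizer {S} ↔ Commute x S := by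
  rw [Subgroup.mem_centralizer_singleton_iff]
  exact ⟨fun h => h, fun h => h⟩

theorem Hn_zero (S : Γ) : Hn S 0 = ⊤ := by
  unfold Hn
  rw [Subgroup.lowerCentralSeries_zero, sup_top_eq]

theorem Hn_last {c : ℕ} (hΓ : NilC c Γ) (S : Γ) : Hn S c = Subgroup.centralizer {S} := by
  unfold Hn
  rw [hΓ, sup_bot_eq]

theorem Hn_anti (S : Γ) {n m : ℕ} (h : n ≤ m) : Hn S m ≤ Hn S n :=
  sup_le_sup_left ((⊤ : Subgroup Γ).lowerCentralSeries_antitone h) _

theorem Hn_map {Γ' : Type} [Group Γ'] (φ : Γ →* Γ') {S : Γ} {S' : Γ'} (hS : φ S = S') (n : ℕ)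
    {x : Γ} (hx : x ∈ Hn S n) : φ x ∈ Hn S' n := by
  unfold Hn at hx ⊢
  rw [Subgroup.mem_sup_of_normal_right] at hx
  obtain ⟨y, hy, z, hz, rfl⟩ := hx
  rw [map_mul]
  refine Subgroup.mul_mem _ (Subgroup.mem_sup_left ?_) (Subgroup.mem_sup_right (lcs_map φ n hz))
  rw [mem_cent] at hy ⊢
  rw [← hS]
  exact hy.map φ

/-- the relation -/
def Rl (S : Γ) (n : ℕ) (v w : Γ) : Prop := v * w⁻¹ ∈ Hn S n

theorem Rl.refl (S : Γ) (n : ℕ) (v : Γ) : Rl S n v v := by
  unfold Rl
  rw [mul_inv_cancel]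
  exact Subgroup.one_mem _

theorem Rl.symm {S : Γ} {n : ℕ} {v w : Γ} (h : Rl S n v w) : Rl S n w v := by
  unfold Rl at h ⊢
  have h1 := Subgroup.inv_mem _ h
  rwa [mul_inv_rev, inv_inv] at h1

theorem Rl.trans {S : Γ} {n : ℕ} {u v w : Γ} (h : Rl S n u v) (h' : Rl S n v w) : Rl S n u w := by
  unfold Rl at h h' ⊢
  have h1 := Subgroup.mul_mem _ h h'
  rwa [mul_assoc, inv_mul_cancel_left] at h1

theorem Rl.mono {S : Γ} {n m : ℕ} {v w : Γ} (h : Rl S m v w) (hnm : n ≤ m) : Rl S n v w :=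
  Hn_anti S hnm h

theorem Rl.map {Γ' : Type} [Group Γ'] (φ : Γ →* Γ') {S : Γ} {S' : Γ'} (hS : φ S = S') {n : ℕ}
    {v w : Γ} (h : Rl S n v w) : Rl S' n (φ v) (φ w) := by
  unfold Rl at h ⊢
  rw [← map_inv, ← map_mul]
  exact Hn_map φ hS n h

end

section

variable (Γ : Type) [Group Γ] (S : Γ) (r : ℕ)

/-- the generators of the larger group -/
def gn : Γ ⊕ Fin r → (Fin r → ℤ) → Γ := Sum.elim (fun g _ => g) (fun l k => S ^ k l)

/-- the larger group -/
abbrev GG : Type := (FreeGroup.lift (gn Γ S r)).range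

instance gg_countable [Countable Γ] : Countable (GG Γ S r) := by
  have h1 : (Set.range (FreeGroup.lift (gn Γ S r))).Countable := Set.countable_range _
  exact h1.to_subtype

theorem gg_nil {c : ℕ} (hΓ : NilC c Γ) : NilC c (GG Γ S r) := by
  unfold NilC
  rw [eq_bot_iff]
  intro x hx
  have h1 := lcs_map (Subgroup.subtype _) c hx
  rw [Subgroup.mem_bot]
  apply Subtype.ext
  have h2 := Subgroup.top_lowerCentralSeries_pi_le (Gs := fun _ : Fin r → ℤ => Γ) c h1
  funext k
  have h3 := (Subgroup.mem_pi _).1 h2 k (Set.mem_univ k)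
  rw [hΓ, Subgroup.mem_bot] at h3
  exact h3

variable {Γ}

/-- the constants -/
def io : Γ →* GG Γ S r :=
  MonoidHom.codRestrict (Pi.constMonoidHom (Fin r → ℤ) Γ) _ fun g =>
    ⟨FreeGroup.of (Sum.inl g), by
      rw [FreeGroup.lift_apply_of]
      rfl⟩

/-- the powers of `S` -/
def ss (l : Fin r) : GG Γ S r := ⟨fun k => S ^ k l, ⟨FreeGroup.of (Sum.inr l), by
  rw [FreeGroup.lift_apply_of]
  rfl⟩⟩

/-- the evaluations -/
def th (k : Fin r → ℤ) : GG Γ S r →* Γ :=
  (Pi.evalMonoidHom (fun _ : Fin r → ℤ => Γ) k).comp (Subgroup.subtype _)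

theorem th_io (k : Fin r → ℤ) (g : Γ) : th S r k (io S r g) = g := rfl

theorem th_ss (k : Fin r → ℤ) (l : Fin r) : th S r k (ss S r l) = S ^ k l := rfl

/-- the new elements -/
def wb (A B : Γ) (l : Fin r) : GG Γ S r :=
  ss S r l * io S r B * (io S r A)⁻¹ * (ss S r l)⁻¹ * io S r A

theorem th_wb (k : Fin r → ℤ) (A B : Γ) (l : Fin r) :
    th S r k (wb S r A B l) = S ^ k l * B * A⁻¹ * (S ^ k l)⁻¹ * A := rfl

/-- the new tuple -/
def wt {J : Type} (A : Γ) (V : J → Γ) : J ⊕ (Fin r × Option J) → GG Γ S r :=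
  Sum.elim (fun j => io S r (V j)) (fun p => wb S r A (p.2.elim 1 V) p.1)

theorem drv_wt {J : Type} [Fintype J] (A : Γ) (V : J → Γ) :
    Drv (cj S A) (fun j => cj S (V j)) r (th S r) (fun q => cj (io S r S) (wt S r A V q)) where
  const k j n := by
    rw [cj_map]
    rfl
  dist k l n := by
    rw [cj_map]
    unfold cj
    show (th S r k (io S r S)) ^ n * th S r k (wb S r A 1 l) * ((th S r k (io S r S)) ^ n)⁻¹ = _
    rw [th_io, th_wb]
    group
  rest k l j n := by
    rw [cj_map]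
    unfold cj
    show (th S r k (io S r S)) ^ n * th S r k (wb S r A (V j) l) *
      ((th S r k (io S r S)) ^ n)⁻¹ = _
    rw [th_io, th_wb]
    group

theorem ss_comm (l : Fin r) {c : Γ} (hc : Commute c S) : Commute (io S r c) (ss S r l) := by
  apply Subtype.ext
  funext k
  exact (hc.zpow_right (k l)).eq

/-- the classes of the new elements -/
theorem wb_rl {n : ℕ} {A B : Γ} (h : Rl S n B A) (l : Fin r) :
    Rl (io S r S) (n + 1) (wb S r A B l) (io S r B) := by
  unfold Rl Hn at h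
  rw [Subgroup.mem_sup_of_normal_right] at h
  obtain ⟨c, hc, γ, hγ, hcγ⟩ := h
  rw [mem_cent] at hc
  have h1 : B = c * γ * A := by
    rw [hcγ]
    group
  have h2 : wb S r A B l * (io S r B)⁻¹ =
      io S r c * ⁅ss S r l, io S r γ⁆ * (io S r c)⁻¹ := by
    unfold wb
    rw [h1, map_mul, map_mul, commutatorElement_def]
    have h3 := (ss_comm S r l hc).eq
    have h4 : ss S r l * (io S r c * io S r γ * io S r A) = io S r c * ss S r l * io S r γ * io S r A := by
      rw [h3]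
      group
    rw [h4]
    group
  unfold Rl Hn
  rw [h2]
  apply Subgroup.mem_sup_right
  apply Subgroup.Normal.conj_mem inferInstance
  rw [Subgroup.lowerCentralSeries_succ, ← inv_inv ⁅ss S r l, io S r γ⁆, commutatorElement_inv]
  exact Subgroup.inv_mem _ (Subgroup.commutator_mem_commutator (lcs_map (io S r) n hγ)
    (Subgroup.mem_top _))

end

end Pool.Agent.H87.NC
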