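import Pool.Agent.H87.NC.Core

/-! # Slow random rotations -/

set_option autoImplicit false
set_option linter.unusedSectionVars false

open MeasureTheory Filter Topology Set
open scoped ENNReal NNReal ComplexConjugate

namespace Pool.Agent.H87.NC

local instance : Fact ((0 : ℝ) < 1) := ⟨zero_lt_one⟩

/-- the circle -/
abbrev Ci : Type := AddCircle (1 : ℝ)

/-- the measure on the circle -/
noncomputable abbrev hm : Measure Ci := AddCircle.haarAddCircle

/-- the character -/
noncomputable def E1 (z : Ci) : ℂ := (AddCircle.toCircle z : ℂ)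

theorem E1_norm (z : Ci) : ‖E1 z‖ = 1 := Circle.norm_coe _

theorem E1_meas : Measurable E1 :=
  (continuous_subtype_val.comp AddCircle.continuous_toCircle).measurable

theorem E1_add (z w : Ci) : E1 (z + w) = E1 z * E1 w := by
  unfold E1
  rw [AddCircle.toCircle_add, Circle.coe_mul]

theorem E1_zsmul (n : ℤ) (α : Ci) : E1 (n • α) = fourier n α := by
  unfold E1
  rw [fourier_apply]

/-- half a turn -/
noncomputable def hf1 : Ci := ((1 / 2 : ℝ) : Ci)

theorem E1_half (z : Ci) : E1 (z + hf1) = - E1 z := by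
  rw [E1_add]
  have h1 : E1 hf1 = -1 := by
    unfold E1 hf1
    rw [AddCircle.toCircle_apply_mk, Circle.coe_exp]
    have h2 : ((2 * Real.pi / 1 * (1 / 2) : ℝ) : ℂ) * Complex.I = Real.pi * Complex.I := by
      push_cast
      ring
    rw [h2, Complex.exp_pi_mul_I]
  rw [h1]
  ring

theorem fourier_orth (n m : ℤ) : ∫ α : Ci, fourier n α * conj (fourier m α) ∂hm =
    if m = n then 1 else 0 := by
  have h1 := congrFun (fourierCoeff_fourier (T := (1 : ℝ)) n) m
  unfold fourierCoeff at h1
  have h2 : ∫ α : Ci, fourier n α * conj (fourier m α) ∂hm =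
      ∫ t : Ci, fourier (-m) t • fourier n t ∂hm := by
    congr 1
    funext t
    rw [fourier_neg, smul_eq_mul, mul_comm]
  rw [h2, h1, Pi.single_apply]

/-- Parseval for trigonometric polynomials -/
theorem pars (c : ℤ → ℂ) (s : Finset ℤ) :
    ∫ α : Ci, ‖∑ n ∈ s, c n * fourier n α‖ ^ 2 ∂hm = ∑ n ∈ s, ‖c n‖ ^ 2 := by
  have hF : ∀ n (α : Ci), ‖fourier n α‖ ≤ 1 := fun n α => by
    rw [← E1_zsmul, E1_norm]
  have hFm : ∀ n, Measurable (fun α : Ci => fourier n α) := fun n => (map_continuous _).measurable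
  have hi : ∀ n m, Integrable (fun α : Ci => c n * conj (c m) * (fourier n α * conj (fourier m α))) hm := by
    intro n m
    refine Integrable.const_mul ?_ _
    refine Integrable.of_bound ((hFm n).mul (Complex.continuous_conj.measurable.comp
      (hFm m))).aestronglyMeasurable 1 (ae_of_all _ fun α => ?_)
    rw [norm_mul, RCLike.norm_conj]
    exact mul_le_one₀ (hF n α) (norm_nonneg _) (hF m α)
  have h1 : ((∫ α : Ci, ‖∑ n ∈ s, c n * fourier n α‖ ^ 2 ∂hm : ℝ) : ℂ) =
      ((∑ n ∈ s, ‖c n‖ ^ 2 : ℝ) : ℂ) := by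
    rw [← integral_complex_ofReal]
    have e1 : (fun α : Ci => ((‖∑ n ∈ s, c n * fourier n α‖ ^ 2 : ℝ) : ℂ)) =
        fun α => ∑ n ∈ s, ∑ m ∈ s, c n * conj (c m) * (fourier n α * conj (fourier m α)) := by
      funext α
      rw [← Complex.normSq_eq_norm_sq, ← Complex.mul_conj, map_sum, Finset.sum_mul_sum]
      refine Finset.sum_congr rfl fun n _ => Finset.sum_congr rfl fun m _ => ?_
      rw [map_mul]
      ring
    rw [e1, integral_finsetSum _ fun n _ => integrable_finsetSum _ fun m _ => hi n m,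
      Complex.ofReal_sum]
    refine Finset.sum_congr rfl fun n hn => ?_
    rw [integral_finsetSum _ fun m _ => hi n m, Finset.sum_eq_single n]
    · rw [integral_const_mul, fourier_orth, if_pos rfl, mul_one, Complex.mul_conj,
        Complex.normSq_eq_norm_sq]
    · intro m _ hm
      rw [integral_const_mul, fourier_orth, if_neg hm, mul_zero]
    · exact fun h => absurd hn h
  exact_mod_cast h1

/-- laws of small rotation numbers -/
theorem law_exists (N : ℕ) (ε : ℝ) (hε : 0 < ε) : ∃ (κ : Measure Ci) (C : ℝ),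
    IsProbabilityMeasure κ ∧ (∀ᵐ α ∂κ, ∀ n ∈ iv N, ‖(fourier n α : ℂ) - 1‖ ≤ ε) ∧ 0 ≤ C ∧
    ∀ F : Ci → ℝ, Measurable F → (∀ α, 0 ≤ F α) → (∃ B, ∀ α, F α ≤ B) →
      ∫ α, F α ∂κ ≤ C * ∫ α, F α ∂hm := by
  obtain ⟨I, hI⟩ : ∃ I : Set Ci, I = ⋂ n ∈ iv N, {α | ‖(fourier n α : ℂ) - 1‖ < ε} := ⟨_, rfl⟩
  have hIo : IsOpen I := by
    rw [hI]
    refine isOpen_biInter_finset fun n _ => ?_
    exact isOpen_lt ((map_continuous (fourier n)).sub continuous_const).norm continuous_const
  have hI0 : (0 : Ci) ∈ I := by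
    rw [hI]
    simp only [mem_iInter, mem_ofPred_eq, fourier_eval_zero, sub_self, norm_zero]
    exact fun _ _ => hε
  have hpos : 0 < hm I := hIo.measure_pos _ ⟨0, hI0⟩
  have htop : hm I ≠ ∞ := measure_ne_top _ _
  refine ⟨(hm I)⁻¹ • hm.restrict I, ((hm I)⁻¹).toReal, ⟨?_⟩, ?_, ENNReal.toReal_nonneg, ?_⟩
  · rw [Measure.smul_apply, Measure.restrict_apply MeasurableSet.univ, univ_inter, smul_eq_mul]
    exact ENNReal.inv_mul_cancel hpos.ne' htop
  · refine Measure.ae_smul_measure ?_ _
    rw [ae_restrict_iff' hIo.measurableSet]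
    refine ae_of_all _ fun α hα n hn => ?_
    rw [hI] at hα
    simp only [mem_iInter] at hα
    exact (hα n hn).le
  · rintro F hF h0 ⟨B, hB⟩
    rw [integral_smul_measure, smul_eq_mul]
    apply mul_le_mul_of_nonneg_left _ ENNReal.toReal_nonneg
    refine setIntegral_le_integral ?_ (ae_of_all _ h0)
    refine Integrable.of_bound hF.aestronglyMeasurable B (ae_of_all _ fun α => ?_)
    rw [Real.norm_eq_abs, abs_of_nonneg (h0 α)]
    exact hB α

/-- the skew rotation -/
def rt : Equiv.Perm (Ci × Ci) where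
  toFun p := (p.1, p.2 + p.1)
  invFun p := (p.1, p.2 - p.1)
  left_inv p := by simp
  right_inv p := by simp

theorem rt_zpow (n : ℤ) (p : Ci × Ci) : (rt ^ n) p = (p.1, p.2 + n • p.1) := by
  have h1 : ∀ (n : ℕ) (p : Ci × Ci), (rt ^ n) p = (p.1, p.2 + n • p.1) := by
    intro n
    induction n with
    | zero => intro p; simp
    | succ n ih =>
      intro p
      rw [pow_succ, Equiv.Perm.mul_apply, ih]
      show (p.1, p.2 + p.1 + n • p.1) = _
      rw [succ_nsmul']
      ext
      · rfl
      · simp only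
        abel
  rcases Int.eq_nat_or_neg n with ⟨k, rfl | rfl⟩
  · rw [zpow_natCast, h1, natCast_zsmul]
  · rw [zpow_neg, zpow_natCast]
    apply (rt ^ k).injective
    rw [← Equiv.Perm.mul_apply, mul_inv_cancel, h1]
    ext
    · rfl
    · simp only [neg_smul, natCast_zsmul]
      abel

theorem rt_mp (κ : Measure Ci) [IsProbabilityMeasure κ] :
    MeasurePreserving rt (κ.prod hm) (κ.prod hm) := by
  have h1 : Measurable (Function.uncurry fun (α z : Ci) => z + α) := by
    exact measurable_snd.add measurable_fst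
  exact (MeasurePreserving.id κ).skew_product (g := fun α z => z + α) h1
    (ae_of_all _ fun α => (measurePreserving_add_right hm α).map_eq)

theorem rt_inv : Measurable rt.symm := by
  show Measurable fun p : Ci × Ci => (p.1, p.2 - p.1)
  exact measurable_fst.prodMk (measurable_snd.sub measurable_fst)

/-- the flip -/
noncomputable def fl (p : Ci × Ci) : Ci × Ci := (p.1, p.2 + hf1)

theorem fl_mp (κ : Measure Ci) [IsProbabilityMeasure κ] :
    MeasurePreserving fl (κ.prod hm) (κ.prod hm) :=
  (MeasurePreserving.id κ).prod (measurePreserving_add_right hm hf1)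

/-- the product system -/
abbrev Zp : Type := ℕ → Ci × Ci

/-- the map on the product -/
def TZ : Equiv.Perm Zp := Equiv.piCongrRight fun _ => rt

theorem TZ_zpow (n : ℤ) (z : Zp) (k : ℕ) : (TZ ^ n) z k = (rt ^ n) (z k) := by
  have h1 : ∀ (n : ℕ) (z : Zp), (TZ ^ n) z k = (rt ^ n) (z k) := by
    intro n
    induction n with
    | zero => intro z; simp
    | succ n ih =>
      intro z
      rw [pow_succ, Equiv.Perm.mul_apply, ih, pow_succ, Equiv.Perm.mul_apply]
      rfl
  rcases Int.eq_nat_or_neg n with ⟨m, rfl | rfl⟩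
  · rw [zpow_natCast, zpow_natCast, h1]
  · rw [zpow_neg, zpow_natCast, zpow_neg, zpow_natCast]
    apply (rt ^ m).injective
    rw [← h1, ← Equiv.Perm.mul_apply, ← Equiv.Perm.mul_apply, mul_inv_cancel, mul_inv_cancel]
    rfl

open Classical in
/-- the flip of one coordinate -/
noncomputable def flk (k : ℕ) (z : Zp) (i : ℕ) : Ci × Ci := if i = k then fl (z i) else z i

section

variable (κ : ℕ → Measure Ci) [∀ k, IsProbabilityMeasure (κ k)]

/-- the product measure -/
noncomputable abbrev nuz : Measure Zp := Measure.infinitePi fun k => (κ k).prod hm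

theorem TZ_mp : MeasurePreserving TZ (nuz κ) (nuz κ) := by
  have hmr : Measurable rt := (rt_mp (κ 0)).measurable
  refine ⟨?_, ?_⟩
  · refine measurable_pi_iff.2 fun k => ?_
    exact hmr.comp (measurable_pi_apply k)
  · have h1 := Measure.infinitePi_map_pi (μ := fun k => (κ k).prod hm) (f := fun _ : ℕ => rt)
      (fun _ => hmr)
    have h2 : (fun k => ((κ k).prod hm).map rt) = fun k => (κ k).prod hm := by
      funext k
      exact (rt_mp (κ k)).map_eq
    rw [h2] at h1
    exact h1

theorem TZ_inv : Measurable TZ.symm := by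
  refine measurable_pi_iff.2 fun k => ?_
  exact rt_inv.comp (measurable_pi_apply k)

theorem flk_mp (k : ℕ) : MeasurePreserving (flk k) (nuz κ) (nuz κ) := by
  classical
  obtain ⟨F, hF⟩ : ∃ F : ℕ → Ci × Ci → Ci × Ci, F = fun i => if i = k then fl else id := ⟨_, rfl⟩
  have hFm : ∀ i, MeasurePreserving (F i) ((κ i).prod hm) ((κ i).prod hm) := by
    intro i
    rw [hF]
    by_cases hi : i = k
    · simp only [if_pos hi]
      exact fl_mp (κ i)
    · simp only [if_neg hi]
      exact MeasurePreserving.id _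
  have e : flk k = fun z i => F i (z i) := by
    funext z i
    rw [hF]
    unfold flk
    by_cases hi : i = k
    · simp only [if_pos hi]
    · simp only [if_neg hi, id]
  rw [e]
  refine ⟨measurable_pi_iff.2 fun i => (hFm i).measurable.comp (measurable_pi_apply i), ?_⟩
  have h1 := Measure.infinitePi_map_pi (μ := fun k => (κ k).prod hm) (f := F)
    (fun i => (hFm i).measurable)
  have h2 : (fun i => ((κ i).prod hm).map (F i)) = fun i => (κ i).prod hm := by
    funext i
    exact (hFm i).map_eq
  rw [h2] at h1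
  exact h1

theorem ev_mp (k : ℕ) : MeasurePreserving (fun z : Zp => (z k).1) (nuz κ) (κ k) :=
  (measurePreserving_fst (μ := κ k) (ν := hm)).comp
    (measurePreserving_eval_infinitePi (fun k => (κ k).prod hm) k)

end

end Pool.Agent.H87.NC
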