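import Pool.Agent.H87.NC.HumpA
import Pool.Agent.H87.NC.Def

/-! # The random function -/

set_option autoImplicit false
set_option linter.unusedSectionVars false

open MeasureTheory Filter Topology Set
open scoped ENNReal NNReal ComplexConjugate

namespace Pool.Agent.H87.NC

section

variable {X : Type}

/-- frequency of visits -/
noncomputable def rs (t : ℤ → X → X) (E : Set X) (N : ℕ) (x : X) : ℝ :=
  ((2 * N + 1 : ℕ) : ℝ)⁻¹ * ∑ n ∈ iv N, E.indicator (fun _ => (1 : ℝ)) (t n x)

theorem ind_nonneg (E : Set X) (x : X) : 0 ≤ E.indicator (fun _ => (1 : ℝ)) x :=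
  indicator_nonneg (fun _ _ => zero_le_one) _

theorem ind_le (E : Set X) (x : X) : E.indicator (fun _ => (1 : ℝ)) x ≤ 1 := by
  by_cases h : x ∈ E
  · rw [indicator_of_mem h]
  · rw [indicator_of_notMem h]
    exact zero_le_one

theorem rs_nonneg (t : ℤ → X → X) (E : Set X) (N : ℕ) (x : X) : 0 ≤ rs t E N x :=
  mul_nonneg (by positivity) (Finset.sum_nonneg fun n _ => ind_nonneg _ _)

theorem rs_pos {t : ℤ → X → X} {E : Set X} {N : ℕ} {x : X} (h : 0 < rs t E N x) :
    ∃ n ∈ iv N, t n x ∈ E := by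
  by_contra hcon
  push Not at hcon
  have h1 : rs t E N x = 0 := by
    unfold rs
    rw [Finset.sum_eq_zero, mul_zero]
    intro n hn
    exact indicator_of_notMem (hcon n hn) _
  rw [h1] at h
  exact lt_irrefl _ h

theorem rs_le (t : ℤ → X → X) (E : Set X) (N : ℕ) (x : X) : rs t E N x ≤ 1 := by
  unfold rs
  have h1 : ∑ n ∈ iv N, E.indicator (fun _ => (1 : ℝ)) (t n x) ≤ ∑ n ∈ iv N, (1 : ℝ) :=
    Finset.sum_le_sum fun n _ => ind_le _ _
  rw [Finset.sum_const, card_iv, nsmul_eq_mul, mul_one] at h1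
  calc ((2 * N + 1 : ℕ) : ℝ)⁻¹ * ∑ n ∈ iv N, E.indicator (fun _ => (1 : ℝ)) (t n x)
      ≤ ((2 * N + 1 : ℕ) : ℝ)⁻¹ * ((2 * N + 1 : ℕ) : ℝ) :=
        mul_le_mul_of_nonneg_left h1 (by positivity)
    _ = 1 := inv_mul_cancel₀ (by positivity)

/-- averages on the product -/
noncomputable def avZ {Z : Type} (t : ℤ → X → X) (T : Equiv.Perm Z) (F : X × Z → ℂ) (N : ℕ)
    (p : X × Z) : ℂ :=
  cc N * ∑ n ∈ iv N, F (t n p.1, (T ^ n) p.2)

open Classical in
/-- the random function -/
noncomputable def WW (D : ℕ → Set X) (p : X × Zp) : ℂ :=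
  if h : ∃ k, p.1 ∈ D k then E1 (p.2 h.choose).2 else 0

/-- one piece of it -/
noncomputable def ww (D : ℕ → Set X) (k : ℕ) (p : X × Zp) : ℂ :=
  (D k).indicator (fun _ => E1 (p.2 k).2) p.1

variable {D : ℕ → Set X}

theorem WW_in (hD : ∀ i j x, x ∈ D i → x ∈ D j → i = j) {k : ℕ} {p : X × Zp}
    (h : p.1 ∈ D k) : WW D p = E1 (p.2 k).2 := by
  have h1 : ∃ k, p.1 ∈ D k := ⟨k, h⟩
  unfold WW
  rw [dif_pos h1, hD _ _ _ h1.choose_spec h]

theorem WW_out {p : X × Zp} (h : ∀ k, p.1 ∉ D k) : WW D p = 0 := by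
  unfold WW
  rw [dif_neg (by push Not; exact h)]

theorem WW_split (hD : ∀ i j x, x ∈ D i → x ∈ D j → i = j) (J : ℕ) (p : X × Zp) {F : Set X}
    (hF : ∀ k, J ≤ k → D k ⊆ F) :
    ‖WW D p - ∑ k ∈ Finset.range J, ww D k p‖ ≤ F.indicator (fun _ => (1 : ℝ)) p.1 := by
  by_cases h : ∃ k, p.1 ∈ D k
  · obtain ⟨k, hk⟩ := h
    rw [WW_in hD hk]
    by_cases hJ : k < J
    · rw [Finset.sum_eq_single k]
      · unfold ww
        rw [indicator_of_mem hk, sub_self, norm_zero]
        exact ind_nonneg _ _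
      · intro j _ hj
        unfold ww
        exact indicator_of_notMem (fun h => hj (hD _ _ _ h hk)) _
      · intro h
        exact absurd (Finset.mem_range.2 hJ) h
    · rw [Finset.sum_eq_zero, sub_zero, E1_norm, indicator_of_mem (hF k (not_lt.1 hJ) hk)]
      intro j hj
      unfold ww
      refine indicator_of_notMem (fun h => ?_) _
      have := hD _ _ _ h hk
      rw [Finset.mem_range] at hj
      omega
  · push Not at h
    rw [WW_out h, Finset.sum_eq_zero, sub_zero, norm_zero]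
    · exact ind_nonneg _ _
    · intro j _
      exact indicator_of_notMem (h j) _

theorem avZ_ww (t : ℤ → X → X) (D : ℕ → Set X) (k N : ℕ) (p : X × Zp) :
    avZ t TZ (ww D k) N p = E1 (p.2 k).2 *
      (cc N * ∑ n ∈ iv N, (D k).indicator (fun _ => (1 : ℂ)) (t n p.1) * fourier n (p.2 k).1) := by
  unfold avZ
  rw [mul_left_comm (E1 _)]
  congr 1
  rw [Finset.mul_sum]
  refine Finset.sum_congr rfl fun n _ => ?_
  unfold ww
  simp only
  rw [TZ_zpow, rt_zpow]
  by_cases h : t n p.1 ∈ D k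
  · rw [indicator_of_mem h, indicator_of_mem h, E1_add, E1_zsmul]
    ring
  · rw [indicator_of_notMem h, indicator_of_notMem h]
    ring

theorem flk_self (k : ℕ) (z : Zp) : flk k z k = fl (z k) := by
  unfold flk
  rw [if_pos rfl]

theorem flk_ne {k i : ℕ} (h : i ≠ k) (z : Zp) : flk k z i = z i := by
  unfold flk
  rw [if_neg h]

theorem TZ_flk (k : ℕ) (n : ℤ) (z : Zp) : (TZ ^ n) (flk k z) = flk k ((TZ ^ n) z) := by
  funext i
  rw [TZ_zpow]
  by_cases h : i = k
  · subst h
    rw [flk_self, flk_self, TZ_zpow, rt_zpow, rt_zpow]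
    unfold fl
    ext
    · rfl
    · simp only
      abel
  · rw [flk_ne h, flk_ne h, TZ_zpow]

theorem WW_flk (hD : ∀ i j x, x ∈ D i → x ∈ D j → i = j) (k : ℕ) (x : X) (z : Zp) :
    WW D (x, z) - WW D (x, flk k z) = 2 * ww D k (x, z) := by
  by_cases h : ∃ j, x ∈ D j
  · obtain ⟨j, hj⟩ := h
    rw [WW_in hD (p := (x, z)) hj, WW_in hD (p := (x, flk k z)) hj]
    unfold ww
    by_cases hk : j = k
    · subst hk
      rw [indicator_of_mem hj]
      simp only
      rw [flk_self]
      unfold fl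
      simp only
      rw [E1_half]
      ring
    · rw [indicator_of_notMem (fun h => hk (hD _ _ _ hj h))]
      simp only
      rw [flk_ne hk]
      ring
  · push Not at h
    rw [WW_out (p := (x, z)) h, WW_out (p := (x, flk k z)) h]
    unfold ww
    rw [indicator_of_notMem (h k)]
    ring

theorem avZ_flk (t : ℤ → X → X) (hD : ∀ i j x, x ∈ D i → x ∈ D j → i = j) (k N : ℕ) (x : X)
    (z : Zp) : avZ t TZ (WW D) N (x, z) - avZ t TZ (WW D) N (x, flk k z) =
      2 * avZ t TZ (ww D k) N (x, z) := by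
  unfold avZ
  rw [← mul_sub, ← Finset.sum_sub_distrib, mul_left_comm 2]
  congr 1
  rw [Finset.mul_sum]
  refine Finset.sum_congr rfl fun n _ => ?_
  simp only
  rw [TZ_flk, WW_flk hD]

theorem hump_flip {t : ℤ → X → X} (hD : ∀ i j x, x ∈ D i → x ∈ D j → i = j) {k N : ℕ} {ε : ℝ}
    (hε : 0 < ε) {x : X} {z : Zp}
    (hz : ∀ n ∈ iv N, ‖(fourier n (z k).1 : ℂ) - 1‖ ≤ ε / 4) (hx : ε < rs t (D k) N x) :
    ε / 2 < ‖avZ t TZ (WW D) N (x, z)‖ ∨ ε / 2 < ‖avZ t TZ (WW D) N (x, flk k z)‖ := by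
  by_contra hcon
  push Not at hcon
  obtain ⟨h1, h2⟩ := hcon
  have h3 := norm_sub_le (avZ t TZ (WW D) N (x, z)) (avZ t TZ (WW D) N (x, flk k z))
  rw [avZ_flk t hD, avZ_ww, norm_mul, norm_mul, E1_norm, one_mul] at h3
  simp only at h3
  have h4 : cc N * ∑ n ∈ iv N, (D k).indicator (fun _ => (1 : ℂ)) (t n x) * fourier n (z k).1 =
      ((rs t (D k) N x : ℝ) : ℂ) + cc N * ∑ n ∈ iv N, (D k).indicator (fun _ => (1 : ℂ)) (t n x) *
        ((fourier n (z k).1 : ℂ) - 1) := by
    have h5 : ((rs t (D k) N x : ℝ) : ℂ) = cc N * ∑ n ∈ iv N, (D k).indicator (fun _ => (1 : ℂ)) (t n x) := by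
      unfold rs cc
      push_cast
      congr 1
      refine Finset.sum_congr rfl fun n _ => ?_
      by_cases h : t n x ∈ D k
      · rw [indicator_of_mem h, indicator_of_mem h]
        norm_num
      · rw [indicator_of_notMem h, indicator_of_notMem h]
        norm_num
    rw [h5, ← mul_add, ← Finset.sum_add_distrib]
    congr 1
    refine Finset.sum_congr rfl fun n _ => ?_
    ring
  rw [h4] at h3
  have h5 : ‖cc N * ∑ n ∈ iv N, (D k).indicator (fun _ => (1 : ℂ)) (t n x) *
        ((fourier n (z k).1 : ℂ) - 1)‖ ≤ ε / 4 := by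
    apply cc_sum
    intro n hn
    by_cases h : t n x ∈ D k
    · rw [indicator_of_mem h, one_mul]
      exact hz n hn
    · rw [indicator_of_notMem h, zero_mul, norm_zero]
      positivity
  have h6 := norm_sub_le (((rs t (D k) N x : ℝ) : ℂ) + cc N * ∑ n ∈ iv N,
    (D k).indicator (fun _ => (1 : ℂ)) (t n x) * ((fourier n (z k).1 : ℂ) - 1))
    (cc N * ∑ n ∈ iv N, (D k).indicator (fun _ => (1 : ℂ)) (t n x) * ((fourier n (z k).1 : ℂ) - 1))
  rw [add_sub_cancel_right, Complex.norm_real, Real.norm_eq_abs] at h6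
  have h7 := le_abs_self (rs t (D k) N x)
  have h8 : ‖(2 : ℂ)‖ = 2 := by norm_num
  rw [h8] at h3
  linarith

end

section

variable {X : Type} [MeasurableSpace X] {μ : Measure X} {D : ℕ → Set X}

theorem rs_meas {t : ℤ → X → X} (ht : ∀ n, Measurable (t n)) {E : Set X} (hE : MeasurableSet E)
    (N : ℕ) : Measurable (rs t E N) := by
  unfold rs
  exact (Finset.measurable_sum _ fun n _ => (measurable_const.indicator hE).comp (ht n)).const_mul _

theorem rs_int [IsProbabilityMeasure μ] {t : ℤ → X → X} (ht : ∀ n, MeasurePreserving (t n) μ μ)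
    {E : Set X} (hE : MeasurableSet E) (N : ℕ) : ∫ x, rs t E N x ∂μ = μ.real E := by
  have hm : Measurable (E.indicator (fun _ => (1 : ℝ))) := measurable_const.indicator hE
  have hi : ∀ n, Integrable (fun x => E.indicator (fun _ => (1 : ℝ)) (t n x)) μ := by
    intro n
    refine Integrable.of_bound (hm.comp (ht n).measurable).aestronglyMeasurable 1
      (ae_of_all _ fun x => ?_)
    rw [Real.norm_eq_abs, abs_of_nonneg (ind_nonneg _ _)]
    exact ind_le _ _
  unfold rs
  rw [integral_const_mul, integral_finsetSum _ fun n _ => hi n]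
  have h1 : ∀ n : ℤ, ∫ x, E.indicator (fun _ => (1 : ℝ)) (t n x) ∂μ = μ.real E := by
    intro n
    have h2 := integral_map (μ := μ) (ht n).measurable.aemeasurable (f := E.indicator (fun _ => (1 : ℝ)))
      hm.aestronglyMeasurable
    rw [(ht n).map_eq] at h2
    rw [← h2, integral_indicator_const _ hE, smul_eq_mul, mul_one]
  simp only [h1]
  rw [Finset.sum_const, card_iv, nsmul_eq_mul, ← mul_assoc, inv_mul_cancel₀, one_mul]
  positivity

theorem ww_B1 (hDm : ∀ k, MeasurableSet (D k)) (k : ℕ) : B1 (ww D k) := by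
  constructor
  · have e : ww D k = (Prod.fst ⁻¹' (D k)).indicator (fun p : X × Zp => E1 (p.2 k).2) := by
      funext p
      unfold ww
      by_cases h : p.1 ∈ D k
      · rw [indicator_of_mem h, indicator_of_mem (show p ∈ Prod.fst ⁻¹' (D k) from h)]
      · rw [indicator_of_notMem h, indicator_of_notMem (show p ∉ Prod.fst ⁻¹' (D k) from h)]
    rw [e]
    refine Measurable.indicator ?_ (measurable_fst (hDm k))
    exact E1_meas.comp (measurable_snd.comp ((measurable_pi_apply k).comp measurable_snd))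
  · intro p
    unfold ww
    by_cases h : p.1 ∈ D k
    · rw [indicator_of_mem h, E1_norm]
    · rw [indicator_of_notMem h, norm_zero]
      exact zero_le_one

theorem WW_B1 (hD : ∀ i j x, x ∈ D i → x ∈ D j → i = j) (hDm : ∀ k, MeasurableSet (D k)) :
    B1 (WW D) := by
  constructor
  · refine measurable_of_tendsto_metrizable (f := fun J p => ∑ k ∈ Finset.range J, ww D k p)
      (fun J => Finset.measurable_sum _ fun k _ => (ww_B1 hDm k).1) (tendsto_pi_nhds.2 fun p => ?_)
    have hev : ∀ᶠ J : ℕ in atTop, ∀ k, J ≤ k → p.1 ∉ D k := by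
      by_cases h : ∃ k, p.1 ∈ D k
      · obtain ⟨k, hk⟩ := h
        filter_upwards [eventually_ge_atTop (k + 1)] with J hJ j hj hpj
        have := hD _ _ _ hk hpj
        omega
      · push Not at h
        exact Eventually.of_forall fun _ k _ => h k
    refine tendsto_const_nhds.congr' ?_
    filter_upwards [hev] with J hJ
    have h1 := WW_split hD J p (F := {x | ∃ k, J ≤ k ∧ x ∈ D k}) (fun k hk x hx => ⟨k, hk, hx⟩)
    rw [indicator_of_notMem (by
      rintro ⟨k, hk, hx⟩
      exact hJ k hk hx)] at h1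
    have h2 := norm_le_zero_iff.1 h1
    exact sub_eq_zero.1 h2
  · intro p
    by_cases h : ∃ k, p.1 ∈ D k
    · obtain ⟨k, hk⟩ := h
      rw [WW_in hD hk, E1_norm]
    · push Not at h
      rw [WW_out h, norm_zero]
      exact zero_le_one

theorem tz_meas (n : ℤ) : Measurable (⇑(TZ ^ n) : Zp → Zp) := by
  refine measurable_pi_iff.2 fun k => ?_
  have e : (fun z : Zp => (TZ ^ n) z k) = fun z => ((z k).1, (z k).2 + n • (z k).1) := by
    funext z
    rw [TZ_zpow, rt_zpow]
  rw [e]
  have h1 : Measurable fun z : Zp => z k := measurable_pi_apply k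
  have h2 : Measurable fun α : Ci => n • α := (continuous_zsmul n).measurable
  exact (measurable_fst.comp h1).prodMk ((measurable_snd.comp h1).add
    (h2.comp (measurable_fst.comp h1)))

theorem avZ_B1 {t : ℤ → X → X} (ht : ∀ n, Measurable (t n)) {F : X × Zp → ℂ} (hF : B1 F) (N : ℕ) :
    B1 (avZ t TZ F N) :=
  cc_B1 N fun n => hF.comp (((ht n).comp measurable_fst).prodMk ((tz_meas n).comp measurable_snd))

theorem B1.sq_int {Y : Type} [MeasurableSpace Y] {ν : Measure Y} [IsProbabilityMeasure ν] {f : Y → ℂ}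
    (hf : B1 f) : Integrable (fun y => ‖f y‖ ^ 2) ν :=
  (hf.bm.memLp 2).integrable_norm_pow (by norm_num)

end

end Pool.Agent.H87.NC
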