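import Pool.Agent.H87.NC.HumpB

/-! # The maximal inequality from the null case -/

set_option autoImplicit false
set_option linter.unusedSectionVars false

open MeasureTheory Filter Topology Set
open scoped ENNReal NNReal ComplexConjugate

namespace Pool.Agent.H87.NC

section

variable {X : Type} [MeasurableSpace X] {μ : Measure X} {D : ℕ → Set X}

/-- the law dominates -/
def Dom (κ : Measure Ci) (C : ℝ) : Prop :=
  0 ≤ C ∧ ∀ F : Ci → ℝ, Measurable F → (∀ α, 0 ≤ F α) → (∃ B, ∀ α, F α ≤ B) →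
      ∫ α, F α ∂κ ≤ C * ∫ α, F α ∂hm

theorem ww_int [IsProbabilityMeasure μ] (κ : ℕ → Measure Ci) [∀ k, IsProbabilityMeasure (κ k)]
    {C : ℝ} {k : ℕ} (hC : Dom (κ k) C) {t : ℤ → X → X} (ht : ∀ n, Measurable (t n))
    (hDm : ∀ k, MeasurableSet (D k)) (N : ℕ) :
    ∫ p, ‖avZ t TZ (ww D k) N p‖ ^ 2 ∂(μ.prod (nuz κ)) ≤ C * ((2 * N + 1 : ℕ) : ℝ)⁻¹ := by
  have hB := avZ_B1 ht (ww_B1 hDm k) N
  rw [integral_prod _ hB.sq_int]
  have h1 : ∀ x : X, ∫ z, ‖avZ t TZ (ww D k) N (x, z)‖ ^ 2 ∂(nuz κ) ≤ C * ((2 * N + 1 : ℕ) : ℝ)⁻¹ := by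
    intro x
    obtain ⟨G, hG⟩ : ∃ G : Ci → ℝ, G = fun α => ‖∑ n ∈ iv N,
      (cc N * (D k).indicator (fun _ => (1 : ℂ)) (t n x)) * fourier n α‖ ^ 2 := ⟨_, rfl⟩
    have hGm : Measurable G := by
      rw [hG]
      exact (Finset.measurable_sum _ fun n _ => (map_continuous (fourier n)).measurable.const_mul _).norm.pow_const 2
    have e : ∀ z : Zp, ‖avZ t TZ (ww D k) N (x, z)‖ ^ 2 = G (z k).1 := by
      intro z
      rw [avZ_ww, norm_mul, E1_norm, one_mul, hG, Finset.mul_sum]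
      simp only [mul_assoc]
    simp only [e]
    have h2 := integral_map (μ := nuz κ) (ev_mp κ k).measurable.aemeasurable (f := G)
      hGm.aestronglyMeasurable
    rw [(ev_mp κ k).map_eq] at h2
    rw [← h2]
    have hcn : ∀ n, ‖cc N * (D k).indicator (fun _ => (1 : ℂ)) (t n x)‖ ≤ ((2 * N + 1 : ℕ) : ℝ)⁻¹ := by
      intro n
      rw [norm_mul, cc_norm]
      by_cases h : t n x ∈ D k
      · rw [indicator_of_mem h, norm_one, mul_one]
      · rw [indicator_of_notMem h, norm_zero, mul_zero]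
        positivity
    have hGb : ∀ α, G α ≤ 1 := by
      intro α
      have h3 : G α = ‖∑ n ∈ iv N,
        (cc N * (D k).indicator (fun _ => (1 : ℂ)) (t n x)) * fourier n α‖ ^ 2 := by rw [hG]
      rw [h3]
      have h4 : ∑ n ∈ iv N, (cc N * (D k).indicator (fun _ => (1 : ℂ)) (t n x)) * fourier n α =
          cc N * ∑ n ∈ iv N, (D k).indicator (fun _ => (1 : ℂ)) (t n x) * fourier n α := by
        rw [Finset.mul_sum]
        simp only [mul_assoc]
      rw [h4]
      have h5 := cc_sum N (q := fun n => (D k).indicator (fun _ => (1 : ℂ)) (t n x) * fourier n α)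
        (C := 1) (by
          intro n _
          rw [norm_mul, ← E1_zsmul, E1_norm, mul_one]
          by_cases h : t n x ∈ D k
          · rw [indicator_of_mem h, norm_one]
          · rw [indicator_of_notMem h, norm_zero]
            exact zero_le_one)
      exact pow_le_one₀ (norm_nonneg _) h5
    refine (hC.2 G hGm (fun α => by rw [hG]; positivity) ⟨1, hGb⟩).trans ?_
    apply mul_le_mul_of_nonneg_left _ hC.1
    rw [hG, pars]
    calc ∑ n ∈ iv N, ‖cc N * (D k).indicator (fun _ => (1 : ℂ)) (t n x)‖ ^ 2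
        ≤ ∑ n ∈ iv N, (((2 * N + 1 : ℕ) : ℝ)⁻¹) ^ 2 :=
          Finset.sum_le_sum fun n _ => pow_le_pow_left₀ (norm_nonneg _) (hcn n) 2
      _ = ((2 * N + 1 : ℕ) : ℝ)⁻¹ := by
          rw [Finset.sum_const, card_iv, nsmul_eq_mul, sq, ← mul_assoc, mul_inv_cancel₀, one_mul]
          positivity
  calc ∫ x, ∫ z, ‖avZ t TZ (ww D k) N (x, z)‖ ^ 2 ∂(nuz κ) ∂μ
      ≤ ∫ x, C * ((2 * N + 1 : ℕ) : ℝ)⁻¹ ∂μ :=
        integral_mono hB.sq_int.integral_prod_left (integrable_const _) h1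
    _ = C * ((2 * N + 1 : ℕ) : ℝ)⁻¹ := by simp

theorem hump_null [IsProbabilityMeasure μ] (κ : ℕ → Measure Ci) [∀ k, IsProbabilityMeasure (κ k)]
    (C : ℕ → ℝ) (hC : ∀ k, Dom (κ k) (C k)) {t : ℤ → X → X}
    (ht : ∀ n, MeasurePreserving (t n) μ μ) (hD : ∀ i j x, x ∈ D i → x ∈ D j → i = j)
    (hDm : ∀ k, MeasurableSet (D k)) (F : ℕ → Set X) (hFm : ∀ J, MeasurableSet (F J))
    (hF : ∀ J k, J ≤ k → D k ⊆ F J) (hF0 : Tendsto (fun J => μ.real (F J)) atTop (𝓝 0)) :
    Tendsto (fun N => ∫ p, ‖avZ t TZ (WW D) N p‖ ^ 2 ∂(μ.prod (nuz κ))) atTop (𝓝 0) := by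
  have htm : ∀ n, Measurable (t n) := fun n => (ht n).measurable
  have hB : ∀ k N, B1 (avZ t TZ (ww D k) N) := fun k N => avZ_B1 htm (ww_B1 hDm k) N
  have hWB := WW_B1 hD hDm
  have key : ∀ J N : ℕ, ∫ p, ‖avZ t TZ (WW D) N p‖ ^ 2 ∂(μ.prod (nuz κ)) ≤
      2 * (J * ∑ k ∈ Finset.range J, C k * ((2 * N + 1 : ℕ) : ℝ)⁻¹) + 2 * μ.real (F J) := by
    intro J N
    have hrs : Integrable (fun p : X × Zp => rs t (F J) N p.1) (μ.prod (nuz κ)) := by
      refine Integrable.of_bound ((rs_meas htm (hFm J) N).comp measurable_fst).aestronglyMeasurable 1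
        (ae_of_all _ fun p => ?_)
      rw [Real.norm_eq_abs, abs_of_nonneg (rs_nonneg _ _ _ _)]
      exact rs_le _ _ _ _
    have hrsi : ∫ p : X × Zp, rs t (F J) N p.1 ∂(μ.prod (nuz κ)) = μ.real (F J) := by
      rw [integral_fun_fst (μ := μ) (ν := nuz κ) (f := rs t (F J) N), rs_int ht (hFm J)]
      simp
    have hpt : ∀ p, ‖avZ t TZ (WW D) N p‖ ^ 2 ≤
        2 * (J * ∑ k ∈ Finset.range J, ‖avZ t TZ (ww D k) N p‖ ^ 2) + 2 * rs t (F J) N p.1 := by
      intro p
      have h1 : ‖avZ t TZ (WW D) N p - ∑ k ∈ Finset.range J, avZ t TZ (ww D k) N p‖ ≤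
          rs t (F J) N p.1 := by
        have h2 : avZ t TZ (WW D) N p - ∑ k ∈ Finset.range J, avZ t TZ (ww D k) N p =
            cc N * ∑ n ∈ iv N, (WW D (t n p.1, (TZ ^ n) p.2) -
              ∑ k ∈ Finset.range J, ww D k (t n p.1, (TZ ^ n) p.2)) := by
          unfold avZ
          rw [← Finset.mul_sum, ← mul_sub, Finset.sum_comm, ← Finset.sum_sub_distrib]
        rw [h2, norm_mul, cc_norm]
        unfold rs
        apply mul_le_mul_of_nonneg_left _ (by positivity)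
        refine (norm_sum_le _ _).trans (Finset.sum_le_sum fun n _ => ?_)
        exact WW_split hD J (t n p.1, (TZ ^ n) p.2) (hF J)
      have h3 : ‖avZ t TZ (WW D) N p‖ ≤ ‖∑ k ∈ Finset.range J, avZ t TZ (ww D k) N p‖ +
          rs t (F J) N p.1 := by
        have h4 := norm_add_le (avZ t TZ (WW D) N p - ∑ k ∈ Finset.range J, avZ t TZ (ww D k) N p)
          (∑ k ∈ Finset.range J, avZ t TZ (ww D k) N p)
        rw [sub_add_cancel] at h4
        linarith
      have h5 : ‖∑ k ∈ Finset.range J, avZ t TZ (ww D k) N p‖ ^ 2 ≤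
          J * ∑ k ∈ Finset.range J, ‖avZ t TZ (ww D k) N p‖ ^ 2 := by
        have h6 := sq_sum_le_card_mul_sum_sq (s := Finset.range J)
          (f := fun k => ‖avZ t TZ (ww D k) N p‖)
        rw [Finset.card_range] at h6
        exact (pow_le_pow_left₀ (norm_nonneg _) (norm_sum_le _ _) 2).trans h6
      have h7 : rs t (F J) N p.1 ^ 2 ≤ rs t (F J) N p.1 := by
        have h8 := rs_nonneg t (F J) N p.1
        have h9 := rs_le t (F J) N p.1
        nlinarith
      have h8 : ‖avZ t TZ (WW D) N p‖ ^ 2 ≤ (‖∑ k ∈ Finset.range J, avZ t TZ (ww D k) N p‖ +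
          rs t (F J) N p.1) ^ 2 := pow_le_pow_left₀ (norm_nonneg _) h3 2
      nlinarith [sq_nonneg (‖∑ k ∈ Finset.range J, avZ t TZ (ww D k) N p‖ - rs t (F J) N p.1)]
    have hi1 : Integrable (fun p => 2 * (J * ∑ k ∈ Finset.range J, ‖avZ t TZ (ww D k) N p‖ ^ 2))
        (μ.prod (nuz κ)) :=
      ((integrable_finsetSum _ fun k _ => (hB k N).sq_int).const_mul _).const_mul _
    refine (integral_mono (avZ_B1 htm hWB N).sq_int (hi1.add (hrs.const_mul 2)) hpt).trans ?_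
    show ∫ p, (2 * (J * ∑ k ∈ Finset.range J, ‖avZ t TZ (ww D k) N p‖ ^ 2) +
      2 * rs t (F J) N p.1) ∂(μ.prod (nuz κ)) ≤ _
    rw [integral_add hi1 (hrs.const_mul 2), integral_const_mul, integral_const_mul,
      integral_const_mul, hrsi, integral_finsetSum _ fun k _ => (hB k N).sq_int]
    gcongr with k _
    exact ww_int κ (hC k) htm hDm N
  rw [Metric.tendsto_atTop]
  intro ε hε
  have h1 : ∃ J, μ.real (F J) < ε / 4 := by
    have h2 := hF0.eventually_lt_const (show (0 : ℝ) < ε / 4 by linarith)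
    exact h2.exists
  obtain ⟨J, hJ⟩ := h1
  have h2 : Tendsto (fun N : ℕ => 2 * (J * ∑ k ∈ Finset.range J, C k * ((2 * N + 1 : ℕ) : ℝ)⁻¹))
      atTop (𝓝 (2 * (J * ∑ k ∈ Finset.range J, C k * 0))) := by
    refine Tendsto.const_mul _ (Tendsto.const_mul _ (tendsto_finsetSum _ fun k _ =>
      Tendsto.const_mul _ ?_))
    refine tendsto_inv_atTop_zero.comp ?_
    refine tendsto_natCast_atTop_atTop.comp ?_
    exact tendsto_atTop_mono (fun n => (by omega : n ≤ 2 * n + 1)) tendsto_id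
  have h3 : 2 * ((J : ℝ) * ∑ k ∈ Finset.range J, C k * 0) = 0 := by simp
  rw [h3] at h2
  obtain ⟨N0, hN0⟩ := eventually_atTop.1 (h2.eventually_lt_const (show (0 : ℝ) < ε / 2 by linarith))
  refine ⟨N0, fun N hN => ?_⟩
  rw [Real.dist_eq, sub_zero, abs_of_nonneg (integral_nonneg fun p => by positivity)]
  have h4 := hN0 N hN
  have h5 := key J N
  linarith

end

end Pool.Agent.H87.NC
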