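import Pool.Agent.H87.NC.Good
import Pool.Agent.H87.NC.Clip

/-! # The reduction lemma -/

set_option autoImplicit false
set_option linter.unusedSectionVars false

open MeasureTheory Filter Topology Set
open scoped ENNReal NNReal ComplexConjugate

namespace Pool.Agent.H87.NC

section

variable {X Γ J : Type} [Group Γ] [Fintype J]
  {ρ : Γ → X → X} {a : ℤ → Γ} {v : J → ℤ → Γ} {f : J → X → ℂ}
  [MeasurableSpace X] {μ : Measure X}

/-- The decomposition of a real function into a good function and a null function. -/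
theorem split [IsProbabilityMeasure μ] (hρ : IsAct μ ρ)
    (hprod : ∀ f : J → X → ℂ, (∀ j, B1 (f j)) → ∀ (r : ℕ) (D : Fin r → X → ℂ),
      (∀ l, D l ∈ Du μ ρ a v) → Gd μ ρ a v f (fun x => ∏ l, D l x))
    (hM : Mx μ (fun n => ρ (a n)))
    (u : X → ℝ) (hu : Measurable u) (hu1 : ∀ x, |u x| ≤ 1) :
    ∃ g w : X → ℂ, B1 g ∧ B1 w ∧ (∀ x, (u x : ℂ) = g x + 2 * w x) ∧
      (∀ f : J → X → ℂ, (∀ j, B1 (f j)) → Gd μ ρ a v f g) ∧
      ∀ f : J → X → ℂ, (∀ j, B1 (f j)) →
        Tendsto (fun N => ∫ x, ‖am ρ a v f w N x‖ ^ 2 ∂μ) atTop (𝓝 0) := by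
  obtain ⟨B, hB⟩ : ∃ B : Subalgebra ℝ (X → ℝ), ∀ b, b ∈ B ↔
      (fun x => (b x : ℂ)) ∈ Algebra.adjoin ℂ (Du μ ρ a v) := by
    refine ⟨((Algebra.adjoin ℂ (Du μ ρ a v)).restrictScalars ℝ).comap
      (Complex.ofRealAm.compLeft X), fun b => ?_⟩
    rw [Subalgebra.mem_comap, Subalgebra.mem_restrictScalars]
    rfl
  obtain ⟨g, hgm, hg1, hgo, hga⟩ := clip2 μ B (by
    intro b hb
    obtain ⟨h1, C, hC⟩ := adj_bm ((hB b).1 hb)
    refine ⟨?_, C, fun x => ?_⟩
    · have h2 := Complex.measurable_re.comp h1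
      exact h2
    · have h2 := hC x
      rw [Complex.norm_real] at h2
      exact h2) u hu hu1
  have hgB : B1 (fun x => (g x : ℂ)) := ⟨Complex.measurable_ofReal.comp hgm, fun x => by
    rw [Complex.norm_real]
    exact hg1 x⟩
  have h1 : ∀ f : J → X → ℂ, (∀ j, B1 (f j)) → Gd μ ρ a v f (fun x => (g x : ℂ)) := by
    intro f hf
    refine gd_lim hρ hf hM hgB ?_
    intro ε hε
    obtain ⟨b, hb, hb2, hbi⟩ := hga ε hε
    refine ⟨fun x => (b x : ℂ), adj_bm ((hB b).1 hb), fun x => ?_,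
      gd_adj (hprod f hf) ((hB b).1 hb), ?_⟩
    · rw [Complex.norm_real]
      exact hb2 x
    refine le_trans (le_of_eq ?_) hbi
    congr 1
    funext x
    rw [← Complex.ofReal_sub, Complex.norm_real]
    rfl
  obtain ⟨w, hw⟩ : ∃ w : X → ℝ, w = fun x => (u x - g x) / 2 := ⟨_, rfl⟩
  have hwm : Measurable w := by
    rw [hw]
    exact (hu.sub hgm).div_const _
  have hw1 : ∀ x, |w x| ≤ 1 := by
    intro x
    rw [hw]
    have h2 := abs_le.1 (hu1 x)
    have h3 := abs_le.1 (hg1 x)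
    simp only
    rw [abs_le]
    constructor <;> linarith
  have hwB : B1 (fun x => (w x : ℂ)) := ⟨Complex.measurable_ofReal.comp hwm, fun x => by
    rw [Complex.norm_real]
    exact hw1 x⟩
  have horth : ∀ D ∈ Du μ ρ a v, ∫ x, (w x : ℂ) * D x ∂μ = 0 := by
    intro D hD
    have hDA := Algebra.subset_adjoin (R := ℂ) hD
    have hDA' := Algebra.subset_adjoin (R := ℂ) (du_conj hD)
    have hre : (fun x => (D x).re) ∈ B := by
      rw [hB]
      have h2 := Subalgebra.smul_mem _ (Subalgebra.add_mem _ hDA hDA') (1 / 2 : ℂ)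
      convert h2 using 1
      funext x
      simp only [Pi.smul_apply, Pi.add_apply, smul_eq_mul]
      rw [Complex.add_conj]
      push_cast
      ring
    have him : (fun x => (D x).im) ∈ B := by
      rw [hB]
      have h2 := Subalgebra.smul_mem _ (Subalgebra.sub_mem _ hDA hDA') (-Complex.I / 2 : ℂ)
      convert h2 using 1
      funext x
      simp only [Pi.smul_apply, Pi.sub_apply, smul_eq_mul]
      rw [Complex.sub_conj]
      push_cast
      linear_combination ((D x).im : ℂ) * Complex.I_mul_I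
    have h2 := hgo _ hre
    have h3 := hgo _ him
    have hDm := hD.1
    have e : ∀ x, (w x : ℂ) * D x = (((u x - g x) * (D x).re : ℝ) : ℂ) * (1 / 2) +
        (((u x - g x) * (D x).im : ℝ) : ℂ) * (Complex.I / 2) := by
      intro x
      conv_lhs => rw [← Complex.re_add_im (D x)]
      rw [hw]
      push_cast
      ring
    simp only [e]
    have hi : ∀ φ : X → ℝ, Measurable φ → (∀ x, |φ x| ≤ 1) →
        Integrable (fun x => (((u x - g x) * φ x : ℝ) : ℂ)) μ := by
      intro φ h4 h5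
      refine Integrable.of_bound (Complex.measurable_ofReal.comp
        ((hu.sub hgm).mul h4)).aestronglyMeasurable 2 (ae_of_all _ fun x => ?_)
      rw [Complex.norm_real, norm_mul, Real.norm_eq_abs, Real.norm_eq_abs]
      have h6 := abs_le.1 (hu1 x)
      have h7 := abs_le.1 (hg1 x)
      have h8 : |u x - g x| ≤ 2 := by
        rw [abs_le]
        constructor <;> linarith
      calc |u x - g x| * |φ x| ≤ 2 * 1 := mul_le_mul h8 (h5 x) (abs_nonneg _) (by norm_num)
        _ = 2 := by norm_num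
    have hi1 := hi (fun x => (D x).re) (Complex.measurable_re.comp hDm.1) (fun x => (Complex.abs_re_le_norm _).trans (hDm.2 x))
    have hi2 := hi (fun x => (D x).im) (Complex.measurable_im.comp hDm.1) (fun x => (Complex.abs_im_le_norm _).trans (hDm.2 x))
    rw [integral_add (hi1.mul_const _) (hi2.mul_const _), integral_mul_const, integral_mul_const,
      integral_complex_ofReal, integral_complex_ofReal]
    rw [h2, h3]
    simp
  refine ⟨fun x => (g x : ℂ), fun x => (w x : ℂ), hgB, hwB, fun x => ?_, h1,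
    fun f hf => null_of_orth hρ hf hwB horth⟩
  rw [hw]
  push_cast
  ring

theorem gd_real [IsProbabilityMeasure μ] (hρ : IsAct μ ρ) (hf : ∀ j, B1 (f j))
    (hprod : ∀ f : J → X → ℂ, (∀ j, B1 (f j)) → ∀ (r : ℕ) (D : Fin r → X → ℂ),
      (∀ l, D l ∈ Du μ ρ a v) → Gd μ ρ a v f (fun x => ∏ l, D l x))
    (hM : Mx μ (fun n => ρ (a n)))
    (hN : ∀ g, B1 g → (∀ f' : J → X → ℂ, (∀ j, B1 (f' j)) →
        Tendsto (fun N => ∫ x, ‖am ρ a v f' g N x‖ ^ 2 ∂μ) atTop (𝓝 0)) →
      ∀ᵐ x ∂μ, Tendsto (fun N => am ρ a v f g N x) atTop (𝓝 0))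
    (u : X → ℝ) (hu : Measurable u) (hu1 : ∀ x, |u x| ≤ 1) :
    Gd μ ρ a v f (fun x => (u x : ℂ)) := by
  obtain ⟨g, w, hg, hw, huw, hgG, hwN⟩ := split hρ hprod hM u hu hu1
  have h3 : Gd μ ρ a v f w := by
    filter_upwards [hN _ hw hwN] with x hx
    exact ⟨0, hx⟩
  have h4 := (hgG f hf).add (h3.cmul 2)
  have e : (fun x => (u x : ℂ)) = fun x => g x + 2 * w x := funext huw
  rw [e]
  exact h4

theorem gd_all [IsProbabilityMeasure μ] (hρ : IsAct μ ρ) (hf : ∀ j, B1 (f j))
    (hprod : ∀ f : J → X → ℂ, (∀ j, B1 (f j)) → ∀ (r : ℕ) (D : Fin r → X → ℂ),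
      (∀ l, D l ∈ Du μ ρ a v) → Gd μ ρ a v f (fun x => ∏ l, D l x))
    (hM : Mx μ (fun n => ρ (a n)))
    (hN : ∀ g, B1 g → (∀ f' : J → X → ℂ, (∀ j, B1 (f' j)) →
        Tendsto (fun N => ∫ x, ‖am ρ a v f' g N x‖ ^ 2 ∂μ) atTop (𝓝 0)) →
      ∀ᵐ x ∂μ, Tendsto (fun N => am ρ a v f g N x) atTop (𝓝 0))
    {g : X → ℂ} (hg : B1 g) : Gd μ ρ a v f g := by
  have h1 := gd_real hρ hf hprod hM hN (fun x => (g x).re) (Complex.measurable_re.comp hg.1)
    (fun x => (Complex.abs_re_le_norm _).trans (hg.2 x))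
  have h2 := gd_real hρ hf hprod hM hN (fun x => (g x).im) (Complex.measurable_im.comp hg.1)
    (fun x => (Complex.abs_im_le_norm _).trans (hg.2 x))
  have h3 := h1.add (h2.cmul Complex.I)
  have e : g = fun x => ((g x).re : ℂ) + Complex.I * ((g x).im : ℂ) := by
    funext x
    conv_lhs => rw [← Complex.re_add_im (g x)]
    ring
  rw [e]
  exact h3

end

/-- the null case -/
def Nl {Γ J : Type} [Group Γ] [Fintype J] (w : J → ℤ → Γ) : Prop :=
  ∀ (X : Type) [MeasurableSpace X] (μ : Measure X) [IsProbabilityMeasure μ] (ρ : Γ → X → X),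
    IsAct μ ρ → ∀ (F : J → X → ℂ) (j : J), (∀ i, B1 (F i)) →
      (∀ F' : J → X → ℂ, (∀ i, B1 (F' i)) → F' j = F j →
        Tendsto (fun N => ∫ x, ‖av0 ρ w F' N x‖ ^ 2 ∂μ) atTop (𝓝 0)) →
      ∀ᵐ x ∂μ, Tendsto (fun N => av0 ρ w F N x) atTop (𝓝 0)

/-- **The reduction lemma.** -/
theorem lemR {Γ J : Type} [Group Γ] [Fintype J] (a : ℤ → Γ) (v : J → ℤ → Γ)
    (hd : ∀ r : ℕ, ∃ (Γ' : Type) (_ : Group Γ') (_ : Countable Γ') (θ : (Fin r → ℤ) → Γ' →* Γ)
      (w : J ⊕ (Fin r × Option J) → ℤ → Γ'), Drv a v r θ w ∧ Cv w)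
    (hS : ∀ (X : Type) [MeasurableSpace X] (μ : Measure X) [IsProbabilityMeasure μ]
      (ρ : Γ → X → X), IsAct μ ρ → Mx μ (fun n => ρ (a n)))
    (hN : Nl (fun (o : Option J) => o.elim a v)) : Cv (fun (o : Option J) => o.elim a v) := by
  intro X _ μ _ ρ hρ F hF
  have e : ∀ (F : Option J → X → ℂ) N x, av0 ρ (fun (o : Option J) => o.elim a v) F N x =
      am ρ a v (fun j => F (some j)) (F none) N x := by
    intro F N x
    unfold av0 am pr
    congr 1
    refine Finset.sum_congr rfl fun n _ => ?_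
    rw [Fintype.prod_option]
    rfl
  have h1 := gd_all (f := fun j => F (some j)) (a := a) (v := v) hρ (fun j => hF (some j))
    (fun f hf r D hD => gd_prod hρ hf (hd r) D hD) (hS X μ ρ hρ) (by
      intro g hg h2
      have h3 := hN X μ ρ hρ (fun o => o.elim g (fun j => F (some j))) none (by
        intro o
        cases o with
        | none => exact hg
        | some j => exact hF (some j))
      simp only [e, Option.elim_some, Option.elim_none] at h3
      refine h3 fun F' hF' h4 => ?_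
      rw [h4]
      exact h2 (fun j => F' (some j)) (fun j => hF' (some j))) (hF none)
  simp only [e]
  exact h1

end Pool.Agent.H87.NC
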