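import Pool.Agent.H87.NC.Ext

/-! # Linear sequences -/

set_option autoImplicit false
set_option linter.unusedSectionVars false

open MeasureTheory Filter Topology Set
open scoped ENNReal NNReal ComplexConjugate commutatorElement

namespace Pool.Agent.H87.NC

section

variable {X : Type} {m : ℕ}

/-- powers as words -/
theorem lin_word (T : Fin m → Equiv.Perm X) : (fun (j : Fin m) (n : ℤ) => T j ^ n) =
    word T (fun i j => if i = j then Polynomial.X else 0) := by
  funext j n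
  unfold word
  have h2 : (fun i : Fin m => T i ^ (Polynomial.eval n
      (if i = j then Polynomial.X else (0 : Polynomial ℤ)))) =
      fun i : Fin m => if i = j then T j ^ n else 1 := by
    funext i
    by_cases hij : i = j
    · subst hij
      rw [if_pos rfl, if_pos rfl]
      simp
    · rw [if_neg hij, if_neg hij]
      simp
  rw [h2, prod_single]

theorem lin_pol (i j : Fin m) :
    (if i = j then Polynomial.X else (0 : Polynomial ℤ)).eval 0 = 0 := by
  split_ifs <;> simp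

/-- linear sequences in the extension -/
theorem ext_qq (T : Fin m → Equiv.Perm X) (j : Fin m) :
    QQ (gS (fun (j : Fin m) (n : ℤ) => T j ^ n)) (gV (fun (j : Fin m) (n : ℤ) => T j ^ n) j) := by
  obtain ⟨g, hg⟩ : ∃ g : Fin m → ℤ → Equiv.Perm X, g = fun (j : Fin m) (n : ℤ) => T j ^ n := ⟨_, rfl⟩
  rw [← hg]
  unfold QQ
  obtain ⟨R, hR⟩ : ∃ R : GE g, R = (gV g j)⁻¹ * gS g * gV g j * (gS g)⁻¹ := ⟨_, rfl⟩
  have hRt : ((R : GE g) : Equiv.Perm (ℤ → X)) = LL.Th (fun _ => T j) 0 := by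
    have h1 : ((R : GE g) : Equiv.Perm (ℤ → X)) =
        (LL.Th (g j) 0)⁻¹ * LL.Th 1 1 * LL.Th (g j) 0 * (LL.Th 1 1)⁻¹ := by
      rw [hR]
      rfl
    rw [h1, LL.Th_inv, LL.Th_mul, LL.Th_mul, LL.Th_inv, LL.Th_mul]
    have h2 : ∀ i, g j i = T j ^ i := fun i => by rw [hg]
    congr 1
    funext i
    simp only [Pi.mul_apply, LL.sh, Pi.inv_apply, Pi.one_apply, h2, neg_zero, add_zero, zero_add,
      inv_one, mul_one]
    rw [← zpow_neg, ← zpow_add]
    have h3 : -i + (i + 1) = 1 := by ring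
    rw [h3, zpow_one]
  rw [← hR]
  apply Subtype.ext
  show ((R : GE g) : Equiv.Perm (ℤ → X)) * LL.Th 1 1 = LL.Th 1 1 * ((R : GE g) : Equiv.Perm (ℤ → X))
  rw [hRt, LL.Th_mul, LL.Th_mul]
  congr 1

end

section

variable {X Γ : Type} [Group Γ] [MeasurableSpace X] {μ : Measure X} {ρ : Γ → X → X}

/-- linear sequences as powers -/
theorem cj_pow (hρ : IsAct μ ρ) {m : ℕ} (S : Γ) (v : Fin m → Γ) (h : ∀ j, QQ S (v j)) (j : Fin m)
    (n : ℤ) : ρ (cj S (v j) n) = fun x => ρ (v j)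
      (((fun i => pm hρ ((fun j => (v j)⁻¹ * S * v j * S⁻¹) i)) j ^ n) x) := by
  funext x
  rw [cj_lin (h j), hρ.mul]
  beta_reduce
  rw [← map_zpow]
  rfl

/-- linear sequences with a rotation -/
theorem ract_pow [IsProbabilityMeasure μ] (hρ : IsAct μ ρ) {Z : Type} [MeasurableSpace Z]
    {ν : Measure Z} [IsProbabilityMeasure ν] {T : Equiv.Perm Z}
    (hT : Preserving ν (fun _ : Fin 1 => T)) (S A : Γ) (h : QQ S A) (n : ℤ) (p : X × Z) :
    (ρ (cj S A n) p.1, (T ^ n) p.2) = ((ρ A (((fun _ : Fin 1 => pm (prod_act hρ hT)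
      ((A⁻¹ * S * A * S⁻¹, Multiplicative.ofAdd 1) : Γ × Multiplicative ℤ)) 0 ^ n) p).1,
      (((fun _ : Fin 1 => pm (prod_act hρ hT)
      ((A⁻¹ * S * A * S⁻¹, Multiplicative.ofAdd 1) : Γ × Multiplicative ℤ)) 0 ^ n) p).2) : X × Z) := by
  beta_reduce
  rw [← map_zpow, pm_apply]
  have h2 : ((A⁻¹ * S * A * S⁻¹, Multiplicative.ofAdd 1) : Γ × Multiplicative ℤ) ^ n =
      ((A⁻¹ * S * A * S⁻¹) ^ n, Multiplicative.ofAdd n) := by
    ext
    · simp
    · simp [← ofAdd_zsmul]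
  rw [h2]
  unfold ract
  simp only [toAdd_ofAdd]
  rw [cj_lin h, hρ.mul]
  rfl

theorem hyp_lin (h2 : ∀ m, NilpotentLinear NullConverges m) (c : ℕ) : Hyp c pLin where
  mx Γ _ _ hΓ S A hQ X _ μ _ ρ hρ := by
    refine hump (fun n => hρ.mp _) (nz_of hρ ?_)
    intro Z _ ν _ T hT
    have h3 := h2 1 (X × Z) (μ.prod ν) (fun _ : Fin 1 => pm (prod_act hρ hT)
      ((A⁻¹ * S * A * S⁻¹, Multiplicative.ofAdd 1) : Γ × Multiplicative ℤ))
      (pm_pres _ _) (pm_nil _ (nilc_prod hΓ) _)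
    exact ⟨A, _, fun n p => ract_pow hρ hT S A (hQ A rfl) n p, h3⟩
  nl Γ _ _ hΓ J _ S v hQ X _ μ _ ρ hρ F j hF h0 := by
    obtain ⟨e, -⟩ : ∃ e : Fin (Fintype.card J) ≃ J, True := ⟨(Fintype.equivFin J).symm, trivial⟩
    have h3 := h2 _ X μ (fun i => pm hρ ((fun j => (v (e j))⁻¹ * S * v (e j) * S⁻¹) i))
      (pm_pres hρ _) (pm_nil hρ hΓ _)
    refine nl_of hρ e (B := fun j => v (e j)) (fun j n => cj_pow hρ S (fun j => v (e j))
      (fun j => hQ _ ⟨_, rfl⟩) j n) ?_ h3 F j hF h0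
    intro j n
    exact ((LL.MP μ).zpow_mem (pm_mem hρ _) n).2

/-- **The linear equivalence.** -/
theorem linear_iff : (∀ m, NilpotentLinear Converges m) ↔
    (∀ m, NilpotentLinear NullConverges m) := by
  constructor
  · intro h m X _ μ _ T hT hN
    refine null_of_conv (fun j n => ?_) (h m X μ T hT hN)
    exact ((LL.MP μ).zpow_mem ⟨hT.inverse j, hT.preserving j⟩ n).2
  · intro h2 m X _ μ _ T hT hN
    obtain ⟨c, hc⟩ := (Subgroup.isNilpotent_iff_lowerCentralSeries _).1 hN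
    have hc' : (Subgroup.closure (Set.range T)).lowerCentralSeries (c + 1) = ⊥ := by
      rw [eq_bot_iff, ← hc]
      exact Subgroup.lowerCentralSeries_antitone _ (Nat.le_succ c)
    have hnil := word_nil (m := m) (D := 1) (by omega) T hc'
      (fun i j => if i = j then Polynomial.X else 0) (by
        intro i j
        split_ifs
        · exact Polynomial.natDegree_X_le
        · simp)
    rw [← lin_word] at hnil
    refine conv_ext _ (fun j n => (LL.MP μ).zpow_mem ⟨hT.inverse j, hT.preserving j⟩ n) ?_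
    refine cv_all (Q := pLin) (hyp_lin h2 _) _ hnil _ _ ?_
    rintro _ ⟨j, rfl⟩
    exact ext_qq T j

end

end Pool.Agent.H87.NC
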