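import Pool.Agent.H87.NC.Grp

/-! # The induction -/

set_option autoImplicit false
set_option linter.unusedSectionVars false

open MeasureTheory Filter Topology Set
open scoped ENNReal NNReal ComplexConjugate commutatorElement

namespace Pool.Agent.H87.NC

/-- the property of linear sequences -/
def QQ {Γ : Type} [Group Γ] (S v : Γ) : Prop := Commute (v⁻¹ * S * v * S⁻¹) S

/-- the derived set -/
def dset {Γ : Type} [Group Γ] (S A : Γ) (F : Set Γ) (r : ℕ) : Set (GG Γ S r) :=
  {x | (∃ v ∈ F, x = io S r v) ∨ ∃ B, (B ∈ F ∨ B = 1) ∧ ∃ l, x = wb S r A B l}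

/-- classes of systems which are closed under the derivations -/
structure Pr where
  P : ∀ (Γ : Type) [Group Γ], Γ → Set Γ → Prop
  mono : ∀ {Γ : Type} [Group Γ] {S : Γ} {F G : Set Γ}, P Γ S F → G ⊆ F → P Γ S G
  der : ∀ {Γ : Type} [Group Γ] {S A : Γ} {F : Set Γ}, P Γ S F → A ∈ F → ∀ r : ℕ,
    P (GG Γ S r) (io S r S) (dset S A F r)

/-- all systems -/
def pTop : Pr where
  P _ _ _ _ := True
  mono _ _ := trivial
  der _ _ _ := trivial

section

variable {Γ : Type} [Group Γ]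

theorem qq_one (S : Γ) : QQ S (1 : Γ) := by
  unfold QQ
  have h1 : (1 : Γ)⁻¹ * S * 1 * S⁻¹ = 1 := by group
  rw [h1]
  exact Commute.one_left _

theorem qq_map {Γ' : Type} [Group Γ'] (φ : Γ →* Γ') {S v : Γ} (h : QQ S v) :
    QQ (φ S) (φ v) := by
  have h1 := Commute.map h φ
  simpa [QQ] using h1

theorem qq_wb {S A B : Γ} (hA : QQ S A) (hB : QQ S B) (r : ℕ) (l : Fin r) :
    QQ (io S r S) (wb S r A B l) := by
  have hA' : Commute (A⁻¹ * S * A * S⁻¹) S := hA
  have hB' : Commute (B⁻¹ * S * B * S⁻¹) S := hB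
  obtain ⟨TA, hTA⟩ : ∃ TA : Γ, TA = A⁻¹ * S * A * S⁻¹ := ⟨_, rfl⟩
  obtain ⟨TB, hTB⟩ : ∃ TB : Γ, TB = B⁻¹ * S * B * S⁻¹ := ⟨_, rfl⟩
  rw [← hTA] at hA'
  rw [← hTB] at hB'
  apply Subtype.ext
  funext k
  have h1 : (A⁻¹ * S * A) = TA * S := by
    rw [hTA]
    group
  have h2 : (B⁻¹ * S * B) = TB * S := by
    rw [hTB]
    group
  have h3 : ∀ m : ℤ, A⁻¹ * S ^ m * A = TA ^ m * S ^ m := by
    intro m
    rw [← hA'.mul_zpow, ← h1]
    have h4 := conj_zpow (i := m) (a := A⁻¹) (b := S)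
    rw [inv_inv] at h4
    exact h4.symm
  have h4 : ∀ m : ℤ, B⁻¹ * S ^ m * B = TB ^ m * S ^ m := by
    intro m
    rw [← hB'.mul_zpow, ← h2]
    have h5 := conj_zpow (i := m) (a := B⁻¹) (b := S)
    rw [inv_inv] at h5
    exact h5.symm
  obtain ⟨P, hP⟩ : ∃ P : Γ, P = TB ^ k l * TA ^ (-(k l)) := ⟨_, rfl⟩
  have hPS : Commute P S := by
    rw [hP]
    exact (hB'.zpow_left _).mul_left (hA'.zpow_left _)
  have h5 : S ^ k l * B * A⁻¹ * (S ^ k l)⁻¹ * A = B * P := by
    have h6 : S ^ k l * B * A⁻¹ * (S ^ k l)⁻¹ * A =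
        B * (B⁻¹ * S ^ (k l) * B) * (A⁻¹ * S ^ (-(k l)) * A) := by group
    rw [h6, h3, h4, hP]
    have h7 := ((hA'.zpow_left (-(k l))).zpow_right (k l)).eq
    have h8 : B * (TB ^ k l * S ^ k l) * (TA ^ (-k l) * S ^ (-k l)) =
        B * TB ^ k l * (S ^ k l * TA ^ (-k l)) * S ^ (-k l) := by group
    rw [h8, ← h7]
    group
  show ((S ^ k l * B * A⁻¹ * (S ^ k l)⁻¹ * A)⁻¹ * S * (S ^ k l * B * A⁻¹ * (S ^ k l)⁻¹ * A) * S⁻¹) * S =
    S * ((S ^ k l * B * A⁻¹ * (S ^ k l)⁻¹ * A)⁻¹ * S * (S ^ k l * B * A⁻¹ * (S ^ k l)⁻¹ * A) * S⁻¹)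
  rw [h5]
  have h6 : (B * P)⁻¹ * S * (B * P) * S⁻¹ = P⁻¹ * TB * P := by
    have h7 : (B * P)⁻¹ * S * (B * P) * S⁻¹ = P⁻¹ * (B⁻¹ * S * B) * P * S⁻¹ := by group
    rw [h7, h2]
    have h8 : P⁻¹ * (TB * S) * P * S⁻¹ = P⁻¹ * TB * (S * P) * S⁻¹ := by group
    rw [h8, ← hPS.eq]
    group
  rw [h6]
  exact ((hPS.inv_left.mul_left hB').mul_left hPS).eq

end

/-- linear sequences -/
def pLin : Pr where
  P _ _ S F := ∀ v ∈ F, QQ S v
  mono h hG v hv := h v (hG hv)
  der {Γ _ S A F} h hA r := by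
    rintro x (⟨v, hv, rfl⟩ | ⟨B, hB, l, rfl⟩)
    · exact qq_map _ (h v hv)
    · refine qq_wb (h A hA) ?_ r l
      rcases hB with hB | rfl
      · exact h B hB
      · exact qq_one S

/-- sequences with commuting values -/
def pCom : Pr where
  P _ _ S F := ∀ u ∈ F, ∀ v ∈ F, ∀ k : ℤ, Commute u (S ^ k * v * (S ^ k)⁻¹)
  mono h hG u hu v hv := h u (hG hu) v (hG hv)
  der {Γ _ S A F} h hA r := by
    -- the subgroup of the elements commuting with all conjugates
    have hF : ∀ u ∈ F, ∀ v ∈ F, ∀ i j : ℤ, Commute (S ^ i * u * (S ^ i)⁻¹) (S ^ j * v * (S ^ j)⁻¹) := by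
      intro u hu v hv i j
      have h1 := (h u hu v hv (j - i)).conj (S ^ i)
      have e : S ^ i * (S ^ (j - i) * v * (S ^ (j - i))⁻¹) * (S ^ i)⁻¹ = S ^ j * v * (S ^ j)⁻¹ := by
        group
      rw [e] at h1
      exact h1
    -- all conjugates of the elements of the derived set are products
    obtain ⟨T, hT⟩ : ∃ T : Subgroup Γ, T = Subgroup.closure
      {x | ∃ u ∈ F, ∃ i : ℤ, x = S ^ i * u * (S ^ i)⁻¹} := ⟨_, rfl⟩
    have hgen : ∀ u ∈ F, ∀ i : ℤ, S ^ i * u * (S ^ i)⁻¹ ∈ T := by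
      intro u hu i
      rw [hT]
      exact Subgroup.subset_closure ⟨u, hu, i, rfl⟩
    have hgen' : ∀ u, (u ∈ F ∨ u = 1) → ∀ i : ℤ, S ^ i * u * (S ^ i)⁻¹ ∈ T := by
      rintro u (hu | rfl) i
      · exact hgen u hu i
      · rw [mul_one, mul_inv_cancel]
        exact T.one_mem
    have hcomm1 : ∀ y, (∃ u ∈ F, ∃ i : ℤ, y = S ^ i * u * (S ^ i)⁻¹) → ∀ x ∈ T, Commute x y := by
      rintro y ⟨v, hv, j, rfl⟩ x hx
      have h1 : T ≤ Subgroup.centralizer {S ^ j * v * (S ^ j)⁻¹} := by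
        rw [hT, Subgroup.closure_le]
        rintro _ ⟨u, hu, i, rfl⟩
        exact mem_cent.2 (hF u hu v hv i j)
      exact mem_cent.1 (h1 hx)
    have hcomm : ∀ x ∈ T, ∀ y ∈ T, Commute x y := by
      intro x hx y hy
      have h1 : T ≤ Subgroup.centralizer {x} := by
        conv_lhs => rw [hT]
        rw [Subgroup.closure_le]
        intro z hz
        exact mem_cent.2 (hcomm1 z hz x hx).symm
      exact (mem_cent.1 (h1 hy)).symm
    have hval : ∀ z ∈ dset S A F r, ∀ (κ : Fin r → ℤ) (m : ℤ),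
        S ^ m * th S r κ z * (S ^ m)⁻¹ ∈ T := by
      rintro z (⟨v, hv, rfl⟩ | ⟨B, hB, l, rfl⟩) κ m
      · exact hgen v hv m
      · rw [th_wb]
        have e : S ^ m * (S ^ κ l * B * A⁻¹ * (S ^ κ l)⁻¹ * A) * (S ^ m)⁻¹ =
            (S ^ (m + κ l) * B * (S ^ (m + κ l))⁻¹) * (S ^ (m + κ l) * A * (S ^ (m + κ l))⁻¹)⁻¹ *
              (S ^ m * A * (S ^ m)⁻¹) := by group
        rw [e]
        exact T.mul_mem (T.mul_mem (hgen' B hB _) (T.inv_mem (hgen A hA _))) (hgen A hA _)
    intro x hx y hy k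
    apply Subtype.ext
    funext κ
    have h1 := hval x hx κ 0
    rw [zpow_zero, one_mul, inv_one, mul_one] at h1
    exact (hcomm _ h1 _ (hval y hy κ k)).eq

/-- derived systems -/
structure Der {Γ Γ' : Type} [Group Γ] [Group Γ'] (n : ℕ) (S A : Γ) (F : Finset Γ) (F' : Finset Γ')
    (ι : Γ →* Γ') (θ : Γ' →* Γ) : Prop where
  hom : ∀ g, θ (ι g) = g
  par : ∀ v' ∈ F', (θ v' ∈ F ∨ θ v' = 1) ∧
    ∀ j < n, Rl S j (θ v') A → Rl (ι S) (j + 1) v' (ι (θ v'))

/-- convergence for the derived systems -/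
def HD (c : ℕ) (Q : Pr) (n : ℕ) {Γ : Type} [Group Γ] (S : Γ) (F : Finset Γ) (A : Γ) : Prop :=
  ∀ (Γ' : Type) [Group Γ'] [Countable Γ'], NilC c Γ' → ∀ (F' : Finset Γ') (ι : Γ →* Γ')
    (θ : Γ' →* Γ), Der n S A F F' ι θ → Q.P Γ' (ι S) (F' : Set Γ') →
    (∀ v' ∈ F', ¬ Rl (ι S) n v' (ι A)) → St (ι S) F'

/-- the inductive statement -/
def EE (c : ℕ) (Q : Pr) (n : ℕ) : Prop :=
  ∀ (Γ : Type) [Group Γ] [Countable Γ], NilC c Γ → ∀ (S : Γ) (F : Finset Γ) (A : Γ), A ∈ F →
    Q.P Γ S (F : Set Γ) → ¬ Rl S n 1 A → HD c Q n S F A → St S F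

/-- the second inductive statement -/
def TT (c : ℕ) (Q : Pr) (n : ℕ) : Prop :=
  ∀ (Γ : Type) [Group Γ] [Countable Γ], NilC c Γ → ∀ (S : Γ) (F : Finset Γ),
    Q.P Γ S (F : Set Γ) → (∀ v ∈ F, v ∈ Hn S n) → St S F

/-- the hypotheses: maximal inequalities, and null averages -/
structure Hyp (c : ℕ) (Q : Pr) : Prop where
  mx : ∀ (Γ : Type) [Group Γ] [Countable Γ], NilC c Γ → ∀ S A : Γ, Q.P Γ S {A} →
    ∀ (X : Type) [MeasurableSpace X] (μ : Measure X) [IsProbabilityMeasure μ] (ρ : Γ → X → X),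
      IsAct μ ρ → Mx μ (fun n => ρ (cj S A n))
  nl : ∀ (Γ : Type) [Group Γ] [Countable Γ], NilC c Γ → ∀ (J : Type) [Fintype J] (S : Γ)
    (v : J → Γ), Q.P Γ S (Set.range v) → Nl (fun j => cj S (v j))

section

variable {c : ℕ} {Q : Pr}

open Classical in
/-- the case of the last term -/
theorem ee_last (h : Hyp c Q) : EE c Q c := by
  intro Γ _ _ hΓ S F A hA hQ h1 hHD
  obtain ⟨F0, hF0⟩ : ∃ F0 : Finset Γ, F0 = F.filter (fun v => ¬ Rl S c v A) := ⟨_, rfl⟩
  have hF0m : ∀ v, v ∈ F0 ↔ v ∈ F ∧ ¬ Rl S c v A := by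
    intro v
    rw [hF0, Finset.mem_filter]
  -- the reduction lemma
  have h2 : Cv (fun (o : Option F0) => cj S (o.elim A (fun v => (v : Γ)))) := by
    have e : (fun (o : Option F0) => cj S (o.elim A (fun v => (v : Γ)))) =
        fun (o : Option F0) => o.elim (cj S A) (fun v => cj S (v : Γ)) := by
      funext o
      cases o <;> rfl
    have h3 := h.nl Γ hΓ (Option F0) S (fun o => o.elim A (fun v => (v : Γ))) (by
      refine Q.mono hQ ?_
      rintro _ ⟨o, rfl⟩
      cases o with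
      | none => exact hA
      | some v => exact ((hF0m v).1 v.2).1)
    rw [e] at h3 ⊢
    refine lemR (cj S A) (fun v : F0 => cj S (v : Γ)) ?_ (fun X _ μ _ ρ hρ =>
      h.mx Γ hΓ S A (Q.mono hQ (Set.singleton_subset_iff.2 hA)) X μ ρ hρ) h3
    intro r
    refine ⟨GG Γ S r, inferInstance, inferInstance, th S r,
      fun q => cj (io S r S) (wt S r A (fun v : F0 => (v : Γ)) q), drv_wt S r A _, ?_⟩
    have hB : ∀ o : Option F0, (o.elim (1 : Γ) (fun v => (v : Γ)) ∈ F0 ∨
        o.elim (1 : Γ) (fun v => (v : Γ)) = 1) := by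
      intro o
      cases o with
      | none => exact Or.inr rfl
      | some v => exact Or.inl v.2
    have h0 : ∀ (B : Γ) (l : Fin r), th S r 0 (wb S r A B l) = B := by
      intro B l
      rw [th_wb]
      simp
    refine st_tuple (F := Finset.univ.image (wt S r A (fun v : F0 => (v : Γ)))) ?_ _
      (fun q => Finset.mem_image_of_mem _ (Finset.mem_univ q))
    refine hHD (GG Γ S r) (gg_nil Γ S r hΓ) _ (io S r) (th S r 0) ⟨fun g => rfl, ?_⟩ ?_ ?_
    · intro v' hv'
      obtain ⟨q, -, rfl⟩ := Finset.mem_image.1 hv'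
      rcases q with j | ⟨l, o⟩
      · exact ⟨Or.inl ((hF0m _).1 j.2).1, fun j _ _ => Rl.refl _ _ _⟩
      · have e3 : th S r 0 (wt S r A (fun v : F0 => (v : Γ)) (Sum.inr (l, o))) =
          o.elim (1 : Γ) (fun v => (v : Γ)) := h0 _ l
        constructor
        · rw [e3]
          rcases hB o with h4 | h4
          · exact Or.inl ((hF0m _).1 h4).1
          · exact Or.inr h4
        · intro j _ hj
          have e2 : wt S r A (fun v : F0 => (v : Γ)) (Sum.inr (l, o)) =
            wb S r A (o.elim 1 (fun v => (v : Γ))) l := rfl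
          rw [e2, h0] at hj ⊢
          exact wb_rl S r hj l
    · refine Q.mono (Q.der hQ hA r) ?_
      intro v' hv'
      obtain ⟨q, -, rfl⟩ := Finset.mem_image.1 (Finset.mem_coe.1 hv')
      rcases q with j | ⟨l, o⟩
      · exact Or.inl ⟨_, ((hF0m _).1 j.2).1, rfl⟩
      · refine Or.inr ⟨o.elim 1 (fun v => (v : Γ)), ?_, l, rfl⟩
        rcases hB o with h4 | h4
        · exact Or.inl ((hF0m _).1 h4).1
        · exact Or.inr h4
    · intro v' hv' hcon
      have h5 := Rl.map (th S r 0) (S := io S r S) (S' := S) rfl hcon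
      rw [th_io] at h5
      obtain ⟨q, -, rfl⟩ := Finset.mem_image.1 hv'
      rcases q with j | ⟨l, o⟩
      · exact ((hF0m _).1 j.2).2 h5
      · have e2 : wt S r A (fun v : F0 => (v : Γ)) (Sum.inr (l, o)) =
          wb S r A (o.elim 1 (fun v => (v : Γ))) l := rfl
        rw [e2, h0] at h5
        rcases hB o with h4 | h4
        · exact ((hF0m _).1 h4).2 h5
        · rw [h4] at h5
          exact h1 h5
  refine dom S _ _ (fun v => ?_) h2
  right
  by_cases hv : Rl S c v A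
  · refine ⟨v * A⁻¹, none, ?_, ?_⟩
    · unfold Rl at hv
      rw [Hn_last hΓ, mem_cent] at hv
      exact hv
    · show (v : Γ) = v * A⁻¹ * A
      group
  · exact ⟨1, some ⟨v, (hF0m _).2 ⟨v.2, hv⟩⟩, Commute.one_left _, (one_mul _).symm⟩

open Classical in
/-- the step -/
theorem ee_step (n : ℕ) (hE : EE c Q (n + 1)) : EE c Q n := by
  have key : ∀ q : ℕ, ∀ (Γ : Type) [Group Γ] [Countable Γ], NilC c Γ → ∀ (S : Γ) (F : Finset Γ)
      (A : Γ) (R : Finset Γ), R.card ≤ q → (∀ v ∈ F, Rl S n v A → ∃ s ∈ R, Rl S (n + 1) v s) →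
      Q.P Γ S (F : Set Γ) → ¬ Rl S n 1 A → HD c Q n S F A → St S F := by
    intro q
    induction q with
    | zero =>
      intro Γ _ _ hΓ S F A R hR hcov hQ h1 hHD
      have hR0 : R = ∅ := Finset.card_eq_zero.1 (Nat.le_zero.1 hR)
      refine hHD Γ hΓ F (MonoidHom.id Γ) (MonoidHom.id Γ) ⟨fun g => rfl, ?_⟩ hQ ?_
      · exact fun v hv => ⟨Or.inl hv, fun j _ _ => Rl.refl _ _ _⟩
      · intro v hv hcon
        obtain ⟨s, hs, -⟩ := hcov v hv hcon
        rw [hR0] at hs
        simp at hs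
    | succ q ih =>
      intro Γ _ _ hΓ S F A R hR hcov hQ h1 hHD
      by_cases hex : ∃ A1 ∈ F, Rl S n A1 A
      · obtain ⟨A1, hA1, hA1A⟩ := hex
        obtain ⟨r0, hr0, hA1r⟩ := hcov A1 hA1 hA1A
        refine hE Γ hΓ S F A1 hA1 hQ (fun h2 => h1 ((h2.mono (Nat.le_succ n)).trans hA1A)) ?_
        intro Γ' _ _ hΓ' F' ι θ hD hQ' hno
        have hθS : θ (ι S) = S := hD.hom S
        refine ih Γ' hΓ' (ι S) F' (ι A) ((R.erase r0).image ι) ?_ ?_ hQ' ?_ ?_
        · refine Finset.card_image_le.trans ?_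
          rw [Finset.card_erase_of_mem hr0]
          omega
        · intro v' hv' hv'A
          have h2 := Rl.map θ hθS hv'A
          rw [hD.hom] at h2
          obtain ⟨h3, h4⟩ := hD.par v' hv'
          rcases h3 with h3 | h3
          · obtain ⟨s, hs, hvs⟩ := hcov _ h3 h2
            have h5 := h4 n (Nat.lt_succ_self n) (h2.trans hA1A.symm)
            have h6 := h5.trans (hvs.map ι rfl)
            refine ⟨ι s, Finset.mem_image_of_mem _ (Finset.mem_erase.2 ⟨?_, hs⟩), h6⟩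
            rintro rfl
            exact hno v' hv' (h6.trans ((hA1r.map ι rfl).symm))
          · rw [h3] at h2
            exact absurd h2 h1
        · intro h2
          have h3 := Rl.map θ hθS h2
          rw [map_one, hD.hom] at h3
          exact h1 h3
        · intro Γ'' _ _ hΓ'' F'' ι' θ' hD' hQ'' hno''
          refine hHD Γ'' hΓ'' F'' (ι'.comp ι) (θ.comp θ') ⟨?_, ?_⟩ hQ'' hno''
          · intro g
            show θ (θ' (ι' (ι g))) = g
            rw [hD'.hom, hD.hom]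
          · intro v'' hv''
            obtain ⟨h2, h3⟩ := hD'.par v'' hv''
            constructor
            · rcases h2 with h2 | h2
              · exact (hD.par _ h2).1
              · right
                show θ (θ' v'') = 1
                rw [h2, map_one]
            · intro j hj h4
              have h4' : Rl S j (θ (θ' v'')) A := h4
              have h5 : Rl (ι S) (j + 1) (θ' v'') (ι (θ (θ' v''))) := by
                rcases h2 with h2 | h2
                · exact (hD.par _ h2).2 j (by omega) (h4'.trans ((hA1A.mono hj.le).symm))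
                · rw [h2, map_one, map_one]
                  exact Rl.refl _ _ _
              have h6 : Rl (ι S) j (θ' v'') (ι A) := (h5.mono (Nat.le_succ j)).trans (h4'.map ι rfl)
              have h7 := h3 j hj h6
              exact h7.trans (h5.map ι' rfl)
      · push Not at hex
        refine hHD Γ hΓ F (MonoidHom.id Γ) (MonoidHom.id Γ) ⟨fun g => rfl, ?_⟩ hQ ?_
        · exact fun v hv => ⟨Or.inl hv, fun j _ _ => Rl.refl _ _ _⟩
        · exact hex
  intro Γ _ _ hΓ S F A hA hQ h1 hHD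
  exact key F.card Γ hΓ S F A F le_rfl (fun v hv _ => ⟨v, hv, Rl.refl _ _ _⟩) hQ h1 hHD

/-- the empty product -/
theorem cv_empty {Γ : Type} [Group Γ] (w : Empty → ℤ → Γ) : Cv w := by
  intro X _ μ _ ρ hρ F hF
  refine Eventually.of_forall fun x => ⟨1, ?_⟩
  refine tendsto_const_nhds.congr fun N => ?_
  unfold av0 pr cc
  simp only [Finset.univ_eq_empty, Finset.prod_empty, Finset.sum_const, card_iv, nsmul_eq_mul, mul_one]
  rw [inv_mul_cancel₀]
  exact_mod_cast (by omega : 2 * N + 1 ≠ 0)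

theorem tt_last : TT c Q c := by
  intro Γ _ _ hΓ S F hQ hF
  refine dom S _ (fun e : Empty => e.elim) (fun v => ?_) (cv_empty _)
  left
  have h1 := hF v v.2
  rw [Hn_last hΓ, mem_cent] at h1
  exact h1

open Classical in
theorem tt_step (n : ℕ) (hE : EE c Q (n + 1)) (hT : TT c Q (n + 1)) : TT c Q n := by
  have key : ∀ q : ℕ, ∀ (Γ : Type) [Group Γ] [Countable Γ], NilC c Γ → ∀ (S : Γ) (F : Finset Γ)
      (R : Finset Γ), R.card ≤ q → (∀ v ∈ F, v ∈ Hn S n) →
      (∀ v ∈ F, v ∉ Hn S (n + 1) → ∃ s ∈ R, Rl S (n + 1) v s) →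
      Q.P Γ S (F : Set Γ) → St S F := by
    intro q
    induction q with
    | zero =>
      intro Γ _ _ hΓ S F R hR hF hcov hQ
      have hR0 : R = ∅ := Finset.card_eq_zero.1 (Nat.le_zero.1 hR)
      refine hT Γ hΓ S F hQ fun v hv => ?_
      by_contra hcon
      obtain ⟨s, hs, -⟩ := hcov v hv hcon
      rw [hR0] at hs
      simp at hs
    | succ q ih =>
      intro Γ _ _ hΓ S F R hR hF hcov hQ
      by_cases hex : ∃ A ∈ F, A ∉ Hn S (n + 1)
      · obtain ⟨A, hA, hAn⟩ := hex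
        obtain ⟨r0, hr0, hAr⟩ := hcov A hA hAn
        refine hE Γ hΓ S F A hA hQ ?_ ?_
        · intro h2
          unfold Rl at h2
          rw [one_mul, inv_mem_iff] at h2
          exact hAn h2
        intro Γ' _ _ hΓ' F' ι θ hD hQ' hno
        have hθ : ∀ v' ∈ F', θ v' ∈ Hn S n := by
          intro v' hv'
          rcases (hD.par v' hv').1 with h2 | h2
          · exact hF _ h2
          · rw [h2]
            exact Subgroup.one_mem _
        have hpar : ∀ v' ∈ F', Rl (ι S) (n + 1) v' (ι (θ v')) := by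
          intro v' hv'
          refine (hD.par v' hv').2 n (Nat.lt_succ_self n) ?_
          exact Subgroup.mul_mem _ (hθ v' hv') (Subgroup.inv_mem _ (hF A hA))
        refine ih Γ' hΓ' (ι S) F' ((R.erase r0).image ι) ?_ ?_ ?_ hQ'
        · refine Finset.card_image_le.trans ?_
          rw [Finset.card_erase_of_mem hr0]
          omega
        · intro v' hv'
          have h2 := Subgroup.mul_mem _ ((hpar v' hv').mono (Nat.le_succ n))
            (Hn_map ι (S := S) (S' := ι S) rfl n (hθ v' hv'))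
          rwa [inv_mul_cancel_right] at h2
        · intro v' hv' hv'n
          have h2 : θ v' ∉ Hn S (n + 1) := by
            intro h3
            have h4 := Subgroup.mul_mem _ (hpar v' hv') (Hn_map ι (S := S) (S' := ι S) rfl (n + 1) h3)
            rw [inv_mul_cancel_right] at h4
            exact hv'n h4
          have h3 : θ v' ∈ F := by
            rcases (hD.par v' hv').1 with h4 | h4
            · exact h4
            · rw [h4] at h2
              exact absurd (Subgroup.one_mem _) h2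
          obtain ⟨s, hs, hvs⟩ := hcov _ h3 h2
          have h6 := (hpar v' hv').trans (hvs.map ι rfl)
          refine ⟨ι s, Finset.mem_image_of_mem _ (Finset.mem_erase.2 ⟨?_, hs⟩), h6⟩
          rintro rfl
          exact hno v' hv' (h6.trans ((hAr.map ι rfl).symm))
      · push Not at hex
        exact hT Γ hΓ S F hQ hex
  intro Γ _ _ hΓ S F hQ hF
  exact key F.card Γ hΓ S F F le_rfl hF (fun v hv _ => ⟨v, hv, Rl.refl _ _ _⟩) hQ

/-- **Convergence from maximal inequalities and null averages.** -/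
theorem st_all (h : Hyp c Q) (Γ : Type) [Group Γ] [Countable Γ] (hΓ : NilC c Γ) (S : Γ)
    (F : Finset Γ) (hQ : Q.P Γ S (F : Set Γ)) : St S F := by
  have key : ∀ k n : ℕ, n + k = c → EE c Q n ∧ TT c Q n := by
    intro k
    induction k with
    | zero =>
      intro n hn
      have hn' : n = c := by omega
      subst hn'
      exact ⟨ee_last h, tt_last⟩
    | succ k ih =>
      intro n hn
      obtain ⟨h1, h2⟩ := ih (n + 1) (by omega)
      exact ⟨ee_step n h1, tt_step n h1 h2⟩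
  refine (key c 0 (by omega)).2 Γ hΓ S F hQ fun v _ => ?_
  rw [Hn_zero]
  exact Subgroup.mem_top v

theorem cv_all (h : Hyp c Q) (Γ : Type) [Group Γ] [Countable Γ] (hΓ : NilC c Γ) {J : Type}
    [Fintype J] (S : Γ) (v : J → Γ) (hQ : Q.P Γ S (Set.range v)) : Cv (fun j => cj S (v j)) := by
  classical
  refine st_tuple (st_all h Γ hΓ S (Finset.univ.image v) ?_) v
    (fun j => Finset.mem_image_of_mem _ (Finset.mem_univ j))
  rw [Finset.coe_image, Finset.coe_univ, Set.image_univ]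
  exact hQ

end

end Pool.Agent.H87.NC
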