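import Pool.Agent.H87.NC.Ext
import Pool.Agent.H87.NC.Birk

/-! # Powers of commuting maps: the single map, and the derived systems -/

set_option autoImplicit false
set_option linter.unusedSectionVars false

open MeasureTheory Filter Topology Set
open scoped ENNReal NNReal ComplexConjugate

namespace Pool.Agent.H87.NC

section

variable {X : Type}

/-- splitting of a symmetric sum -/
theorem sum_iv {E : Type} [AddCommMonoid E] (F : ℤ → E) (N : ℕ) :
    ∑ n ∈ iv N, F n = ∑ n ∈ Finset.range (N + 1), F n + ∑ n ∈ Finset.range N, F (-(n + 1 : ℕ)) := by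
  obtain ⟨e1, he1⟩ : ∃ e : ℕ ↪ ℤ, ∀ n, e n = (n : ℤ) := ⟨⟨fun n => n, Nat.cast_injective⟩, fun _ => rfl⟩
  obtain ⟨e2, he2⟩ : ∃ e : ℕ ↪ ℤ, ∀ n, e n = -((n + 1 : ℕ) : ℤ) :=
    ⟨⟨fun n => -((n + 1 : ℕ) : ℤ), fun a b h => by
      have h2 : (-((a + 1 : ℕ) : ℤ)) = -((b + 1 : ℕ) : ℤ) := h
      omega⟩, fun _ => rfl⟩
  have h1 : iv N = (Finset.range (N + 1)).map e1 ∪ (Finset.range N).map e2 := by
    ext z
    simp only [Finset.mem_Icc, Finset.mem_union, Finset.mem_map, Finset.mem_range, he1, he2]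
    constructor
    · rintro ⟨h1, h2⟩
      rcases le_or_gt 0 z with h | h
      · left
        exact ⟨z.toNat, by omega, by omega⟩
      · right
        exact ⟨(-z - 1).toNat, by omega, by push_cast; omega⟩
    · rintro (⟨a, h1, h2⟩ | ⟨a, h1, h2⟩)
      · omega
      · push_cast at h2
        omega
  rw [h1, Finset.sum_union, Finset.sum_map, Finset.sum_map]
  · simp only [he1, he2]
  · rw [Finset.disjoint_left]
    intro z h1 h2
    simp only [Finset.mem_map, Finset.mem_range, he1, he2] at h1 h2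
    obtain ⟨a, _, h3⟩ := h1
    obtain ⟨b, _, h4⟩ := h2
    push_cast at h4
    omega

theorem bs_pow {E : Type} [AddCommMonoid E] (T : Equiv.Perm X) (φ : X → E) (n : ℕ) (x : X) :
    birkhoffSum (⇑T) φ n x = ∑ k ∈ Finset.range n, φ ((T ^ (k : ℤ)) x) := by
  unfold birkhoffSum
  refine Finset.sum_congr rfl fun k _ => ?_
  rw [zpow_natCast, Equiv.Perm.iterate_eq_pow]

theorem bs_neg {E : Type} [AddCommMonoid E] (T : Equiv.Perm X) (φ : X → E) (n : ℕ) (x : X) :
    birkhoffSum (⇑T⁻¹) (fun y => φ (T⁻¹ y)) n x =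
      ∑ k ∈ Finset.range n, φ ((T ^ (-((k + 1 : ℕ) : ℤ))) x) := by
  unfold birkhoffSum
  refine Finset.sum_congr rfl fun k _ => ?_
  beta_reduce
  rw [Equiv.Perm.iterate_eq_pow, ← Equiv.Perm.mul_apply, ← pow_succ', inv_pow, zpow_neg,
    zpow_natCast]

variable [MeasurableSpace X] {μ : Measure X} [IsProbabilityMeasure μ]

/-- The maximal inequality of Birkhoff averages. -/
theorem mx_pow {T : Equiv.Perm X} (hT : T ∈ LL.MP μ) : Mx μ (fun n : ℤ => ⇑(T ^ n)) := by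
  intro ε hε
  refine ⟨ε ^ 2 / 4, by positivity, ?_⟩
  intro E hE hEμ
  have hTi : T⁻¹ ∈ LL.MP μ := (LL.MP μ).inv_mem hT
  obtain ⟨φ, hφ⟩ : ∃ φ : X → ℝ, φ = E.indicator (fun _ => (1 : ℝ)) := ⟨_, rfl⟩
  have hφ0 : ∀ x, 0 ≤ φ x := by
    intro x
    rw [hφ]
    exact ind_nonneg _ _
  have hφm : Measurable φ := by
    rw [hφ]
    exact measurable_const.indicator hE
  have hφi : Integrable φ μ := by
    rw [hφ]
    exact (integrable_const (1 : ℝ)).indicator hE
  have hφI : ∫ x, φ x ∂μ = μ.real E := by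
    rw [hφ, integral_indicator_const _ hE, smul_eq_mul, mul_one]
  have hreal : μ.real E ≤ ε ^ 2 / 4 := by
    rw [ENNReal.le_ofReal_iff_toReal_le (measure_ne_top _ _) (by positivity)] at hEμ
    exact hEμ
  have key : ∀ S : Equiv.Perm X, S ∈ LL.MP μ →
      μ {x | ∃ k, ε / 2 < birkhoffAverage ℝ (⇑S) φ k x} ≤ ENNReal.ofReal (ε / 2) := by
    intro S hS
    have h1 := Birk.weak hS.2 hφm hφi (show (0 : ℝ) ≤ ε / 2 by linarith)
    have h2 : ∫ x in {x | ∃ k, ε / 2 < birkhoffAverage ℝ (⇑S) φ k x}, φ x ∂μ ≤ ∫ x, φ x ∂μ :=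
      setIntegral_le_integral hφi (ae_of_all _ hφ0)
    rw [hφI] at h2
    rw [ENNReal.le_ofReal_iff_toReal_le (measure_ne_top _ _) (by linarith)]
    have h3 : ε / 2 * μ.real {x | ∃ k, ε / 2 < birkhoffAverage ℝ (⇑S) φ k x} ≤ ε / 2 * (ε / 2) := by
      refine (h1.trans (h2.trans hreal)).trans (le_of_eq ?_)
      ring
    exact le_of_mul_le_mul_left h3 (by linarith)
  have hsub : {x | ∃ N, ε < rs (fun n : ℤ => ⇑(T ^ n)) E N x} ⊆
      {x | ∃ k, ε / 2 < birkhoffAverage ℝ (⇑T) φ k x} ∪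
      {x | ∃ k, ε / 2 < birkhoffAverage ℝ (⇑T⁻¹) φ k x} := by
    rintro x ⟨N, hN⟩
    by_contra hcon
    rw [mem_union, not_or] at hcon
    have h1 : birkhoffAverage ℝ (⇑T) φ (N + 1) x ≤ ε / 2 := by
      by_contra hc
      exact hcon.1 ⟨_, not_le.1 hc⟩
    have h2 : birkhoffAverage ℝ (⇑T⁻¹) φ (N + 1) x ≤ ε / 2 := by
      by_contra hc
      exact hcon.2 ⟨_, not_le.1 hc⟩
    rw [birkhoffAverage, smul_eq_mul, inv_mul_le_iff₀ (by positivity)] at h1 h2
    have h3 : ∑ n ∈ iv N, φ ((T ^ n) x) ≤ birkhoffSum (⇑T) φ (N + 1) x +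
        birkhoffSum (⇑T⁻¹) φ (N + 1) x := by
      rw [sum_iv, bs_pow]
      apply add_le_add le_rfl
      unfold birkhoffSum
      rw [Finset.sum_range_succ' (fun k => φ ((⇑T⁻¹)^[k] x))]
      refine le_trans (le_of_eq ?_) (le_add_of_nonneg_right (hφ0 _))
      refine Finset.sum_congr rfl fun k _ => ?_
      rw [Equiv.Perm.iterate_eq_pow, zpow_neg, zpow_natCast, inv_pow]
    have h4 : rs (fun n : ℤ => ⇑(T ^ n)) E N x =
        ((2 * N + 1 : ℕ) : ℝ)⁻¹ * ∑ n ∈ iv N, φ ((T ^ n) x) := by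
      unfold rs
      rw [hφ]
    rw [h4, lt_inv_mul_iff₀ (by positivity)] at hN
    push_cast at hN h1 h2
    have h5 : (0 : ℝ) ≤ N := Nat.cast_nonneg N
    nlinarith
  refine (measure_mono hsub).trans ((measure_union_le _ _).trans
    ((add_le_add (key T hT) (key _ hTi)).trans (le_of_eq ?_)))
  rw [← ENNReal.ofReal_add (by linarith) (by linarith)]
  congr 1
  ring

theorem real_conv {T : Equiv.Perm X} (hT : T ∈ LL.MP μ) {φ : X → ℝ} (hφ : Measurable φ)
    {C : ℝ} (hC : ∀ x, |φ x| ≤ C) :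
    ∀ᵐ x ∂μ, ∃ l : ℝ, Tendsto (fun N : ℕ => ((2 * N + 1 : ℕ) : ℝ)⁻¹ * ∑ n ∈ iv N, φ ((T ^ n) x))
      atTop (𝓝 l) := by
  have hTi : T⁻¹ ∈ LL.MP μ := (LL.MP μ).inv_mem hT
  have hi1 : Integrable φ μ := Integrable.of_bound hφ.aestronglyMeasurable C (ae_of_all _ hC)
  have hi2 : Integrable (fun x => φ (T⁻¹ x)) μ :=
    Integrable.of_bound (hφ.comp hTi.2.measurable).aestronglyMeasurable C (ae_of_all _ fun x => hC _)
  filter_upwards [Birk.birkhoff hT.2 hi1, Birk.birkhoff hTi.2 hi2] with x h1 h2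
  have ha : Tendsto (fun N : ℕ => (((N + 1 : ℕ) : ℝ) / ((2 * N + 1 : ℕ) : ℝ))) atTop (𝓝 (1 / 2)) := by
    have h3 : Tendsto (fun N : ℕ => 1 / 2 + 1 / 2 * ((2 * N + 1 : ℕ) : ℝ)⁻¹) atTop
        (𝓝 (1 / 2 + 1 / 2 * 0)) := by
      refine Tendsto.const_add _ (Tendsto.const_mul _ (tendsto_inv_atTop_zero.comp
        (tendsto_natCast_atTop_atTop.comp ?_)))
      exact tendsto_atTop_mono (fun n => (by omega : n ≤ 2 * n + 1)) tendsto_id
    rw [mul_zero, add_zero] at h3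
    refine h3.congr fun N => ?_
    push_cast
    field_simp
    ring
  have hb : Tendsto (fun N : ℕ => ((N : ℝ) / ((2 * N + 1 : ℕ) : ℝ))) atTop (𝓝 (1 / 2)) := by
    have h3 : Tendsto (fun N : ℕ => 1 / 2 - 1 / 2 * ((2 * N + 1 : ℕ) : ℝ)⁻¹) atTop
        (𝓝 (1 / 2 - 1 / 2 * 0)) := by
      refine Tendsto.const_sub _ (Tendsto.const_mul _ (tendsto_inv_atTop_zero.comp
        (tendsto_natCast_atTop_atTop.comp ?_)))
      exact tendsto_atTop_mono (fun n => (by omega : n ≤ 2 * n + 1)) tendsto_id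
    rw [mul_zero, sub_zero] at h3
    refine h3.congr fun N => ?_
    push_cast
    field_simp
    ring
  refine ⟨_, ((ha.mul (h1.comp (tendsto_add_atTop_nat 1))).add (hb.mul h2)).congr fun N => ?_⟩
  rw [sum_iv, ← bs_pow, ← bs_neg]
  simp only [Function.comp_apply]
  unfold birkhoffAverage
  rw [smul_eq_mul, smul_eq_mul]
  rcases Nat.eq_zero_or_pos N with hN | hN
  · subst hN
    simp
  · have h3 : (N : ℝ) ≠ 0 := by exact_mod_cast hN.ne'
    push_cast
    field_simp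

/-- Birkhoff's theorem. -/
theorem conv_one : CommutingLinear Converges 1 := by
  intro X _ μ _ T hT _
  have hT0 : T 0 ∈ LL.MP μ := ⟨hT.inverse 0, hT.preserving 0⟩
  refine conv_of_b1 (fun j n => ((LL.MP μ).zpow_mem ⟨hT.inverse j, hT.preserving j⟩ n).2) ?_
  intro f hf
  have h1 := real_conv hT0 (Complex.measurable_re.comp (hf 0).1)
    (fun x => (Complex.abs_re_le_norm _).trans ((hf 0).2 x))
  have h2 := real_conv hT0 (Complex.measurable_im.comp (hf 0).1)
    (fun x => (Complex.abs_im_le_norm _).trans ((hf 0).2 x))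
  filter_upwards [h1, h2] with x h3 h4
  obtain ⟨l1, h3⟩ := h3
  obtain ⟨l2, h4⟩ := h4
  refine ⟨(l1 : ℂ) + Complex.I * l2, (((Complex.continuous_ofReal.tendsto _).comp h3).add
    (((Complex.continuous_ofReal.tendsto _).comp h4).const_mul Complex.I)).congr fun N => ?_⟩
  simp only [Function.comp_apply]
  unfold avg
  push_cast
  rw [mul_left_comm, ← mul_add, Finset.mul_sum, ← Finset.sum_add_distrib]
  congr 1
  refine Finset.sum_congr rfl fun n _ => ?_
  rw [Fin.prod_univ_one, mul_comm Complex.I]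
  exact Complex.re_add_im _

end

end Pool.Agent.H87.NC
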