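import Mathlib

/-! # Weak limits along ultrafilters -/

set_option autoImplicit false

open MeasureTheory Filter Topology Set
open scoped ENNReal NNReal ComplexConjugate

namespace Pool.Agent.H87.NC

section

variable {X : Type} [MeasurableSpace X]

/-- bounded measurable functions -/
def Bm (f : X → ℂ) : Prop := Measurable f ∧ ∃ C : ℝ, ∀ x, ‖f x‖ ≤ C

/-- measurable functions bounded by one -/
def B1 (f : X → ℂ) : Prop := Measurable f ∧ ∀ x, ‖f x‖ ≤ 1

/-- weak convergence along a filter -/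
def Wk (μ : Measure X) (U : Filter ℕ) (G : ℕ → X → ℂ) (g : X → ℂ) : Prop :=
  ∀ φ : X → ℂ, Bm φ → Tendsto (fun M => ∫ x, G M x * φ x ∂μ) U (𝓝 (∫ x, g x * φ x ∂μ))

theorem B1.bm {f : X → ℂ} (h : B1 f) : Bm f := ⟨h.1, 1, h.2⟩

theorem Bm.mul {f g : X → ℂ} (hf : Bm f) (hg : Bm g) : Bm (fun x => f x * g x) := by
  obtain ⟨h1, C, hC⟩ := hf
  obtain ⟨h2, D, hD⟩ := hg
  refine ⟨h1.mul h2, |C| * |D|, fun x => ?_⟩
  rw [norm_mul]
  exact mul_le_mul ((hC x).trans (le_abs_self _)) ((hD x).trans (le_abs_self _)) (norm_nonneg _)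
    (abs_nonneg _)

theorem Bm.add {f g : X → ℂ} (hf : Bm f) (hg : Bm g) : Bm (fun x => f x + g x) := by
  obtain ⟨h1, C, hC⟩ := hf
  obtain ⟨h2, D, hD⟩ := hg
  exact ⟨h1.add h2, C + D, fun x => (norm_add_le _ _).trans (add_le_add (hC x) (hD x))⟩

theorem Bm.sub {f g : X → ℂ} (hf : Bm f) (hg : Bm g) : Bm (fun x => f x - g x) := by
  obtain ⟨h1, C, hC⟩ := hf
  obtain ⟨h2, D, hD⟩ := hg
  exact ⟨h1.sub h2, C + D, fun x => (norm_sub_le _ _).trans (add_le_add (hC x) (hD x))⟩

theorem Bm.const (c : ℂ) : Bm (fun _ : X => c) := ⟨measurable_const, ‖c‖, fun _ => le_rfl⟩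

theorem Bm.cmul {f : X → ℂ} (hf : Bm f) (c : ℂ) : Bm (fun x => c * f x) := (Bm.const c).mul hf

theorem Bm.conj {f : X → ℂ} (hf : Bm f) : Bm (fun x => conj (f x)) := by
  obtain ⟨h1, C, hC⟩ := hf
  refine ⟨Complex.continuous_conj.measurable.comp h1, C, fun x => ?_⟩
  rw [RCLike.norm_conj]
  exact hC x

theorem Bm.sum {ι : Type} (s : Finset ι) {f : ι → X → ℂ} (hf : ∀ i ∈ s, Bm (f i)) :
    Bm (fun x => ∑ i ∈ s, f i x) := by
  classical
  induction s using Finset.induction_on with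
  | empty => simpa using Bm.const (X := X) 0
  | insert a s ha ih =>
    simp only [Finset.sum_insert ha]
    exact (hf a (Finset.mem_insert_self _ _)).add (ih fun i hi => hf i (Finset.mem_insert_of_mem hi))

theorem Bm.prod {ι : Type} (s : Finset ι) {f : ι → X → ℂ} (hf : ∀ i ∈ s, Bm (f i)) :
    Bm (fun x => ∏ i ∈ s, f i x) := by
  classical
  induction s using Finset.induction_on with
  | empty => simpa using Bm.const (X := X) 1
  | insert a s ha ih =>
    simp only [Finset.prod_insert ha]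
    exact (hf a (Finset.mem_insert_self _ _)).mul (ih fun i hi => hf i (Finset.mem_insert_of_mem hi))

theorem Bm.comp {Y : Type} [MeasurableSpace Y] {f : X → ℂ} (hf : Bm f) {T : Y → X}
    (hT : Measurable T) : Bm (fun y => f (T y)) := by
  obtain ⟨h1, C, hC⟩ := hf
  exact ⟨h1.comp hT, C, fun x => hC _⟩

theorem Bm.memLp {μ : Measure X} [IsFiniteMeasure μ] {f : X → ℂ} (hf : Bm f) (p : ℝ≥0∞) :
    MemLp f p μ := by
  obtain ⟨h1, C, hC⟩ := hf
  exact MemLp.of_bound h1.aestronglyMeasurable C (ae_of_all _ hC)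

theorem Bm.int {μ : Measure X} [IsFiniteMeasure μ] {f : X → ℂ} (hf : Bm f) : Integrable f μ :=
  memLp_one_iff_integrable.1 (hf.memLp 1)

theorem B1.mul {f g : X → ℂ} (hf : B1 f) (hg : B1 g) : B1 (fun x => f x * g x) := by
  refine ⟨hf.1.mul hg.1, fun x => ?_⟩
  rw [norm_mul]
  exact mul_le_one₀ (hf.2 x) (norm_nonneg _) (hg.2 x)

theorem B1.one : B1 (fun _ : X => (1 : ℂ)) := ⟨measurable_const, fun _ => by simp⟩

theorem B1.prod {ι : Type} (s : Finset ι) {f : ι → X → ℂ} (hf : ∀ i ∈ s, B1 (f i)) :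
    B1 (fun x => ∏ i ∈ s, f i x) := by
  classical
  induction s using Finset.induction_on with
  | empty => simpa using B1.one (X := X)
  | insert a s ha ih =>
    simp only [Finset.prod_insert ha]
    exact (hf a (Finset.mem_insert_self _ _)).mul (ih fun i hi => hf i (Finset.mem_insert_of_mem hi))

theorem B1.comp {Y : Type} [MeasurableSpace Y] {f : X → ℂ} (hf : B1 f) {T : Y → X}
    (hT : Measurable T) : B1 (fun y => f (T y)) := ⟨hf.1.comp hT, fun _ => hf.2 _⟩

theorem B1.conj {f : X → ℂ} (hf : B1 f) : B1 (fun x => conj (f x)) := by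
  refine ⟨Complex.continuous_conj.measurable.comp hf.1, fun x => ?_⟩
  rw [RCLike.norm_conj]
  exact hf.2 x

theorem Wk.mul {μ : Measure X} {U : Filter ℕ} {G : ℕ → X → ℂ} {g : X → ℂ} (h : Wk μ U G g)
    {q : X → ℂ} (hq : Bm q) : Wk μ U (fun M x => G M x * q x) (fun x => g x * q x) := by
  intro φ hφ
  have h1 := h _ (hq.mul hφ)
  simpa only [mul_assoc] using h1

theorem Wk.conj {μ : Measure X} {U : Filter ℕ} {G : ℕ → X → ℂ} {g : X → ℂ} (h : Wk μ U G g) :
    Wk μ U (fun M x => conj (G M x)) (fun x => conj (g x)) := by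
  intro φ hφ
  have h1 := h _ hφ.conj
  have h2 := (Complex.continuous_conj.tendsto _).comp h1
  have e : ∀ u : X → ℂ, ∫ x, (starRingEnd ℂ) (u x) * φ x ∂μ =
      (starRingEnd ℂ) (∫ x, u x * (starRingEnd ℂ) (φ x) ∂μ) := by
    intro u
    rw [← integral_conj]
    congr 1
    funext x
    rw [map_mul, Complex.conj_conj]
  rw [e]
  refine h2.congr fun M => ?_
  rw [e]
  rfl

/-- the sign function -/
noncomputable def sg (z : ℂ) : ℂ := conj z / (‖z‖ : ℂ)

theorem sg_meas : Measurable sg := by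
  unfold sg
  exact Complex.continuous_conj.measurable.div (Complex.measurable_ofReal.comp measurable_norm)

theorem sg_norm (z : ℂ) : ‖sg z‖ ≤ 1 := by
  unfold sg
  rw [norm_div, RCLike.norm_conj, Complex.norm_real, norm_norm]
  exact div_self_le_one _

theorem mul_sg (z : ℂ) : z * sg z = (‖z‖ : ℂ) := by
  unfold sg
  by_cases h : z = 0
  · simp [h]
  · have h1 : (‖z‖ : ℂ) ≠ 0 := by
      rw [Complex.ofReal_ne_zero]
      exact norm_ne_zero_iff.2 h
    rw [← mul_div_assoc, Complex.mul_conj, Complex.normSq_eq_norm_sq, div_eq_iff h1]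
    push_cast
    ring

/-- Existence of weak limits along ultrafilters. -/
theorem wk_exists (μ : Measure X) [IsProbabilityMeasure μ] (U : Ultrafilter ℕ) (G : ℕ → X → ℂ)
    (hG : ∀ M, B1 (G M)) : ∃ g, B1 g ∧ Wk μ (U : Filter ℕ) G g := by
  have hL : ∀ M, MemLp (fun x => conj (G M x)) 2 μ := fun M => ((hG M).conj).bm.memLp 2
  obtain ⟨v, hv⟩ : ∃ v : ℕ → Lp ℂ 2 μ, ∀ M, v M = (hL M).toLp _ := ⟨_, fun _ => rfl⟩
  have hvn : ∀ M, ‖v M‖ ≤ 1 := by
    intro M
    have h1 := Lp.norm_le_of_ae_bound (f := v M) (C := 1) zero_le_one (by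
      rw [hv]
      filter_upwards [(hL M).coeFn_toLp] with x hx
      rw [hx]
      exact (hG M).conj.2 x)
    have h2 : measureUnivNNReal μ = 1 := by simp [measureUnivNNReal]
    rw [h2] at h1
    simpa using h1
  have hin : ∀ (w : Lp ℂ 2 μ) (φ : X → ℂ) (hφ : MemLp φ 2 μ), inner ℂ w (hφ.toLp φ) =
      ∫ x, conj (w x) * φ x ∂μ := by
    intro w φ hφ
    rw [L2.inner_def]
    apply integral_congr_ae
    filter_upwards [hφ.coeFn_toLp] with x hx
    rw [hx, RCLike.inner_apply]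
    ring
  have hin2 : ∀ (M : ℕ) (φ : X → ℂ) (hφ : MemLp φ 2 μ), inner ℂ (v M) (hφ.toLp φ) =
      ∫ x, G M x * φ x ∂μ := by
    intro M φ hφ
    rw [hin]
    apply integral_congr_ae
    rw [hv]
    filter_upwards [(hL M).coeFn_toLp] with x hx
    rw [hx, Complex.conj_conj]
  obtain ⟨Λ, hΛ⟩ : ∃ Λ : ℕ → WeakDual ℂ (Lp ℂ 2 μ), ∀ M, Λ M =
      StrongDual.toWeakDual (InnerProductSpace.toDual ℂ _ (v M)) := ⟨_, fun _ => rfl⟩
  have hK := WeakDual.isCompact_closedBall (𝕜 := ℂ) (E := Lp ℂ 2 μ) 0 1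
  obtain ⟨L, -, hlim⟩ := hK.ultrafilter_le_nhds (U.map Λ) (by
    rw [le_principal_iff]
    show Λ ⁻¹' _ ∈ (U : Filter ℕ)
    refine univ_mem' fun M => ?_
    rw [mem_preimage, hΛ]
    show InnerProductSpace.toDual ℂ _ (v M) ∈ Metric.closedBall 0 1
    rw [mem_closedBall_zero_iff, LinearIsometryEquiv.norm_map]
    exact hvn M)
  obtain ⟨w, hw⟩ : ∃ w : Lp ℂ 2 μ, w = (InnerProductSpace.toDual ℂ (Lp ℂ 2 μ)).symm
      (WeakDual.toStrongDual L) := ⟨_, rfl⟩
  have hconv : ∀ (φ : X → ℂ) (hφ : MemLp φ 2 μ), Tendsto (fun M => ∫ x, G M x * φ x ∂μ)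
      (U : Filter ℕ) (𝓝 (∫ x, conj (w x) * φ x ∂μ)) := by
    intro φ hφ
    rw [← hin _ _ hφ, hw, InnerProductSpace.toDual_symm_apply]
    have h1 : Tendsto Λ (U : Filter ℕ) (𝓝 L) := hlim
    have h2 := ((WeakDual.eval_continuous (hφ.toLp φ)).tendsto L).comp h1
    refine h2.congr fun M => ?_
    rw [← hin2 M φ hφ]
    simp only [Function.comp_apply, hΛ]
    rfl
  have hwm : Measurable (w : X → ℂ) := (Lp.stronglyMeasurable w).measurable
  have hbound : ∀ᵐ x ∂μ, ‖w x‖ ≤ 1 := by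
    have hwi : Integrable (fun x => ‖w x‖) μ :=
      (((Lp.memLp w).mono_exponent (by norm_num : (1 : ℝ≥0∞) ≤ 2)).integrable le_rfl).norm
    refine ae_le_of_forall_setIntegral_le hwi (integrable_const (1 : ℝ)) ?_
    intro s hs _
    obtain ⟨φ, hφ⟩ : ∃ φ : X → ℂ, φ = s.indicator (fun x => sg (conj (w x))) := ⟨_, rfl⟩
    have hφB : B1 φ := by
      rw [hφ]
      refine ⟨(sg_meas.comp (Complex.continuous_conj.measurable.comp hwm)).indicator hs, ?_⟩
      intro x
      by_cases hx : x ∈ s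
      · rw [indicator_of_mem hx]
        exact sg_norm _
      · rw [indicator_of_notMem hx]
        simp
    have h1 := hconv φ (hφB.bm.memLp 2)
    have h2 : ∫ x, conj (w x) * φ x ∂μ = ((∫ x in s, ‖w x‖ ∂μ : ℝ) : ℂ) := by
      rw [← integral_indicator hs, ← integral_complex_ofReal]
      congr 1
      funext x
      rw [hφ]
      by_cases hx : x ∈ s
      · rw [indicator_of_mem hx, indicator_of_mem hx, mul_sg, RCLike.norm_conj]
      · rw [indicator_of_notMem hx, indicator_of_notMem hx]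
        simp
    rw [h2] at h1
    have h3 : ∀ M, ‖∫ x, G M x * φ x ∂μ‖ ≤ ∫ x in s, (1 : ℝ) ∂μ := by
      intro M
      refine (norm_integral_le_integral_norm _).trans ?_
      rw [← integral_indicator hs]
      apply integral_mono_of_nonneg (ae_of_all _ fun x => norm_nonneg _)
        ((integrable_const (1 : ℝ)).indicator hs)
      refine ae_of_all _ fun x => ?_
      rw [hφ]
      by_cases hx : x ∈ s
      · rw [indicator_of_mem hx]
        simp only [indicator_of_mem hx, norm_mul]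
        exact mul_le_one₀ ((hG M).2 x) (norm_nonneg _) (sg_norm _)
      · rw [indicator_of_notMem hx]
        simp [indicator_of_notMem hx]
    have h4 := le_of_tendsto h1.norm (Eventually.of_forall h3)
    rw [Complex.norm_real] at h4
    exact (le_abs_self _).trans h4
  refine ⟨fun x => if ‖w x‖ ≤ 1 then conj (w x) else 0, ⟨?_, ?_⟩, ?_⟩
  · exact Measurable.ite (measurableSet_le hwm.norm measurable_const)
      (Complex.continuous_conj.measurable.comp hwm) measurable_const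
  · intro x
    by_cases hx : ‖w x‖ ≤ 1
    · simp only [if_pos hx, RCLike.norm_conj]
      exact hx
    · simp only [if_neg hx, norm_zero]
      exact zero_le_one
  · intro φ hφ
    have h1 := hconv φ (hφ.memLp 2)
    have h2 : ∫ x, (if ‖w x‖ ≤ 1 then conj (w x) else 0) * φ x ∂μ = ∫ x, conj (w x) * φ x ∂μ := by
      apply integral_congr_ae
      filter_upwards [hbound] with x hx
      rw [if_pos hx]
    rw [h2]
    exact h1

end

end Pool.Agent.H87.NC
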